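import Pool.Agent.Lib.P4f18dfT.Defs
import Pool.Agent.Lib.P4f18df.Moments
import Pool.Agent.Lib.P4f18dfQ.Quant

/-!
# The moments of the sums from finitely many discrete moments, for `H ≤ X^(1-ε)`

Module TW.QMom.  `Md f k X H` is the `k`-th moment of the normalised sum over `x ∈ [X, 2X]`, `gm k` the
Gaussian moment.  Proof by contradiction as in `Quant.lean`: otherwise there are `f i, X i, H i` with
`H i ≥ i + 1`, `H i ≤ (X i)^(1-ε)`, `|Dk (f i) k N ⌊H i⌋₊| ≤ (√⌊H i⌋₊)^k / (i + 1)` for `1 ≤ k ≤ i + 1` and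
`N = ⌊X i⌋₊`, `N = (⌊X i⌋₊ + 1) / 2` (these are exactly the two lengths used in the proof of `even_bound`), and
(pigeonhole, `k ≤ L`) one fixed `k` with `|Md - gm k| > δ` for infinitely many `i` (pass to that
subsequence, or treat each `k` separately and take the maximum of the `K`'s: the hypothesis gets
stronger when `K` grows).  Along this sequence all moments converge: `Lib/P4f18df/Moments.lean` proves it for
one function (`even_disc`, `even_bound`, `moments_of_weak`, `weak_of_momProp`, `moments_of_momProp`) under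
`MomProp f`; the same proofs work for the sequence (`even_bound`: the `2j`-th moments are bounded;
weak convergence of `unif.map Zm` as in `Loc.lean`, `hconv`; `moments_of_weak` is already about sequences
of probability measures).  `k = 0` is trivial (`Md = 1 = gm 0`).
-/

set_option autoImplicit false

namespace Pool.Agent.P4f18dfT

open Finset Filter MeasureTheory ProbabilityTheory Pool.Agent.P4f18dfQ Pool.Agent.P4f18df

namespace QMom

lemma even_disc_fix {f : ℕ → ℝ} {j N h : ℕ} (hj : 1 ≤ j) (hN : 1 ≤ N) (hh0 : 1 ≤ h)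
    (h4 : |Dk f (2 * j) N h| ≤ 1 * (Real.sqrt h) ^ (2 * j)) :
    ∑ a ∈ Ioc N (2 * N), (Wd f h a) ^ (2 * j) ≤ N * (((4 * j) ^ j + 1) * (h : ℝ) ^ j) := by
  have hNr : (0:ℝ) < N := by exact_mod_cast hN
  have hhr : (0:ℝ) < h := by exact_mod_cast hh0
  have e : (Real.sqrt h) ^ (2 * j) = (h : ℝ) ^ j := by
    rw [pow_mul, Real.sq_sqrt hhr.le]
  rw [e, one_mul] at h4
  have e1 : ∑ a ∈ Ioc N (2 * N), (Wd f h a) ^ (2 * j) =
      N * Dk f (2 * j) N h + ∑ a ∈ Ioc N (2 * N), (triv (2 * j) (Q h a) : ℝ) := by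
    rw [Dk, mul_div_cancel₀ _ hNr.ne', Finset.sum_sub_distrib]; ring
  rw [e1]
  have h5 := sum_triv_le (N := N) (h := h) hj
  have h6 : N * Dk f (2 * j) N h ≤ N * (h : ℝ) ^ j :=
    mul_le_mul_of_nonneg_left (le_trans (le_abs_self _) h4) hNr.le
  have h7 : ((4 : ℝ) * j * h) ^ j = (4 * j) ^ j * (h : ℝ) ^ j := mul_pow _ _ _
  rw [h7] at h5
  nlinarith

lemma even_bound_fix {f : ℕ → ℝ} (hf : SgnFun f) {j : ℕ} {X H : ℝ} (g9a : 100 ≤ X)
    (g8a : 8 ≤ H) (hHX' : H ≤ X / 10000) (K : ℝ) (hK0 : 0 < K)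
    (v4 : ∑ a ∈ Ioc ⌊X⌋₊ (2 * ⌊X⌋₊), (Wd f ⌊H⌋₊ a) ^ (2 * j) ≤
      (⌊X⌋₊ : ℝ) * (K * (⌊H⌋₊ : ℝ) ^ j))
    (v4' : ∑ a ∈ Ioc ((⌊X⌋₊ + 1) / 2) (2 * ((⌊X⌋₊ + 1) / 2)), (Wd f ⌊H⌋₊ a) ^ (2 * j) ≤
      (((⌊X⌋₊ + 1) / 2 : ℕ) : ℝ) * (K * (⌊H⌋₊ : ℝ) ^ j)) :
    (∫ x in X..(2 * X), (Zm f X H x) ^ (2 * j)) ≤
      2 ^ (2 * j) * (2 * K + 2 ^ (2 * j)) / c2 ^ j * X := by
  have hc2 := c2_pos
  have hX0 : (0:ℝ) < X := by linarith
  set N := ⌊X⌋₊ with hN
  set h := ⌊H⌋₊ with hh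
  set N' := (N + 1) / 2 with hN'
  have n1 : (N : ℝ) ≤ X := Nat.floor_le (by linarith)
  have n2 : X < N + 1 := Nat.lt_floor_add_one _
  have b1 : (h : ℝ) ≤ H := Nat.floor_le (by linarith)
  have b2 : H < h + 1 := Nat.lt_floor_add_one _
  have hN100 : 100 ≤ N := Nat.le_floor (by exact_mod_cast g9a)
  have hNr : (100:ℝ) ≤ N := by exact_mod_cast hN100
  have hh8 : 8 ≤ h := Nat.le_floor (by exact_mod_cast g8a)
  have hhr : (8:ℝ) ≤ h := by exact_mod_cast hh8
  have hN'X : X / 4 ≤ (N' : ℝ) := by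
    have : N ≤ 2 * N' := by omega
    have h2 : (N : ℝ) ≤ 2 * N' := by exact_mod_cast this
    linarith
  have hN'le : (N' : ℝ) ≤ X := by
    have : (N' : ℝ) ≤ N := by exact_mod_cast (by omega : N' ≤ N)
    linarith
  have hNX4 : X / 4 ≤ (N : ℝ) := by linarith
  have hhN : (h : ℝ) ≤ N / 1000 := by linarith
  have hhN' : 1000 * h ≤ N := by
    have : 1000 * (h : ℝ) ≤ N := by linarith
    exact_mod_cast this
  -- the step function
  set G : ℝ → ℝ := fun y => (Wd f h ⌊y⌋₊) ^ (2 * j) with hG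
  have hGm : Measurable G := measurable_floor_comp_real (fun a => (Wd f h a) ^ (2 * j))
  have hGev : ∀ a : ℕ, 0 ≤ (Wd f h a) ^ (2 * j) := fun a => by
    rw [pow_mul]; positivity
  have hG0 : ∀ y, 0 ≤ G y := fun y => hGev _
  have hGb : ∀ y, |G y| ≤ (h : ℝ) ^ (2 * j) := by
    intro y
    rw [abs_of_nonneg (hG0 y)]
    have := abs_Wd_le hf h ⌊y⌋₊
    calc G y = |Wd f h ⌊y⌋₊| ^ (2 * j) := by rw [(even_two_mul j).pow_abs]
      _ ≤ _ := pow_le_pow_left₀ (abs_nonneg _) this _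
  have hGi : ∀ a b, IntervalIntegrable G volume a b :=
    intervalIntegrable_of_bdd_real hGm _ hGb
  have A1 : (∫ x in X..(2 * X), (Wd f h ⌊x - H / 2⌋₊) ^ (2 * j)) =
      ∫ y in (X - H / 2)..(2 * X - H / 2), G y := by
    rw [← intervalIntegral.integral_comp_sub_right (fun y => G y) (H / 2)]
  have B1 : ∫ y in (X - H / 2)..(2 * X - H / 2), G y ≤ 2 * X * (K * (h : ℝ) ^ j) := by
    set m := ⌊X - H / 2⌋₊ with hm'
    have m1 : (m : ℝ) ≤ X - H / 2 := Nat.floor_le (by linarith)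
    have m2 : X - H / 2 < m + 1 := Nat.lt_floor_add_one _
    have mN : m ≤ 2 * N + 1 := by
      have : (m : ℝ) ≤ ((2 * N + 1 : ℕ) : ℝ) := by push_cast; linarith
      exact_mod_cast this
    have mlow : N ≤ m + h + 2 := by
      have : (N : ℝ) ≤ ((m + h + 2 : ℕ) : ℝ) := by push_cast; linarith
      exact_mod_cast this
    have s1 : ∫ y in (X - H / 2)..(2 * X - H / 2), G y ≤
        ∫ y in (m : ℝ)..((2 * N + 1 : ℕ) : ℝ), G y := by
      apply intervalIntegral.integral_mono_interval m1 (by linarith) (by push_cast; linarith)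
      · exact Filter.Eventually.of_forall (fun y => hG0 y)
      · exact hGi _ _
    refine le_trans s1 ?_
    rw [hG, integral_floor_real (fun a => (Wd f h a) ^ (2 * j)) m (2 * N + 1) mN]
    have hsub : Ico m (2 * N + 1) ⊆ Ioc N' (2 * N') ∪ Ioc N (2 * N) := by
      intro a ha
      rw [Finset.mem_Ico] at ha
      rw [Finset.mem_union, Finset.mem_Ioc, Finset.mem_Ioc]
      omega
    calc ∑ a ∈ Ico m (2 * N + 1), (Wd f h a) ^ (2 * j)
        ≤ ∑ a ∈ Ioc N' (2 * N') ∪ Ioc N (2 * N), (Wd f h a) ^ (2 * j) :=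
          Finset.sum_le_sum_of_subset_of_nonneg hsub (fun a _ _ => hGev a)
      _ ≤ ∑ a ∈ Ioc N' (2 * N'), (Wd f h a) ^ (2 * j) +
          ∑ a ∈ Ioc N (2 * N), (Wd f h a) ^ (2 * j) := by
          rw [← Finset.sum_union_inter]
          have : 0 ≤ ∑ a ∈ Ioc N' (2 * N') ∩ Ioc N (2 * N), (Wd f h a) ^ (2 * j) :=
            Finset.sum_nonneg (fun a _ => hGev a)
          linarith
      _ ≤ N' * (K * (h : ℝ) ^ j) + N * (K * (h : ℝ) ^ j) := add_le_add v4' v4
      _ ≤ X * (K * (h : ℝ) ^ j) + X * (K * (h : ℝ) ^ j) := by gcongr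
      _ = _ := by ring
  -- compare
  have hsig : 0 < sig H := by
    unfold sig; apply Real.sqrt_pos.2; have := Real.pi_pos; positivity
  have hsig2 : sig H ^ (2 * j) = (H * c2) ^ j := by
    unfold sig c2
    rw [pow_mul, Real.sq_sqrt (by positivity)]
    congr 1; field_simp
  have hZm := measurable_Zm f X H
  have hZb : ∀ x, |(Zm f X H x) ^ (2 * j)| ≤
      (((⌊2 * X + H⌋₊ + 1 : ℕ) : ℝ) / sig H) ^ (2 * j) := by
    intro x
    rw [abs_pow]
    apply pow_le_pow_left₀ (abs_nonneg _)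
    unfold Zm
    rw [abs_div, abs_of_pos hsig]
    apply div_le_div_of_nonneg_right _ hsig.le
    refine le_trans (Finset.abs_sum_le_sum_abs _ _) ?_
    calc ∑ n ∈ Finset.range (⌊2 * X + H⌋₊ + 1), |if |(n : ℝ) - x| < H / 2 then f n else 0|
        ≤ ∑ n ∈ Finset.range (⌊2 * X + H⌋₊ + 1), (1:ℝ) := by
          apply Finset.sum_le_sum
          intro n _
          split_ifs
          · exact abs_f_le hf n
          · simp
      _ = _ := by simp
  have hZi : IntervalIntegrable (fun x => (Zm f X H x) ^ (2 * j)) volume X (2 * X) :=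
    intervalIntegrable_of_bdd_real (hZm.pow_const _) _ hZb _ _
  have hWm : Measurable (fun x : ℝ => (Wd f h ⌊x - H / 2⌋₊) ^ (2 * j)) :=
    hGm.comp (by fun_prop)
  have hWi : IntervalIntegrable (fun x : ℝ => (Wd f h ⌊x - H / 2⌋₊) ^ (2 * j)) volume X
      (2 * X) :=
    intervalIntegrable_of_bdd_real hWm ((h : ℝ) ^ (2 * j)) (fun x => hGb (x - H / 2)) _ _
  have hptw : ∀ x ∈ Set.Icc X (2 * X), (Zm f X H x) ^ (2 * j) ≤
      2 ^ (2 * j) / (H * c2) ^ j * ((Wd f h ⌊x - H / 2⌋₊) ^ (2 * j) + 2 ^ (2 * j)) := by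
    intro x hx
    have h1 := Ms_sub_Wd hf (x := x) (H := H) (by linarith) (by linarith [hx.1])
    rw [Zm_eq (by linarith) hx.2, div_pow, hsig2]
    set M := Ms f x H
    set W := Wd f h ⌊x - H / 2⌋₊
    rw [div_mul_eq_mul_div]
    apply div_le_div_of_nonneg_right _ (by positivity)
    have h2 : |M| ≤ 2 * max |W| 2 := by
      have : |M| ≤ |M - W| + |W| := by
        calc |M| = |(M - W) + W| := by congr 1; ring
          _ ≤ _ := abs_add_le _ _
      have := le_max_left |W| 2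
      have := le_max_right |W| 2
      linarith
    calc M ^ (2 * j) = |M| ^ (2 * j) := by rw [(even_two_mul j).pow_abs]
      _ ≤ (2 * max |W| 2) ^ (2 * j) := pow_le_pow_left₀ (abs_nonneg _) h2 _
      _ = 2 ^ (2 * j) * (max |W| 2) ^ (2 * j) := mul_pow _ _ _
      _ ≤ 2 ^ (2 * j) * (W ^ (2 * j) + 2 ^ (2 * j)) := by
          apply mul_le_mul_of_nonneg_left _ (by positivity)
          have e : W ^ (2 * j) = |W| ^ (2 * j) := by rw [(even_two_mul j).pow_abs]
          rw [e]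
          rcases le_total |W| 2 with h3 | h3
          · rw [max_eq_right h3]
            have : 0 ≤ |W| ^ (2 * j) := by positivity
            linarith
          · rw [max_eq_left h3]
            have : (0:ℝ) ≤ 2 ^ (2 * j) := by positivity
            linarith
  have E1 : (∫ x in X..(2 * X), (Zm f X H x) ^ (2 * j)) ≤
      ∫ x in X..(2 * X), 2 ^ (2 * j) / (H * c2) ^ j *
        ((Wd f h ⌊x - H / 2⌋₊) ^ (2 * j) + 2 ^ (2 * j)) := by
    apply intervalIntegral.integral_mono_on (by linarith) hZi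
      ((hWi.add intervalIntegrable_const).const_mul _)
    exact hptw
  refine le_trans E1 ?_
  rw [intervalIntegral.integral_const_mul, intervalIntegral.integral_add hWi
    intervalIntegrable_const, intervalIntegral.integral_const, A1]
  have hh1 : (1:ℝ) ≤ (h : ℝ) ^ j := one_le_pow₀ (by linarith)
  have hden : (h : ℝ) ^ j * c2 ^ j ≤ (H * c2) ^ j := by
    rw [← mul_pow]
    apply pow_le_pow_left₀ (by positivity)
    gcongr
  have hnum : (∫ y in (X - H / 2)..(2 * X - H / 2), G y) + (2 * X - X) • (2:ℝ) ^ (2 * j) ≤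
      (2 * K + 2 ^ (2 * j)) * X * (h : ℝ) ^ j := by
    rw [smul_eq_mul]
    have h2 : (2:ℝ) ^ (2 * j) * X * 1 ≤ 2 ^ (2 * j) * X * (h : ℝ) ^ j := by gcongr
    nlinarith
  calc 2 ^ (2 * j) / (H * c2) ^ j * ((∫ y in (X - H / 2)..(2 * X - H / 2), G y) +
        (2 * X - X) • (2:ℝ) ^ (2 * j))
      ≤ 2 ^ (2 * j) / (H * c2) ^ j * ((2 * K + 2 ^ (2 * j)) * X * (h : ℝ) ^ j) := by
        apply mul_le_mul_of_nonneg_left hnum (by positivity)
    _ ≤ 2 ^ (2 * j) / ((h : ℝ) ^ j * c2 ^ j) * ((2 * K + 2 ^ (2 * j)) * X * (h : ℝ) ^ j) := by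
        apply mul_le_mul_of_nonneg_right _ (by positivity)
        apply div_le_div_of_nonneg_left (by positivity) (by positivity) hden
    _ = 2 ^ (2 * j) * (2 * K + 2 ^ (2 * j)) / c2 ^ j * X := by
        have : (h : ℝ) ≠ 0 := by linarith
        field_simp


/-- all moments converge along a sequence -/
theorem moments_seq {f : ℕ → ℕ → ℝ} (hf : ∀ i, SgnFun (f i)) (X H : ℕ → ℝ) (ε : ℝ) (hε : 0 < ε)
    (hX : Tendsto X atTop atTop) (hH1 : Tendsto H atTop atTop)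
    (hH2 : ∀ᶠ i in atTop, H i ≤ X i ^ (1 - ε))
    (hm : ∀ k : ℕ, 1 ≤ k → ∀ η : ℝ, 0 < η → ∀ᶠ i : ℕ in atTop,
      |Dk (f i) k ⌊X i⌋₊ ⌊H i⌋₊| ≤ η * (Real.sqrt ⌊H i⌋₊) ^ k)
    (hm' : ∀ k : ℕ, 1 ≤ k → ∀ η : ℝ, 0 < η → ∀ᶠ i : ℕ in atTop,
      |Dk (f i) k ((⌊X i⌋₊ + 1) / 2) ⌊H i⌋₊| ≤ η * (Real.sqrt ⌊H i⌋₊) ^ k) (k : ℕ) :
    Tendsto (fun i => Md (f i) k (X i) (H i)) atTop (nhds (gm k)) := by
  have c4 : ∀ᶠ X : ℝ in atTop, X ^ (-ε) < 1 / 10000 := by
    have := tendsto_rpow_neg_atTop hε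
    exact this.eventually (gt_mem_nhds (by positivity))
  have hsmall : ∀ᶠ i in atTop, H i ≤ X i / 10000 := by
    filter_upwards [hX.eventually c4, hH2, hX.eventually_ge_atTop 1] with i g4 g7 g9
    have hX0 : (0:ℝ) < X i := by linarith
    have h1 : H i ≤ X i * X i ^ (-ε) := by
      refine le_trans g7 (le_of_eq ?_)
      rw [sub_eq_add_neg, Real.rpow_add hX0, Real.rpow_one]
    have h2 : X i * X i ^ (-ε) ≤ X i * (1 / 10000) := mul_le_mul_of_nonneg_left g4.le hX0.le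
    linarith
  have hHX0 : ∀ᶠ i in atTop, H i ≤ X i := by
    filter_upwards [hsmall, hX.eventually_ge_atTop 1] with i h1 h2
    linarith
  obtain ⟨C, hC, hCb⟩ : ∃ C : ℝ, 0 < C ∧ ∀ᶠ i in atTop,
      (∫ x in X i..(2 * X i), (Zm (f i) (X i) (H i) x) ^ (2 * k)) ≤ C * X i := by
    rcases Nat.eq_zero_or_pos k with h0 | h0
    · subst h0
      refine ⟨1, one_pos, ?_⟩
      filter_upwards [hX.eventually_ge_atTop 1] with i hX
      simp
      linarith
    · have hc2 := c2_pos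
      have hK0 : (0:ℝ) < (4 * k) ^ k + 1 := by positivity
      refine ⟨2 ^ (2 * k) * (2 * ((4 * k) ^ k + 1) + 2 ^ (2 * k)) / c2 ^ k, by positivity, ?_⟩
      filter_upwards [hm (2 * k) (by omega) 1 one_pos, hm' (2 * k) (by omega) 1 one_pos, hsmall,
        hX.eventually_ge_atTop 100, hH1.eventually_ge_atTop 8] with i g1 g2 g3 g4 g5
      have hN : 100 ≤ ⌊X i⌋₊ := Nat.le_floor (by exact_mod_cast g4)
      have hh : 8 ≤ ⌊H i⌋₊ := Nat.le_floor (by exact_mod_cast g5)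
      exact even_bound_fix (hf i) g4 g5 g3 _ hK0
        (even_disc_fix h0 (by omega) (by omega) g1) (even_disc_fix h0 (by omega) (by omega) g2)
  -- the characteristic functions converge
  have hchar : ∀ θ : ℝ, Tendsto (fun i : ℕ => charFun ((unif (X i)).map (Zm (f i) (X i) (H i))) θ)
      atTop (nhds ((Real.exp (-(θ ^ 2 / 2)) : ℝ) : ℂ)) := by
    intro θ
    rw [Metric.tendsto_nhds]
    intro δ hδ
    have hHn : Tendsto (fun i => ⌊H i⌋₊) atTop atTop := tendsto_nat_floor_atTop.comp hH1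
    have hHN : ∀ᶠ i in atTop, ⌊H i⌋₊ ≤ ⌊X i⌋₊ := by
      filter_upwards [hHX0] with i h1
      exact Nat.floor_mono h1
    have c1 := Loc.disc_charFun_loc hHn hHN hm θ (δ / 2) (by positivity)
    have c3 : ∀ᶠ i : ℕ in atTop, |θ| * (5 / Real.sqrt ⌊H i⌋₊) < δ / 6 := by
      have : Tendsto (fun i : ℕ => |θ| * (5 / Real.sqrt ⌊H i⌋₊)) atTop (nhds (|θ| * 0)) := by
        apply Tendsto.const_mul
        apply tendsto_const_nhds.div_atTop
        exact Real.tendsto_sqrt_atTop.comp (tendsto_natCast_atTop_atTop.comp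
          (tendsto_nat_floor_atTop.comp hH1))
      rw [mul_zero] at this
      exact this.eventually (gt_mem_nhds (by positivity))
    have c4 : ∀ᶠ X : ℝ in atTop, X ^ (-ε) < δ / 12 := by
      have := tendsto_rpow_neg_atTop hε
      exact this.eventually (gt_mem_nhds (by positivity))
    have c5 : ∀ᶠ X : ℝ in atTop, 5 / X < δ / 12 := by
      have : Tendsto (fun X : ℝ => 5 / X) atTop (nhds 0) :=
        tendsto_const_nhds.div_atTop tendsto_id
      exact this.eventually (gt_mem_nhds (by positivity))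
    filter_upwards [c1, c3, hX.eventually c4, hX.eventually c5, hH2,
      hH1.eventually_ge_atTop 1, hX.eventually_ge_atTop 1, hHX0] with i k1 g3 g4 g5 g7 g8 g9 hHX'
    have hX0 : (0:ℝ) < X i := by linarith
    have hHX : H i ≤ X i * X i ^ (-ε) := by
      refine le_trans g7 (le_of_eq ?_)
      rw [sub_eq_add_neg, Real.rpow_add hX0, Real.rpow_one]
    have k2 := charFun_bound (hf i) g9 g8 hHX' θ
    have k3 : (H i + 4) / X i + 1 / X i ≤ X i ^ (-ε) + 5 / X i := by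
      have : H i / X i ≤ X i ^ (-ε) := by
        rw [div_le_iff₀ hX0]; linarith
      have e : (H i + 4) / X i + 1 / X i = H i / X i + 5 / X i := by ring
      rw [e]; linarith
    rw [dist_eq_norm]
    calc ‖charFun ((unif (X i)).map (Zm (f i) (X i) (H i))) θ -
            ((Real.exp (-(θ ^ 2 / 2)) : ℝ) : ℂ)‖
        = ‖(charFun ((unif (X i)).map (Zm (f i) (X i) (H i))) θ -
              Phi (f i) (θ / sig ⌊H i⌋₊) ⌊X i⌋₊ ⌊H i⌋₊) +
          (Phi (f i) (θ / sig ⌊H i⌋₊) ⌊X i⌋₊ ⌊H i⌋₊ -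
            ((Real.exp (-(θ ^ 2 / 2)) : ℝ) : ℂ))‖ := by
          congr 1; ring
      _ ≤ _ := norm_add_le _ _
      _ < δ := by linarith
  -- weak convergence
  set v : ℕ → ℝ := fun n => max (X n) 1 with hv
  have hv1 : ∀ n, 1 ≤ v n := fun n => le_max_right _ _
  have huv : ∀ᶠ n in atTop, v n = X n := by
    filter_upwards [hX.eventually_ge_atTop 1] with n hn
    exact max_eq_left hn
  have hprob : ∀ n, IsProbabilityMeasure ((unif (v n)).map (Zm (f n) (v n) (H n))) := by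
    intro n
    have := unif_prob (show 0 < v n by have := hv1 n; linarith)
    exact Measure.isProbabilityMeasure_map (measurable_Zm _ _ _).aemeasurable
  set μs : ℕ → ProbabilityMeasure ℝ := fun n => ⟨(unif (v n)).map (Zm (f n) (v n) (H n)), hprob n⟩
    with hμs
  have hconv : Tendsto μs atTop (nhds gaussPM) := by
    rw [ProbabilityMeasure.tendsto_iff_tendsto_charFun]
    intro θ
    have h1 : charFun (gaussPM : Measure ℝ) θ = ((Real.exp (-(θ ^ 2 / 2)) : ℝ) : ℂ) := by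
      rw [gaussPM_coe, ProbabilityTheory.charFun_gaussianReal]
      push_cast
      congr 1; simp
    rw [h1]
    refine (hchar θ).congr' ?_
    filter_upwards [huv] with n hn
    rw [hμs]
    simp only [ProbabilityMeasure.coe_mk, hn]
  -- integrals against the law
  have hint : ∀ n, ∀ m : ℕ, ∫ x, x ^ m ∂(μs n : Measure ℝ) =
      (∫ x in (v n)..(2 * v n), (Zm (f n) (v n) (H n) x) ^ m) / v n := by
    intro n m
    have hvn : 0 < v n := by have := hv1 n; linarith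
    simp only [hμs, ProbabilityMeasure.coe_mk]
    rw [integral_map (measurable_Zm _ _ _).aemeasurable (by fun_prop)]
    unfold unif
    rw [integral_smul_measure, intervalIntegral.integral_of_le (by linarith),
      ← integral_Icc_eq_integral_Ioc, ENNReal.toReal_inv, ENNReal.toReal_ofReal hvn.le,
      smul_eq_mul, div_eq_inv_mul]
  have hbd : ∀ n x, |Zm (f n) (v n) (H n) x| ≤
      |((⌊2 * v n + H n⌋₊ + 1 : ℕ) : ℝ) / sig (H n)| := by
    intro n x
    unfold Zm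
    rw [abs_div, abs_div]
    apply div_le_div_of_nonneg_right _ (abs_nonneg _)
    refine le_trans (Finset.abs_sum_le_sum_abs _ _) ?_
    calc ∑ i ∈ Finset.range (⌊2 * v n + H n⌋₊ + 1),
          |if |(i : ℝ) - x| < H n / 2 then f n i else 0|
        ≤ ∑ i ∈ Finset.range (⌊2 * v n + H n⌋₊ + 1), (1:ℝ) := by
          apply Finset.sum_le_sum
          intro i _
          split_ifs
          · exact abs_f_le (hf n) i
          · simp
      _ ≤ _ := by
          rw [Finset.sum_const, Finset.card_range, nsmul_eq_mul, mul_one]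
          exact le_abs_self _
  have hinteg : ∀ n, ∀ m : ℕ, Integrable (fun x : ℝ => x ^ m) (μs n : Measure ℝ) := by
    intro n m
    simp only [hμs, ProbabilityMeasure.coe_mk]
    rw [integrable_map_measure (by fun_prop) (measurable_Zm _ _ _).aemeasurable]
    have := unif_prob (show 0 < v n by have := hv1 n; linarith)
    apply Integrable.of_bound (C := |((⌊2 * v n + H n⌋₊ + 1 : ℕ) : ℝ) / sig (H n)| ^ m)
    · exact ((measurable_Zm _ _ _).pow_const _).aestronglyMeasurable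
    · refine Filter.Eventually.of_forall (fun x => ?_)
      simp only [Function.comp]
      rw [Real.norm_eq_abs, abs_pow]
      exact pow_le_pow_left₀ (abs_nonneg _) (hbd n x) m
  have hmain := moments_of_weak μs gaussPM hconv k C hC
    (by
      filter_upwards [hCb, huv] with n hn hvn
      refine ⟨hinteg n _, hinteg n _, ?_⟩
      rw [hint n, div_le_iff₀ (by have := hv1 n; linarith), hvn]
      exact hn) (gauss_int _) (gauss_int _)
  refine hmain.congr' ?_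
  have hHpos : ∀ᶠ n in atTop, 0 ≤ H n := hH1.eventually_ge_atTop 0
  filter_upwards [huv, hHpos] with n hn hHn
  have hun : 1 ≤ X n := hn ▸ hv1 n
  rw [hint n k]
  unfold Md
  rw [hn]
  congr 1
  apply intervalIntegral.integral_congr
  intro x hx
  rw [Set.uIcc_of_le (by linarith)] at hx
  simp only
  rw [Zm_eq hHn hx.2]
  rfl

/-- the hypothesis -/
def Hyp (ε : ℝ) (K : ℕ) (f : ℕ → ℝ) (X H : ℝ) : Prop :=
  SgnFun f ∧ 0 < X ∧ (K : ℝ) ≤ H ∧ H ≤ X ^ (1 - ε) ∧
    (∀ k ∈ Icc 1 K, |Dk f k ⌊X⌋₊ ⌊H⌋₊| ≤ (1 / K : ℝ) * (Real.sqrt ⌊H⌋₊) ^ k) ∧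
    (∀ k ∈ Icc 1 K,
      |Dk f k ((⌊X⌋₊ + 1) / 2) ⌊H⌋₊| ≤ (1 / K : ℝ) * (Real.sqrt ⌊H⌋₊) ^ k)

lemma Hyp.anti {ε : ℝ} {K L : ℕ} (hK : 1 ≤ K) (hKL : K ≤ L) {f : ℕ → ℝ} {X H : ℝ}
    (h : Hyp ε L f X H) : Hyp ε K f X H := by
  obtain ⟨h1, h2, h3, h4, h5, h6⟩ := h
  have hK0 : (0:ℝ) < K := by exact_mod_cast hK
  have hKL' : (K : ℝ) ≤ L := by exact_mod_cast hKL
  refine ⟨h1, h2, by linarith, h4, ?_, ?_⟩
  · intro k hk
    rw [Finset.mem_Icc] at hk
    refine le_trans (h5 k (Finset.mem_Icc.2 ⟨hk.1, by omega⟩)) ?_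
    apply mul_le_mul_of_nonneg_right _ (by positivity)
    exact one_div_le_one_div_of_le hK0 hKL'
  · intro k hk
    rw [Finset.mem_Icc] at hk
    refine le_trans (h6 k (Finset.mem_Icc.2 ⟨hk.1, by omega⟩)) ?_
    apply mul_le_mul_of_nonneg_right _ (by positivity)
    exact one_div_le_one_div_of_le hK0 hKL'

/-- `X` is large if `H` is -/
lemma le_of_rpow {ε X H : ℝ} (hε : 0 < ε) (hε1 : ε < 1) (hX : 0 < X) (hH : 1 ≤ H)
    (h : H ≤ X ^ (1 - ε)) : H ≤ X := by
  have h1 : 1 ≤ X := by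
    by_contra hc
    have := Real.rpow_lt_one hX.le (not_le.mp hc) (by linarith : 0 < 1 - ε)
    linarith
  refine h.trans ?_
  calc X ^ (1 - ε) ≤ X ^ (1 : ℝ) := Real.rpow_le_rpow_of_exponent_le h1 (by linarith)
    _ = X := Real.rpow_one X

lemma one (ε δ : ℝ) (hε : 0 < ε) (hε1 : ε < 1) (hδ : 0 < δ) (k : ℕ) : ∃ K : ℕ, 1 ≤ K ∧
    ∀ f X H, Hyp ε K f X H → |Md f k X H - gm k| ≤ δ := by
  by_contra hcon
  push Not at hcon
  have hc : ∀ i : ℕ, ∃ f : ℕ → ℝ, ∃ X H : ℝ, Hyp ε (i + 1) f X H ∧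
      δ < |Md f k X H - gm k| := fun i => hcon (i + 1) (by omega)
  choose f X H hh hd using hc
  have hHi : ∀ i : ℕ, (i : ℝ) + 1 ≤ H i := by
    intro i
    have := (hh i).2.2.1
    push_cast at this
    exact this
  have hH1 : Tendsto H atTop atTop :=
    tendsto_atTop_mono (fun i => by have := hHi i; linarith : ∀ i : ℕ, (i : ℝ) ≤ H i)
      tendsto_natCast_atTop_atTop
  have hXi : ∀ i : ℕ, H i ≤ X i := by
    intro i
    have h0 : (0:ℝ) ≤ i := Nat.cast_nonneg i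
    have := hHi i
    exact le_of_rpow hε hε1 (hh i).2.1 (by linarith) (hh i).2.2.2.1
  have hX : Tendsto X atTop atTop := tendsto_atTop_mono hXi hH1
  have hm : ∀ k : ℕ, 1 ≤ k → ∀ η : ℝ, 0 < η → ∀ᶠ i : ℕ in atTop,
      |Dk (f i) k ⌊X i⌋₊ ⌊H i⌋₊| ≤ η * (Real.sqrt ⌊H i⌋₊) ^ k := by
    intro k hk η hη
    obtain ⟨m, hm⟩ := exists_nat_gt (1 / η)
    filter_upwards [eventually_ge_atTop k, eventually_ge_atTop m] with i hi1 hi2
    refine le_trans ((hh i).2.2.2.2.1 k (Finset.mem_Icc.2 ⟨hk, by omega⟩)) ?_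
    apply mul_le_mul_of_nonneg_right _ (by positivity)
    have h1 : (m : ℝ) ≤ i := by exact_mod_cast hi2
    push_cast
    rw [div_le_iff₀ (by positivity)]
    rw [div_lt_iff₀ hη] at hm
    nlinarith
  have hm' : ∀ k : ℕ, 1 ≤ k → ∀ η : ℝ, 0 < η → ∀ᶠ i : ℕ in atTop,
      |Dk (f i) k ((⌊X i⌋₊ + 1) / 2) ⌊H i⌋₊| ≤ η * (Real.sqrt ⌊H i⌋₊) ^ k := by
    intro k hk η hη
    obtain ⟨m, hm⟩ := exists_nat_gt (1 / η)
    filter_upwards [eventually_ge_atTop k, eventually_ge_atTop m] with i hi1 hi2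
    refine le_trans ((hh i).2.2.2.2.2 k (Finset.mem_Icc.2 ⟨hk, by omega⟩)) ?_
    apply mul_le_mul_of_nonneg_right _ (by positivity)
    have h1 : (m : ℝ) ≤ i := by exact_mod_cast hi2
    push_cast
    rw [div_le_iff₀ (by positivity)]
    rw [div_lt_iff₀ hη] at hm
    nlinarith
  have hT := moments_seq (fun i => (hh i).1) X H ε hε hX hH1
    (Filter.Eventually.of_forall (fun i => (hh i).2.2.2.1)) hm hm' k
  rw [Metric.tendsto_nhds] at hT
  obtain ⟨i, hi⟩ := (hT δ hδ).exists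
  have h2 := hd i
  rw [Real.dist_eq] at hi
  linarith

end QMom

theorem quant_mom (ε δ : ℝ) (hε : 0 < ε) (hε1 : ε < 1) (hδ : 0 < δ) (L : ℕ) : ∃ K : ℕ, 1 ≤ K ∧
    ∀ f : ℕ → ℝ, SgnFun f → ∀ X H : ℝ, 0 < X → (K : ℝ) ≤ H → H ≤ X ^ (1 - ε) →
    (∀ k ∈ Icc 1 K, |Dk f k ⌊X⌋₊ ⌊H⌋₊| ≤ (1 / K : ℝ) * (Real.sqrt ⌊H⌋₊) ^ k) →
    (∀ k ∈ Icc 1 K,
      |Dk f k ((⌊X⌋₊ + 1) / 2) ⌊H⌋₊| ≤ (1 / K : ℝ) * (Real.sqrt ⌊H⌋₊) ^ k) →
      ∀ k ≤ L, |Md f k X H - gm k| ≤ δ := by
  have hK : ∀ j : ℕ, ∃ K : ℕ, 1 ≤ K ∧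
      ∀ f X H, QMom.Hyp ε K f X H → |Md f j X H - gm j| ≤ δ :=
    fun j => QMom.one ε δ hε hε1 hδ j
  choose K hK1 hK2 using hK
  have hKL : ∀ j, j ≤ L → K j ≤ ∑ j ∈ range (L + 1), K j := by
    intro j hj
    exact Finset.single_le_sum (f := K) (fun _ _ => Nat.zero_le _)
      (Finset.mem_range.2 (by omega))
  refine ⟨∑ j ∈ range (L + 1), K j, le_trans (hK1 0) (hKL 0 (by omega)), ?_⟩
  intro f hf X H hX h1 h2 h3 h4 k hk
  have hyp : QMom.Hyp ε (∑ j ∈ range (L + 1), K j) f X H := ⟨hf, hX, h1, h2, h3, h4⟩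
  exact hK2 k f X H (hyp.anti (hK1 k) (hKL k hk))

end Pool.Agent.P4f18dfT
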