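import Pool.Agent.Lib.P4f18dfT.Defs
import Pool.Agent.Lib.P4f18dfQ.Quant

/-!
# The law from finitely many moments, for `H ≤ X^(1-ε)`

Module TW.Quant2.  This is `quant` of `Lib/P4f18dfQ/Quant.lean` (and `gauss_of_momLoc` of
`Lib/P4f18dfQ/Loc.lean`) with `H ≤ √X` replaced by `H ≤ X^(1-ε)`, `0 < ε < 1`.  First copy `Loc.lean` with the
hypothesis `hH2 : ∀ᶠ i in atTop, H i ≤ (X i)^(1-ε)` (there `c4`, `hHX`, `k3` use `X^(-1/2)`: replace by
`X^(-ε)`, `tendsto_rpow_neg_atTop`, `X^(1-ε) = X * X^(-ε)`); then copy `Quant.lean` (`pointwise` by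
contradiction: `K ≤ H ≤ X^(1-ε)` forces `X → ∞`: `X ≥ 1`? if `X < 1` then `X^(1-ε) < 1 ≤ K` (for `0 < X`;
for `X ≤ 0`, `X^(1-ε)` may be anything: use the hypothesis `0 < X`), so `X ≥ 1` and
`K ≤ X^(1-ε) ≤ X`; `monotone` argument for the uniformity in `t` verbatim).
-/

set_option autoImplicit false

namespace Pool.Agent.P4f18dfT

open Finset Filter MeasureTheory ProbabilityTheory Pool.Agent.P4f18dfQ Pool.Agent.P4f18df

namespace Quant2

theorem gauss_of_momLoc2 {ε : ℝ} (hε : 0 < ε) {f : ℕ → ℕ → ℝ} (hf : ∀ i, SgnFun (f i)) (X H : ℕ → ℝ)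
    (hX : Tendsto X atTop atTop)
    (hm : ∀ k : ℕ, 1 ≤ k → ∀ η : ℝ, 0 < η → ∀ᶠ i : ℕ in atTop,
      |Dk (f i) k ⌊X i⌋₊ ⌊H i⌋₊| ≤ η * (Real.sqrt ⌊H i⌋₊) ^ k)
    (hH1 : Tendsto H atTop atTop) (hH2 : ∀ᶠ i in atTop, H i ≤ X i ^ (1 - ε)) (t : ℝ) :
    Tendsto (fun i : ℕ => (volume {x : ℝ | x ∈ Set.Icc (X i) (2 * X i) ∧
        Ms (f i) x (H i) / Real.sqrt (H i / (Real.pi ^ 2 / 6)) ≤ t}).toReal / X i) atTop
      (nhds (cdf (gaussianReal 0 1) t)) := by
  have hHX0 : ∀ᶠ i in atTop, H i ≤ X i := by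
    filter_upwards [hH2, hX.eventually_ge_atTop 1] with i h1 h2
    refine le_trans h1 ?_
    calc X i ^ (1 - ε) ≤ X i ^ (1 : ℝ) := Real.rpow_le_rpow_of_exponent_le h2 (by linarith)
      _ = X i := Real.rpow_one _
  -- the characteristic functions converge
  have hchar : ∀ θ : ℝ, Tendsto (fun i : ℕ => charFun ((unif (X i)).map (Zm (f i) (X i) (H i))) θ)
      atTop (nhds ((Real.exp (-(θ ^ 2 / 2)) : ℝ) : ℂ)) := by
    intro θ
    rw [Metric.tendsto_nhds]
    intro δ hδ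
    have hHn : Tendsto (fun i => ⌊H i⌋₊) atTop atTop := tendsto_nat_floor_atTop.comp hH1
    have hHN : ∀ᶠ i in atTop, ⌊H i⌋₊ ≤ ⌊X i⌋₊ := by
      filter_upwards [hHX0] with i h1
      exact Nat.floor_mono h1
    have c1 := Loc.disc_charFun_loc hHn hHN hm θ (δ / 2) (by positivity)
    have c3 : ∀ᶠ i : ℕ in atTop, |θ| * (5 / Real.sqrt ⌊H i⌋₊) < δ / 6 := by
      have : Tendsto (fun i : ℕ => |θ| * (5 / Real.sqrt ⌊H i⌋₊)) atTop (nhds (|θ| * 0)) := by
        apply Tendsto.const_mul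
        apply tendsto_const_nhds.div_atTop
        exact Real.tendsto_sqrt_atTop.comp (tendsto_natCast_atTop_atTop.comp
          (tendsto_nat_floor_atTop.comp hH1))
      rw [mul_zero] at this
      exact this.eventually (gt_mem_nhds (by positivity))
    have c4 : ∀ᶠ X : ℝ in atTop, X ^ (-ε) < δ / 12 := by
      have := tendsto_rpow_neg_atTop hε
      exact this.eventually (gt_mem_nhds (by positivity))
    have c5 : ∀ᶠ X : ℝ in atTop, 5 / X < δ / 12 := by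
      have : Tendsto (fun X : ℝ => 5 / X) atTop (nhds 0) :=
        tendsto_const_nhds.div_atTop tendsto_id
      exact this.eventually (gt_mem_nhds (by positivity))
    filter_upwards [c1, c3, hX.eventually c4, hX.eventually c5, hH2,
      hH1.eventually_ge_atTop 1, hX.eventually_ge_atTop 1, hHX0] with i k1 g3 g4 g5 g7 g8 g9 hHX'
    have hX0 : (0:ℝ) < X i := by linarith
    have hHX : H i ≤ X i * X i ^ (-ε) := by
      refine le_trans g7 (le_of_eq ?_)
      nth_rewrite 2 [← Real.rpow_one (X i)]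
      rw [← Real.rpow_add hX0]
      congr 1
    have k2 := charFun_bound (hf i) g9 g8 hHX' θ
    have k3 : (H i + 4) / X i + 1 / X i ≤ X i ^ (-ε) + 5 / X i := by
      have : H i / X i ≤ X i ^ (-ε) := by
        rw [div_le_iff₀ hX0]; linarith
      have e : (H i + 4) / X i + 1 / X i = H i / X i + 5 / X i := by ring
      rw [e]; linarith
    rw [dist_eq_norm]
    calc ‖charFun ((unif (X i)).map (Zm (f i) (X i) (H i))) θ -
            ((Real.exp (-(θ ^ 2 / 2)) : ℝ) : ℂ)‖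
        = ‖(charFun ((unif (X i)).map (Zm (f i) (X i) (H i))) θ -
              Phi (f i) (θ / sig ⌊H i⌋₊) ⌊X i⌋₊ ⌊H i⌋₊) +
          (Phi (f i) (θ / sig ⌊H i⌋₊) ⌊X i⌋₊ ⌊H i⌋₊ -
            ((Real.exp (-(θ ^ 2 / 2)) : ℝ) : ℂ))‖ := by
          congr 1; ring
      _ ≤ _ := norm_add_le _ _
      _ < δ := by linarith
  -- weak convergence
  set v : ℕ → ℝ := fun n => max (X n) 1 with hv
  have hv1 : ∀ n, 1 ≤ v n := fun n => le_max_right _ _
  have huv : ∀ᶠ n in atTop, v n = X n := by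
    filter_upwards [hX.eventually_ge_atTop 1] with n hn
    exact max_eq_left hn
  have hprob : ∀ n, IsProbabilityMeasure ((unif (v n)).map (Zm (f n) (v n) (H n))) := by
    intro n
    have := unif_prob (show 0 < v n by have := hv1 n; linarith)
    exact Measure.isProbabilityMeasure_map (measurable_Zm _ _ _).aemeasurable
  set μs : ℕ → ProbabilityMeasure ℝ := fun n => ⟨(unif (v n)).map (Zm (f n) (v n) (H n)), hprob n⟩
    with hμs
  set μ0 : ProbabilityMeasure ℝ := ⟨ProbabilityTheory.gaussianReal 0 1, inferInstance⟩ with hμ0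
  have hconv : Tendsto μs atTop (nhds μ0) := by
    rw [ProbabilityMeasure.tendsto_iff_tendsto_charFun]
    intro θ
    have h1 : charFun (μ0 : Measure ℝ) θ = ((Real.exp (-(θ ^ 2 / 2)) : ℝ) : ℂ) := by
      rw [hμ0]
      simp only [ProbabilityMeasure.coe_mk]
      rw [ProbabilityTheory.charFun_gaussianReal]
      push_cast
      congr 1; simp
    rw [h1]
    refine (hchar θ).congr' ?_
    filter_upwards [huv] with n hn
    rw [hμs]
    simp only [ProbabilityMeasure.coe_mk, hn]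
  have hfront : (μ0 : Measure ℝ) (frontier (Set.Iic t)) = 0 := by
    rw [frontier_Iic]
    have := ProbabilityTheory.nullSingletonClass_gaussianReal (μ := 0) (v := 1) (by norm_num)
    show (ProbabilityTheory.gaussianReal 0 1) {t} = 0
    exact measure_singleton t
  have hlim := ProbabilityMeasure.tendsto_measure_of_null_frontier_of_tendsto' hconv hfront
  have hlim2 : Tendsto (fun n => ((μs n : Measure ℝ) (Set.Iic t)).toReal) atTop
      (nhds ((μ0 : Measure ℝ) (Set.Iic t)).toReal) :=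
    (ENNReal.tendsto_toReal (measure_ne_top _ _)).comp hlim
  have h0 : ((μ0 : Measure ℝ) (Set.Iic t)).toReal =
      ProbabilityTheory.cdf (ProbabilityTheory.gaussianReal 0 1) t := by
    rw [ProbabilityTheory.cdf_eq_real]; rfl
  rw [h0] at hlim2
  refine hlim2.congr' ?_
  have hHpos : ∀ᶠ n in atTop, 0 ≤ H n := hH1.eventually_ge_atTop 0
  filter_upwards [huv, hHpos] with n hn hHn
  have hun : 1 ≤ X n := hn ▸ hv1 n
  have hun0 : 0 < X n := by linarith
  simp only [hμs, ProbabilityMeasure.coe_mk, hn]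
  rw [Measure.map_apply (measurable_Zm _ _ _) measurableSet_Iic]
  unfold unif
  rw [Measure.smul_apply, Measure.restrict_apply (measurable_Zm _ _ _ measurableSet_Iic),
    smul_eq_mul, ENNReal.toReal_mul, ENNReal.toReal_inv, ENNReal.toReal_ofReal hun0.le]
  rw [div_eq_inv_mul]
  congr 2
  congr 1
  ext x
  simp only [Set.mem_inter_iff, Set.mem_preimage, Set.mem_Iic, Set.mem_setOf_eq]
  constructor
  · rintro ⟨h1, h2⟩
    refine ⟨h2, ?_⟩
    rw [Zm_eq hHn h2.2] at h1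
    exact h1
  · rintro ⟨h1, h2⟩
    refine ⟨?_, h1⟩
    rw [Zm_eq hHn h1.2]
    exact h2


/-- the hypothesis on the moments -/
def Hyp (ε : ℝ) (K : ℕ) (f : ℕ → ℝ) (X H : ℝ) : Prop :=
  SgnFun f ∧ 0 < X ∧ (K : ℝ) ≤ H ∧ H ≤ X ^ (1 - ε) ∧
    ∀ k ∈ Icc 1 K, |Dk f k ⌊X⌋₊ ⌊H⌋₊| ≤ (1 / K : ℝ) * (Real.sqrt ⌊H⌋₊) ^ k

lemma Hyp.anti {ε : ℝ} {K L : ℕ} (hK : 1 ≤ K) (hKL : K ≤ L) {f : ℕ → ℝ} {X H : ℝ}
    (h : Hyp ε L f X H) : Hyp ε K f X H := by
  obtain ⟨h1, h0, h2, h3, h4⟩ := h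
  have hK0 : (0:ℝ) < K := by exact_mod_cast hK
  have hKL' : (K : ℝ) ≤ L := by exact_mod_cast hKL
  refine ⟨h1, h0, by linarith, h3, ?_⟩
  intro k hk
  rw [Finset.mem_Icc] at hk
  refine le_trans (h4 k (Finset.mem_Icc.2 ⟨hk.1, by omega⟩)) ?_
  apply mul_le_mul_of_nonneg_right _ (by positivity)
  exact one_div_le_one_div_of_le hK0 hKL'

lemma pow_lower {ε X H : ℝ} (hε : 0 < ε) (hε1 : ε < 1) (h0 : 0 < X) (h1 : 1 ≤ H)
    (h2 : H ≤ X ^ (1 - ε)) : H ≤ X := by
  have hX1 : 1 ≤ X := by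
    by_contra h
    push Not at h
    have := Real.rpow_lt_one h0.le h (by linarith : 0 < 1 - ε)
    linarith
  calc H ≤ X ^ (1 - ε) := h2
    _ ≤ X ^ (1 : ℝ) := Real.rpow_le_rpow_of_exponent_le hX1 (by linarith)
    _ = X := Real.rpow_one _

lemma pointwise {ε : ℝ} (hε : 0 < ε) (hε1 : ε < 1) (t δ : ℝ) (hδ : 0 < δ) :
    ∃ K : ℕ, 1 ≤ K ∧ ∀ f X H, Hyp ε K f X H →
    |Gd f X H t - cdf (gaussianReal 0 1) t| ≤ δ := by
  by_contra hcon
  push Not at hcon
  have hc : ∀ i : ℕ, ∃ f : ℕ → ℝ, ∃ X H : ℝ, Hyp ε (i + 1) f X H ∧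
      δ < |Gd f X H t - cdf (gaussianReal 0 1) t| := fun i => hcon (i + 1) (by omega)
  choose f X H hh hd using hc
  have hHi : ∀ i : ℕ, (i : ℝ) ≤ H i := by
    intro i
    have := (hh i).2.2.1
    push_cast at this
    linarith
  have hH1 : Tendsto H atTop atTop := tendsto_atTop_mono hHi tendsto_natCast_atTop_atTop
  have hXi : ∀ i : ℕ, H i ≤ X i := by
    intro i
    have h1 := (hh i).2.2.1
    push_cast at h1
    have h0 : (0:ℝ) ≤ i := Nat.cast_nonneg i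
    exact pow_lower hε hε1 (hh i).2.1 (by linarith) (hh i).2.2.2.1
  have hX : Tendsto X atTop atTop := tendsto_atTop_mono hXi hH1
  have hm : ∀ k : ℕ, 1 ≤ k → ∀ η : ℝ, 0 < η → ∀ᶠ i : ℕ in atTop,
      |Dk (f i) k ⌊X i⌋₊ ⌊H i⌋₊| ≤ η * (Real.sqrt ⌊H i⌋₊) ^ k := by
    intro k hk η hη
    obtain ⟨m, hm⟩ := exists_nat_gt (1 / η)
    filter_upwards [eventually_ge_atTop k, eventually_ge_atTop m] with i hi1 hi2
    refine le_trans ((hh i).2.2.2.2 k (Finset.mem_Icc.2 ⟨hk, by omega⟩)) ?_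
    apply mul_le_mul_of_nonneg_right _ (by positivity)
    have h1 : (m : ℝ) ≤ i := by exact_mod_cast hi2
    push_cast
    rw [div_le_iff₀ (by positivity)]
    rw [div_lt_iff₀ hη] at hm
    nlinarith
  have hT := gauss_of_momLoc2 hε (fun i => (hh i).1) X H hX hm hH1
    (Filter.Eventually.of_forall (fun i => (hh i).2.2.2.1)) t
  rw [Metric.tendsto_nhds] at hT
  obtain ⟨i, hi⟩ := (hT δ hδ).exists
  have h2 := hd i
  rw [Real.dist_eq] at hi
  unfold Gd at h2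
  linarith


end Quant2

theorem quant2 (ε δ : ℝ) (hε : 0 < ε) (hε1 : ε < 1) (hδ : 0 < δ) : ∃ K : ℕ, 1 ≤ K ∧
    ∀ f : ℕ → ℝ, SgnFun f → ∀ X H : ℝ, 0 < X → (K : ℝ) ≤ H → H ≤ X ^ (1 - ε) →
    (∀ k ∈ Icc 1 K, |Dk f k ⌊X⌋₊ ⌊H⌋₊| ≤ (1 / K : ℝ) * (Real.sqrt ⌊H⌋₊) ^ k) → ∀ t : ℝ,
      |Gd f X H t - cdf (gaussianReal 0 1) t| ≤ δ := by
  classical
  obtain ⟨n, hn⟩ := exists_nat_gt (4 / δ)
  have hn0 : (0:ℝ) < n := lt_trans (by positivity) hn
  have hn2 : 2 / (n : ℝ) ≤ δ / 2 := by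
    rw [div_lt_iff₀ hδ] at hn
    rw [div_le_iff₀ hn0]
    linarith
  have hT : ∀ j : ℕ, ∃ t : ℝ, (1 ≤ j ∧ j < n) → cdf (gaussianReal 0 1) t = (j : ℝ) / n := by
    intro j
    by_cases hj : 1 ≤ j ∧ j < n
    · have h1 : (0:ℝ) < (j : ℝ) / n := by
        apply div_pos _ hn0
        exact_mod_cast hj.1
      have h2 : (j : ℝ) / n < 1 := by
        rw [div_lt_one hn0]; exact_mod_cast hj.2
      obtain ⟨t, ht⟩ := Quant.exists_value h1 h2
      exact ⟨t, fun _ => ht⟩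
    · exact ⟨0, fun h => absurd h hj⟩
  choose T hT using hT
  have hK : ∀ j : ℕ, ∃ K : ℕ, 1 ≤ K ∧ ∀ f X H, Quant2.Hyp ε K f X H →
      |Gd f X H (T j) - cdf (gaussianReal 0 1) (T j)| ≤ δ / 2 :=
    fun j => Quant2.pointwise hε hε1 (T j) (δ / 2) (by positivity)
  choose K hK1 hK2 using hK
  set L : ℕ := ∑ j ∈ range (n + 1), K j with hL
  have hKL : ∀ j, j ≤ n → K j ≤ L := by
    intro j hj
    exact Finset.single_le_sum (f := K) (fun _ _ => Nat.zero_le _)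
      (Finset.mem_range.2 (by omega))
  have hL1 : 1 ≤ L := le_trans (hK1 0) (hKL 0 (by omega))
  refine ⟨L, hL1, ?_⟩
  intro f hf X H hX0 h1 h2 h3 t
  have hyp : Quant2.Hyp ε L f X H := ⟨hf, hX0, h1, h2, h3⟩
  have hL1' : (1:ℝ) ≤ L := by exact_mod_cast hL1
  have hH1 : 1 ≤ H := by linarith
  change |Quant.G f X H t - cdf (gaussianReal 0 1) t| ≤ δ
  set Φ := cdf (gaussianReal 0 1) with hΦ
  have hΦm : Monotone Φ := monotone_cdf _
  have hΦ0 : 0 ≤ Φ t := cdf_nonneg _ _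
  have hΦ1 : Φ t ≤ 1 := cdf_le_one _ _
  have hGm := Quant.G_mono (f := f) (H := H) hX0
  have hG0 := Quant.G_nonneg (f := f) (H := H) (t := t) hX0
  have hG1 := Quant.G_le_one (f := f) (H := H) (t := t) hX0
  have hnet : ∀ j : ℕ, 1 ≤ j → j < n → |Quant.G f X H (T j) - (j : ℝ) / n| ≤ δ / 2 := by
    intro j hj1 hj2
    have := hK2 j f X H (hyp.anti (hK1 j) (hKL j hj2.le))
    rw [hT j ⟨hj1, hj2⟩] at this
    exact this
  have hlt : ∀ j : ℕ, 1 ≤ j → j < n → Φ t < (j : ℝ) / n → t ≤ T j := by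
    intro j hj1 hj2 hlt
    rw [← hT j ⟨hj1, hj2⟩] at hlt
    exact (hΦm.reflect_lt hlt).le
  have hgt : ∀ j : ℕ, 1 ≤ j → j < n → (j : ℝ) / n < Φ t → T j ≤ t := by
    intro j hj1 hj2 hlt
    rw [← hT j ⟨hj1, hj2⟩] at hlt
    exact (hΦm.reflect_lt hlt).le
  set j := ⌊(n : ℝ) * Φ t⌋₊ with hj
  have j1 : (j : ℝ) ≤ n * Φ t := Nat.floor_le (by positivity)
  have j2 : (n : ℝ) * Φ t < j + 1 := Nat.lt_floor_add_one _
  have e1n : 0 < 1 / (n : ℝ) := by positivity
  have e2n : 2 / (n : ℝ) = 1 / n + 1 / n := by ring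
  rw [abs_le]
  constructor
  · -- lower bound
    by_cases hj3 : 2 ≤ j
    · have hjn : j - 1 < n := by
        have h5 : (j : ℝ) ≤ n := by nlinarith
        have h6 : j ≤ n := by exact_mod_cast h5
        omega
      have h7 : ((j - 1 : ℕ) : ℝ) = j - 1 := by
        rw [Nat.cast_sub (by omega)]; norm_num
      have h8 : ((j - 1 : ℕ) : ℝ) / n < Φ t := by
        rw [h7, div_lt_iff₀ hn0]; linarith
      have h9 := hgt (j - 1) (by omega) hjn h8
      have h10 := hGm h9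
      have h11 := hnet (j - 1) (by omega) hjn
      rw [abs_le] at h11
      have h12 : Φ t ≤ ((j - 1 : ℕ) : ℝ) / n + 2 / n := by
        rw [h7, ← add_div, le_div_iff₀ hn0]; linarith
      linarith [h11.1]
    · have h5 : (j : ℝ) ≤ 1 := by exact_mod_cast (by omega : j ≤ 1)
      have h6 : Φ t ≤ 2 / n := by
        rw [le_div_iff₀ hn0]; linarith
      linarith
  · -- upper bound
    by_cases hj3 : j + 1 < n
    · have h8 : Φ t < ((j + 1 : ℕ) : ℝ) / n := by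
        rw [lt_div_iff₀ hn0]; push_cast; linarith
      have h9 := hlt (j + 1) (by omega) hj3 h8
      have h10 := hGm h9
      have h11 := hnet (j + 1) (by omega) hj3
      rw [abs_le] at h11
      have h12 : ((j + 1 : ℕ) : ℝ) / n ≤ Φ t + 1 / n := by
        rw [div_le_iff₀ hn0]; push_cast
        have : (Φ t + 1 / n) * n = Φ t * n + 1 := by field_simp
        rw [this]; linarith
      linarith [h11.2]
    · have h5 : (n : ℝ) ≤ j + 1 := by exact_mod_cast (by omega : n ≤ j + 1)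
      have h6 : 1 ≤ Φ t + 1 / n := by
        have : (1:ℝ) ≤ (n * Φ t + 1) / n := by
          rw [le_div_iff₀ hn0]; linarith
        have e : (n * Φ t + 1) / n = Φ t + 1 / n := by field_simp
        rw [e] at this
        exact this
      linarith


end Pool.Agent.P4f18dfT
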