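import Pool.Agent.Lib.P4f18dfT.Defs

/-!
# The exceptional primes of the small range

Module TW.Small.  Let `b` be an integer with `b ≥ B + 4`.  `twist_tail k q b` (`Lib/P4f18df/TwTail.lean`) for
each `k ∈ Icc 1 K` gives `c_k > 0`, `A_k`, `N_k` with: for `N ≥ N_k`, `1 ≤ h ≤ N^(1-1/q)`, `N^(A_k) ≤ D`:
`#{p < D : p.Prime, 3N < p, (√h)^k N^(-c_k) < |Dk (tw p) k N h|} ≤ D N^(-b)`.  Take `D = 2 P + 1`,
`c` with `c A_k ≤ 1`, `c ≤ 1/2` (so `N ≤ P^c` gives `N^(A_k) ≤ P ≤ D` and `3 N < P < p`), and `Y₀` so large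
that `N^(-c_k) ≤ 1/K` for `N ≥ Y₀ / 4`, `Y₀ / 4 ≥ max N_k, 2`.  `E` = union over `k ∈ Icc 1 K`,
`N ∈ [Y/4, P^c]`, `1 ≤ h ≤ N` (`h ≤ N^(1-1/q)`) of the bad sets intersected with `PP P`:
`|E| ≤ K (2P+1) ∑_{N ≥ Y/4} N^(1-b) ≤ 3 K P * 4^b * Y^(2-b) * (const) ≤ P Y^(-B) / 2` for `Y ≥ Y₀` large
(`∑_{N ≥ M} N^(1-b) ≤ 2 M^(2-b)` for `b ≥ 4`, `M ≥ 1`: e.g. `N^(1-b) ≤ N^(-2) M^(3-b)` and
`∑_{N ≥ M} N^(-2) ≤ 2/M`).
-/

set_option autoImplicit false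

namespace Pool.Agent.P4f18dfT

open Finset Filter Pool.Agent.P4f18dfQ Pool.Agent.P4f18df

namespace Small

open Classical in
/-- the bad set of one triple -/
noncomputable def badF (K k N h D : ℕ) : Finset ℕ :=
  (range D).filter (fun p => p.Prime ∧ 3 * N < p ∧
    (1 / K : ℝ) * (Real.sqrt h) ^ k < |Dk (tw p) k N h|)

theorem uniform (K q b : ℕ) (hK : 1 ≤ K) (hq : 1 ≤ q) :
    ∃ A : ℕ, ∀ᶠ N : ℕ in atTop, ∀ k ∈ Icc 1 K, ∀ h : ℕ, 1 ≤ h →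
      (h : ℝ) ≤ (N : ℝ) ^ (1 - 1 / q : ℝ) → ∀ D : ℕ, N ^ A ≤ D →
      ((badF K k N h D).card : ℝ) ≤ D * ((N : ℝ) ^ b)⁻¹ := by
  have hK0 : (0:ℝ) < K := by exact_mod_cast hK
  have h1 : ∀ k ∈ Icc 1 K, ∃ A : ℕ, ∀ᶠ N : ℕ in atTop, ∀ h : ℕ, 1 ≤ h →
      (h : ℝ) ≤ (N : ℝ) ^ (1 - 1 / q : ℝ) → ∀ D : ℕ, N ^ A ≤ D →
      ((badF K k N h D).card : ℝ) ≤ D * ((N : ℝ) ^ b)⁻¹ := by
    intro k hk
    obtain ⟨c, hc, A, hA⟩ := twist_tail k q b (mem_Icc.1 hk).1 hq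
    have h2 : ∀ᶠ N : ℕ in atTop, (N : ℝ) ^ (-c) < 1 / K := by
      have h3 := (tendsto_rpow_neg_atTop hc).comp (tendsto_natCast_atTop_atTop (R := ℝ))
      exact h3.eventually (gt_mem_nhds (by positivity))
    refine ⟨A, ?_⟩
    filter_upwards [hA, h2] with N hA h2 h hh1 hh D hD
    refine le_trans ?_ (hA h hh1 hh D hD)
    have h4 : badF K k N h D ⊆ (range D).filter (fun p => p.Prime ∧ 3 * N < p ∧
        (Real.sqrt h) ^ k * (N : ℝ) ^ (-c) < |Dk (tw p) k N h|) := by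
      intro p hp
      unfold badF at hp
      rw [mem_filter] at hp ⊢
      refine ⟨hp.1, hp.2.1, hp.2.2.1, lt_of_le_of_lt ?_ hp.2.2.2⟩
      rw [mul_comm]
      exact mul_le_mul_of_nonneg_right h2.le (by positivity)
    exact_mod_cast card_le_card h4
  choose! A hA using h1
  refine ⟨(Icc 1 K).sup A, ?_⟩
  have h5 := (eventually_all_finset (Icc 1 K)).2 hA
  filter_upwards [h5, eventually_ge_atTop 1] with N hN hN1 k hk h hh1 hh D hD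
  exact hN k hk h hh1 hh D ((Nat.pow_le_pow_right hN1 (le_sup hk)).trans hD)

theorem sum_tail (n M P : ℕ) (hM : 1 ≤ M) :
    ∑ N ∈ Icc M P, (N : ℝ) * ((N : ℝ) ^ (n + 4))⁻¹ ≤ 2 * ((M : ℝ) ^ (n + 1))⁻¹ := by
  have hM0 : (0:ℝ) < M := by exact_mod_cast hM
  have h1 : ∀ N ∈ Icc M P, (N : ℝ) * ((N : ℝ) ^ (n + 4))⁻¹ ≤
      ((N : ℝ) ^ 2)⁻¹ * ((M : ℝ) ^ (n + 1))⁻¹ := by
    intro N hN
    rw [mem_Icc] at hN
    have hN0 : (0:ℝ) < N := lt_of_lt_of_le hM0 (by exact_mod_cast hN.1)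
    have h2 : (N : ℝ) * ((N : ℝ) ^ (n + 4))⁻¹ = ((N : ℝ) ^ 2)⁻¹ * ((N : ℝ) ^ (n + 1))⁻¹ := by
      rw [show n + 4 = 1 + (2 + (n + 1)) by ring, pow_add, pow_add, pow_one]
      field_simp
    rw [h2]
    apply mul_le_mul_of_nonneg_left _ (by positivity)
    apply inv_anti₀ (by positivity)
    exact pow_le_pow_left₀ hM0.le (by exact_mod_cast hN.1) _
  refine (sum_le_sum h1).trans ?_
  rw [← sum_mul]
  apply mul_le_mul_of_nonneg_right _ (by positivity)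
  have h3 : Icc M P = Ioo (M - 1) (P + 1) := by
    ext x
    rw [mem_Icc, mem_Ioo]
    omega
  rw [h3]
  refine (sum_Ioo_inv_sq_le (α := ℝ) (M - 1) (P + 1)).trans ?_
  rw [div_le_iff₀ (by positivity)]
  have : (0:ℝ) ≤ ((M - 1 : ℕ) : ℝ) := by positivity
  linarith

end Small

open Pool.Agent.P4f18dfT.Small

theorem bad_small (K q : ℕ) (hK : 1 ≤ K) (hq : 1 ≤ q) (B : ℝ) (hB : 0 < B) :
    ∃ c : ℝ, 0 < c ∧ c ≤ 1 / 2 ∧ ∃ Y₀ : ℝ, ∃ P₀ : ℕ, ∀ P : ℕ, P₀ ≤ P → ∀ Y : ℝ, Y₀ ≤ Y →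
      ∃ E : Finset ℕ, (E.card : ℝ) ≤ P * Y ^ (-B) / 2 ∧ ∀ p ∈ PP P, p ∉ E →
        ∀ k ∈ Icc 1 K, ∀ N : ℕ, Y / 4 ≤ N → (N : ℝ) ≤ (P : ℝ) ^ c → ∀ h : ℕ, 1 ≤ h →
          (h : ℝ) ≤ (N : ℝ) ^ (1 - 1 / q : ℝ) →
            |Dk (tw p) k N h| ≤ (1 / K : ℝ) * (Real.sqrt h) ^ k := by
  classical
  have hK0 : (0:ℝ) < K := by exact_mod_cast hK
  have hq0 : (0:ℝ) < q := by exact_mod_cast hq
  obtain ⟨n, hn⟩ := exists_nat_ge B
  obtain ⟨A, hA⟩ := uniform K q (n + 4) hK hq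
  obtain ⟨N0, hN0⟩ := eventually_atTop.1 hA
  have hA2 : (0:ℝ) < (A : ℝ) + 2 := by positivity
  refine ⟨1 / ((A : ℝ) + 2), by positivity, ?_,
    4 * N0 + 4 + 12 * K * 4 ^ (n + 1), 9, ?_⟩
  · rw [div_le_div_iff₀ hA2 (by norm_num)]
    have : (0:ℝ) ≤ A := by positivity
    linarith
  intro P hP Y hY
  have hP9 : (9:ℝ) ≤ P := by exact_mod_cast hP
  have hP0 : (0:ℝ) < P := by linarith
  have hP1 : (1:ℝ) ≤ P := by linarith
  have hpos : (0:ℝ) < 12 * K * 4 ^ (n + 1) := by positivity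
  have hN0r : (0:ℝ) ≤ N0 := by positivity
  have hY4 : 4 ≤ Y := by linarith
  have hYN : 4 * (N0:ℝ) ≤ Y := by linarith
  have hYK : 12 * K * 4 ^ (n + 1) ≤ Y := by linarith
  have hY0 : 0 < Y := by linarith
  set M : ℕ := ⌈Y / 4⌉₊ with hM
  have hMY : Y / 4 ≤ M := Nat.le_ceil _
  have hM1r : (1:ℝ) ≤ M := by linarith
  have hM1 : 1 ≤ M := by exact_mod_cast hM1r
  have hMN0 : N0 ≤ M := by
    have : (N0:ℝ) ≤ M := by linarith
    exact_mod_cast this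
  -- consequences of `N ≤ P ^ c`
  have hNP : ∀ N : ℕ, (N : ℝ) ≤ (P : ℝ) ^ (1 / ((A : ℝ) + 2)) →
      N ^ A ≤ 2 * P + 1 ∧ 3 * N ≤ P ∧ N ≤ P := by
    intro N hN
    have h1 : (N : ℝ) ^ A ≤ P := by
      calc (N : ℝ) ^ A ≤ ((P : ℝ) ^ (1 / ((A : ℝ) + 2))) ^ A :=
            pow_le_pow_left₀ (by positivity) hN _
        _ = (P : ℝ) ^ ((A : ℝ) / ((A : ℝ) + 2)) := by
            rw [← Real.rpow_natCast, ← Real.rpow_mul hP0.le]
            congr 1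
            field_simp
        _ ≤ (P : ℝ) ^ (1 : ℝ) := by
            apply Real.rpow_le_rpow_of_exponent_le hP1
            rw [div_le_one hA2]
            linarith
        _ = P := Real.rpow_one _
    have h2 : (N : ℝ) ≤ Real.sqrt P := by
      refine hN.trans ?_
      rw [Real.sqrt_eq_rpow]
      apply Real.rpow_le_rpow_of_exponent_le hP1
      rw [div_le_div_iff₀ hA2 (by norm_num)]
      have : (0:ℝ) ≤ A := by positivity
      linarith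
    have h3 : 3 ≤ Real.sqrt P := Real.le_sqrt_of_sq_le (by norm_num; linarith)
    have h4 : (3:ℝ) * N ≤ P := by
      calc (3:ℝ) * N ≤ Real.sqrt P * Real.sqrt P :=
            mul_le_mul h3 h2 (by positivity) (by positivity)
        _ = P := Real.mul_self_sqrt hP0.le
    have h5 : N ^ A ≤ P := by exact_mod_cast h1
    have h6 : 3 * N ≤ P := by exact_mod_cast h4
    exact ⟨by omega, h6, by omega⟩
  have hhN : ∀ N h : ℕ, 1 ≤ N → (h : ℝ) ≤ (N : ℝ) ^ (1 - 1 / q : ℝ) → h ≤ N := by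
    intro N h hN hh
    have hN1 : (1:ℝ) ≤ N := by exact_mod_cast hN
    have : (h : ℝ) ≤ N := by
      calc (h : ℝ) ≤ (N : ℝ) ^ (1 - 1 / q : ℝ) := hh
        _ ≤ (N : ℝ) ^ (1 : ℝ) := by
            apply Real.rpow_le_rpow_of_exponent_le hN1
            have : (0:ℝ) < 1 / q := by positivity
            linarith
        _ = N := Real.rpow_one _
    exact_mod_cast this
  let T : Finset (ℕ × ℕ × ℕ) := ((Icc 1 K) ×ˢ ((Icc M P) ×ˢ (Icc 1 P))).filter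
    (fun t => (t.2.1 : ℝ) ≤ (P : ℝ) ^ (1 / ((A : ℝ) + 2)) ∧
      (t.2.2 : ℝ) ≤ (t.2.1 : ℝ) ^ (1 - 1 / q : ℝ))
  refine ⟨T.biUnion fun t => badF K t.1 t.2.1 t.2.2 (2 * P + 1), ?_, ?_⟩
  · have h1 : ((T.biUnion fun t => badF K t.1 t.2.1 t.2.2 (2 * P + 1)).card : ℝ) ≤
        ∑ t ∈ T, ((badF K t.1 t.2.1 t.2.2 (2 * P + 1)).card : ℝ) := by
      exact_mod_cast card_biUnion_le
    have h2 : ∀ t ∈ T, ((badF K t.1 t.2.1 t.2.2 (2 * P + 1)).card : ℝ) ≤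
        ((2 * P + 1 : ℕ) : ℝ) * ((t.2.1 : ℝ) ^ (n + 4))⁻¹ := by
      intro t ht
      rw [mem_filter, mem_product, mem_product] at ht
      obtain ⟨⟨hk, hN, hh⟩, hN2, hh2⟩ := ht
      rw [mem_Icc] at hN hh
      exact hN0 t.2.1 (hMN0.trans hN.1) t.1 hk t.2.2 hh.1 hh2 (2 * P + 1) (hNP _ hN2).1
    have h3 : T ⊆ (Icc 1 K) ×ˢ ((Icc M P).sigma (fun N => Icc 1 N)).image
        (fun x => (x.1, x.2)) := by
      intro t ht
      rw [mem_filter, mem_product, mem_product] at ht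
      obtain ⟨⟨hk, hN, hh⟩, hN2, hh2⟩ := ht
      rw [mem_product]
      refine ⟨hk, mem_image.2 ⟨⟨t.2.1, t.2.2⟩, ?_, rfl⟩⟩
      rw [mem_sigma]
      refine ⟨hN, ?_⟩
      rw [mem_Icc] at hN hh ⊢
      exact ⟨hh.1, hhN _ _ (hM1.trans hN.1) hh2⟩
    have h4 : ∑ t ∈ T, ((2 * P + 1 : ℕ) : ℝ) * ((t.2.1 : ℝ) ^ (n + 4))⁻¹ ≤
        K * (((2 * P + 1 : ℕ) : ℝ) * ∑ N ∈ Icc M P, (N : ℝ) * ((N : ℝ) ^ (n + 4))⁻¹) := by
      refine (sum_le_sum_of_subset_of_nonneg h3 (fun _ _ _ => by positivity)).trans ?_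
      rw [sum_product]
      simp only
      rw [sum_const, Nat.card_Icc, Nat.add_sub_cancel, nsmul_eq_mul]
      apply mul_le_mul_of_nonneg_left _ hK0.le
      rw [sum_image (fun a _ b _ hab => by
        rw [Prod.mk.injEq] at hab
        exact Sigma.ext hab.1 (heq_of_eq hab.2)), sum_sigma, mul_sum]
      apply le_of_eq
      refine sum_congr rfl fun N _ => ?_
      simp only
      rw [sum_const, Nat.card_Icc, Nat.add_sub_cancel, nsmul_eq_mul]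
      ring
    have h5 := sum_tail n M P hM1
    have h6 : ((M : ℝ) ^ (n + 1))⁻¹ ≤ 4 ^ (n + 1) * (Y ^ (n + 1))⁻¹ := by
      have h7 : (Y / 4) ^ (n + 1) ≤ (M : ℝ) ^ (n + 1) :=
        pow_le_pow_left₀ (by positivity) hMY _
      have h8 : 4 ^ (n + 1) * (Y ^ (n + 1))⁻¹ = ((Y / 4) ^ (n + 1))⁻¹ := by
        rw [div_pow, inv_div]
        rfl
      rw [h8]
      exact inv_anti₀ (by positivity) h7
    have h9 : (Y ^ (n + 1))⁻¹ ≤ Y ^ (-B) * Y⁻¹ := by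
      have h10 : (Y ^ (n + 1))⁻¹ = Y ^ (-(n : ℝ)) * Y⁻¹ := by
        rw [pow_succ, mul_inv, Real.rpow_neg hY0.le, Real.rpow_natCast]
      rw [h10]
      apply mul_le_mul_of_nonneg_right _ (by positivity)
      apply Real.rpow_le_rpow_of_exponent_le (by linarith)
      linarith
    have h11 : ((2 * P + 1 : ℕ) : ℝ) ≤ 3 * P := by
      push_cast
      linarith
    have hYB : 0 < Y ^ (-B) := Real.rpow_pos_of_pos hY0 _
    calc ((T.biUnion fun t => badF K t.1 t.2.1 t.2.2 (2 * P + 1)).card : ℝ)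
        ≤ K * (((2 * P + 1 : ℕ) : ℝ) * ∑ N ∈ Icc M P, (N : ℝ) * ((N : ℝ) ^ (n + 4))⁻¹) :=
          h1.trans ((sum_le_sum h2).trans h4)
      _ ≤ K * ((3 * P) * (2 * (4 ^ (n + 1) * (Y ^ (-B) * Y⁻¹)))) := by
          apply mul_le_mul_of_nonneg_left _ hK0.le
          apply mul_le_mul h11 _ (sum_nonneg fun _ _ => by positivity) (by positivity)
          refine h5.trans ?_
          apply mul_le_mul_of_nonneg_left _ (by norm_num)
          refine h6.trans ?_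
          exact mul_le_mul_of_nonneg_left h9 (by positivity)
      _ = (P * Y ^ (-B) / 2) * ((12 * K * 4 ^ (n + 1)) * Y⁻¹) := by ring
      _ ≤ (P * Y ^ (-B) / 2) * 1 := by
          apply mul_le_mul_of_nonneg_left _ (by positivity)
          rw [← div_eq_mul_inv, div_le_one hY0]
          exact hYK
      _ = P * Y ^ (-B) / 2 := mul_one _
  · intro p hp hpE k hk N hYN' hNc h hh1 hh
    by_contra hcon
    push Not at hcon
    apply hpE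
    have hp' := hp
    unfold PP at hp'
    rw [mem_filter, mem_Ioc] at hp'
    have hMN : M ≤ N := Nat.ceil_le.2 hYN'
    obtain ⟨h1, h2, h3⟩ := hNP N hNc
    have h4 := hhN N h (hM1.trans hMN) hh
    rw [mem_biUnion]
    refine ⟨(k, N, h), ?_, ?_⟩
    · rw [mem_filter, mem_product, mem_product, mem_Icc, mem_Icc, mem_Icc]
      exact ⟨⟨mem_Icc.1 hk, ⟨hMN, h3⟩, hh1, h4.trans h3⟩, hNc, hh⟩
    · unfold badF
      rw [mem_filter, mem_range]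
      exact ⟨by omega, hp'.2, (by omega : 3 * N < p), hcon⟩

end Pool.Agent.P4f18dfT
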