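import Pool.Agent.Lib.P4f18dfT.Defs
import Pool.Agent.Lib.P4f18dfQ.Swap

/-!
# Replacing `fm` by `fq`, for all `X`

Module TW.Swap2.  `fm p` and `fq p` differ only at multiples of `p`.  As in `Lib/P4f18dfQ/Swap.lean`
(`Swap.Zs p X H`, `Swap.card_Sp`): the set of `x ∈ [X, 2X]` for which some `n` with `|n - x| < H/2` is a
multiple of `p` has measure at most `9 X H / p`: if it is nonempty then `p ≤ 2 X + H/2 ≤ 3 X`, the
number of multiples `n > 0` of `p` with `X - H/2 < n < 2X + H/2` is at most `(X + H)/p + 1 ≤ 2X/p + 3X/p`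
(`Swap.card_Sp`, `H ≤ X`), each gives an interval of length `H` (`n = 0` is possible only if
`X < H/2`, excluded by `H ≤ X`).  Outside this set `Ms (fm p) x H = Ms (fq p) x H`; inside,
`|Ms| ≤ H + 1 ≤ 2H`, so the `k`-th powers of the normalised sums, `√(H/ζ(2)) ≥ √H / 2`, are at most
`(4 √H)^k ≤ 4^k H^k` and differ by at most `2 * 4^k H^k` (`H ≥ 1`).
-/

set_option autoImplicit false

namespace Pool.Agent.P4f18dfT

open Finset Filter MeasureTheory ProbabilityTheory Pool.Agent.P4f18dfQ Pool.Agent.P4f18df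

namespace Swap2

lemma card_Sp_le {p : ℕ} (hp : p.Prime) {X H : ℝ} (hH : 1 ≤ H) (hHX : H ≤ X) :
    ((Swap.Sp p X H).card : ℝ) ≤ 9 * X / p := by
  classical
  have hp0 : (0:ℝ) < p := by exact_mod_cast hp.pos
  have hX0 : 0 ≤ X := by linarith
  rcases (Swap.Sp p X H).eq_empty_or_nonempty with h0 | ⟨n, hn⟩
  · rw [h0, Finset.card_empty, Nat.cast_zero]
    positivity
  · obtain ⟨h1, h2, h3⟩ := (Finset.mem_filter.1 hn).2
    have hn0 : (0:ℝ) < n := by linarith
    have hn1 : 0 < n := by exact_mod_cast hn0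
    have hpn : (p : ℝ) ≤ n := by exact_mod_cast Nat.le_of_dvd hn1 h1
    have h4 := Swap.card_Sp hp hX0 (show 0 ≤ H by linarith)
    have h5 : (X + H) / p + 1 ≤ 9 * X / p := by
      rw [div_add_one hp0.ne']
      apply div_le_div_of_nonneg_right _ hp0.le
      linarith
    linarith

lemma volume_le {p : ℕ} (hp : p.Prime) {X H : ℝ} (hH : 1 ≤ H) (hHX : H ≤ X) :
    volume (Swap.Zs p X H) ≤ ENNReal.ofReal (9 * X * H / p) := by
  have hp0 : (0:ℝ) < p := by exact_mod_cast hp.pos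
  refine le_trans (measure_biUnion_finset_le _ _) ?_
  have h1 : ∀ n ∈ Swap.Sp p X H, volume (Set.Ioo ((n : ℝ) - H / 2) (n + H / 2)) =
      ENNReal.ofReal H := by
    intro n _
    rw [Real.volume_Ioo]
    congr 1; ring
  rw [Finset.sum_congr rfl h1, Finset.sum_const, nsmul_eq_mul]
  have h2 : ((Swap.Sp p X H).card : ENNReal) = ENNReal.ofReal ((Swap.Sp p X H).card : ℝ) := by
    rw [ENNReal.ofReal_natCast]
  rw [h2, ← ENNReal.ofReal_mul (by positivity)]
  apply ENNReal.ofReal_le_ofReal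
  calc ((Swap.Sp p X H).card : ℝ) * H ≤ (9 * X / p) * H :=
        mul_le_mul_of_nonneg_right (card_Sp_le hp hH hHX) (by linarith)
    _ = 9 * X * H / p := by ring

lemma volume_toReal {p : ℕ} (hp : p.Prime) {X H : ℝ} (hH : 1 ≤ H) (hHX : H ≤ X) :
    (volume (Swap.Zs p X H)).toReal ≤ 9 * X * H / p := by
  have hp0 : (0:ℝ) < p := by exact_mod_cast hp.pos
  have hX0 : 0 ≤ X := by linarith
  have hH0 : 0 ≤ H := by linarith
  apply ENNReal.toReal_le_of_le_ofReal (by positivity)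
  exact volume_le hp hH hHX

lemma volume_ne_top {p : ℕ} (hp : p.Prime) {X H : ℝ} (hH : 1 ≤ H) (hHX : H ≤ X) :
    volume (Swap.Zs p X H) ≠ ⊤ :=
  ne_top_of_le_ne_top ENNReal.ofReal_ne_top (volume_le hp hH hHX)

lemma sig_ge {H : ℝ} (hH : 1 ≤ H) : Real.sqrt H / 2 ≤ Real.sqrt (H / (Real.pi ^ 2 / 6)) := by
  apply Real.le_sqrt_of_sq_le
  rw [div_pow, Real.sq_sqrt (by linarith)]
  have h1 := Real.pi_pos
  have h2 := Real.pi_le_four
  have h3 : Real.pi ^ 2 / 6 ≤ 2 ^ 2 := by nlinarith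
  apply div_le_div_of_nonneg_left (by linarith) (by positivity) h3

lemma abs_le {f : ℕ → ℝ} (hf : ∀ n, |f n| ≤ 1) (x : ℝ) {H : ℝ} (hH : 1 ≤ H) :
    |Ms f x H / Real.sqrt (H / (Real.pi ^ 2 / 6))| ≤ 4 * H := by
  have h1 := Swap.abs_Ms_le hf x (show 0 ≤ H by linarith)
  have h2 := sig_ge hH
  have h3 : 1 ≤ Real.sqrt H := by
    rw [Real.one_le_sqrt]; exact hH
  have h4 : 0 < Real.sqrt (H / (Real.pi ^ 2 / 6)) := by linarith
  rw [abs_div, abs_of_pos h4, div_le_iff₀ h4]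
  nlinarith

lemma intble {f : ℕ → ℝ} (hf : ∀ n, |f n| ≤ 1) (k : ℕ) {X H : ℝ} (hX : 0 ≤ X) (hH : 1 ≤ H) :
    IntervalIntegrable (fun x : ℝ => (Ms f x H / Real.sqrt (H / (Real.pi ^ 2 / 6))) ^ k)
      volume X (2 * X) := by
  have hsig : 0 < sig H := by
    unfold sig; apply Real.sqrt_pos.2; have := Real.pi_pos; positivity
  have h1 : IntervalIntegrable (fun x : ℝ => (Zm f X H x) ^ k) volume X (2 * X) := by
    apply intervalIntegrable_of_bdd_real ((measurable_Zm f X H).pow_const k)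
      ((((⌊2 * X + H⌋₊ + 1 : ℕ) : ℝ) / sig H) ^ k)
    intro x
    rw [abs_pow]
    apply pow_le_pow_left₀ (abs_nonneg _)
    unfold Zm
    rw [abs_div, abs_of_pos hsig]
    apply div_le_div_of_nonneg_right _ hsig.le
    refine le_trans (Finset.abs_sum_le_sum_abs _ _) ?_
    calc ∑ n ∈ Finset.range (⌊2 * X + H⌋₊ + 1), |if |(n : ℝ) - x| < H / 2 then f n else 0|
        ≤ ∑ n ∈ Finset.range (⌊2 * X + H⌋₊ + 1), (1:ℝ) := by
          apply Finset.sum_le_sum
          intro n _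
          split_ifs
          · exact hf n
          · simp
      _ = _ := by simp
  refine h1.congr ?_
  intro x hx
  have hx' := Set.uIoc_subset_uIcc hx
  rw [Set.uIcc_of_le (by linarith)] at hx'
  show (Zm f X H x) ^ k = (Ms f x H / Real.sqrt (H / (Real.pi ^ 2 / 6))) ^ k
  rw [Zm_eq (by linarith) hx'.2]
  rfl

end Swap2

open Swap2 in
theorem law_swap {p : ℕ} (hp : p.Prime) {X H : ℝ} (hH : 1 ≤ H) (hHX : H ≤ X) (t : ℝ) :
    |Gd (fm p) X H t - Gd (fq p) X H t| ≤ 9 * H / p := by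
  have hH0 : 0 ≤ H := by linarith
  have hX0 : 0 < X := by linarith
  have hp0 : (0:ℝ) < p := by exact_mod_cast hp.pos
  set σ := Real.sqrt (H / (Real.pi ^ 2 / 6)) with hσ
  have key : ∀ f g : ℕ → ℝ, (∀ x ∈ Set.Icc X (2 * X), x ∉ Swap.Zs p X H →
      Ms f x H = Ms g x H) →
      (volume {x : ℝ | x ∈ Set.Icc X (2 * X) ∧ Ms f x H / σ ≤ t}).toReal -
        (volume {x : ℝ | x ∈ Set.Icc X (2 * X) ∧ Ms g x H / σ ≤ t}).toReal ≤
        9 * X * H / p := by
    intro f g hfg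
    have h1 : {x : ℝ | x ∈ Set.Icc X (2 * X) ∧ Ms f x H / σ ≤ t} ⊆
        {x : ℝ | x ∈ Set.Icc X (2 * X) ∧ Ms g x H / σ ≤ t} ∪ Swap.Zs p X H := by
      intro x hx
      by_cases hz : x ∈ Swap.Zs p X H
      · exact Or.inr hz
      · left
        refine ⟨hx.1, ?_⟩
        rw [← hfg x hx.1 hz]; exact hx.2
    have h2 := le_trans (measure_mono (μ := volume) h1) (measure_union_le _ _)
    have hg : volume {x : ℝ | x ∈ Set.Icc X (2 * X) ∧ Ms g x H / σ ≤ t} ≠ ⊤ :=
      Swap.volume_Icc_ne_top X (fun x hx => hx.1)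
    have hz := volume_ne_top hp hH hHX
    have h3 := ENNReal.toReal_mono (ENNReal.add_ne_top.2 ⟨hg, hz⟩) h2
    rw [ENNReal.toReal_add hg hz] at h3
    have h4 := volume_toReal hp hH hHX
    linarith
  have h5 : 9 * X * H / p / X = 9 * H / p := by
    field_simp
  unfold Gd
  rw [← hσ, ← sub_div, abs_div, abs_of_pos hX0, ← h5]
  apply div_le_div_of_nonneg_right _ hX0.le
  rw [_root_.abs_le]
  constructor
  · have := key (fq p) (fm p) (fun x hx hz => (Swap.eq_off_Zs hH0 hx hz).symm)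
    linarith
  · exact key (fm p) (fq p) (fun x hx hz => Swap.eq_off_Zs hH0 hx hz)

open Swap2 in
theorem mom_swap {p : ℕ} (hp : p.Prime) {X H : ℝ} (hH : 1 ≤ H) (hHX : H ≤ X) (k : ℕ) :
    |Md (fm p) k X H - Md (fq p) k X H| ≤ 18 * 4 ^ k * H ^ (k + 1) / p := by
  have hH0 : 0 ≤ H := by linarith
  have hX0 : 0 < X := by linarith
  have hp0 : (0:ℝ) < p := by exact_mod_cast hp.pos
  have i1 := intble (f := fm p) (abs_fm_le p) k hX0.le hH
  have i2 := intble (f := fq p) (abs_fq_le p) k hX0.le hH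
  have h5 : 18 * 4 ^ k * H ^ (k + 1) * X / p / X = 18 * 4 ^ k * H ^ (k + 1) / p := by
    field_simp
  unfold Md
  rw [← sub_div, abs_div, abs_of_pos hX0, ← h5]
  apply div_le_div_of_nonneg_right _ hX0.le
  rw [← intervalIntegral.integral_sub i1 i2, intervalIntegral.integral_of_le (by linarith)]
  have hsub : Set.Ioc X (2 * X) ∩ Swap.Zs p X H ⊆ Set.Ioc X (2 * X) := Set.inter_subset_left
  rw [setIntegral_eq_of_subset_of_forall_sdiff_eq_zero measurableSet_Ioc hsub]
  · have hfin : volume (Set.Ioc X (2 * X) ∩ Swap.Zs p X H) < ⊤ :=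
      lt_of_le_of_lt (measure_mono Set.inter_subset_right)
        (lt_top_iff_ne_top.2 (volume_ne_top hp hH hHX))
    have hb : ∀ x ∈ Set.Ioc X (2 * X) ∩ Swap.Zs p X H,
        ‖(Ms (fm p) x H / Real.sqrt (H / (Real.pi ^ 2 / 6))) ^ k -
          (Ms (fq p) x H / Real.sqrt (H / (Real.pi ^ 2 / 6))) ^ k‖ ≤ 2 * (4 * H) ^ k := by
      intro x _
      have h2 := Swap2.abs_le (f := fm p) (abs_fm_le p) x hH
      have h3 := Swap2.abs_le (f := fq p) (abs_fq_le p) x hH
      have h4 := pow_le_pow_left₀ (abs_nonneg _) h2 k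
      have h6 := pow_le_pow_left₀ (abs_nonneg _) h3 k
      rw [← abs_pow] at h4 h6
      rw [Real.norm_eq_abs]
      have h7 := abs_sub ((Ms (fm p) x H / Real.sqrt (H / (Real.pi ^ 2 / 6))) ^ k)
        ((Ms (fq p) x H / Real.sqrt (H / (Real.pi ^ 2 / 6))) ^ k)
      linarith
    have h1 := norm_setIntegral_le_of_norm_le_const hfin hb
    rw [Real.norm_eq_abs] at h1
    refine le_trans h1 ?_
    have h2 : volume.real (Set.Ioc X (2 * X) ∩ Swap.Zs p X H) ≤ 9 * X * H / p := by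
      refine le_trans ?_ (volume_toReal hp hH hHX)
      exact ENNReal.toReal_mono (volume_ne_top hp hH hHX)
        (measure_mono Set.inter_subset_right)
    calc 2 * (4 * H) ^ k * volume.real (Set.Ioc X (2 * X) ∩ Swap.Zs p X H) ≤
          2 * (4 * H) ^ k * (9 * X * H / p) :=
          mul_le_mul_of_nonneg_left h2 (by positivity)
      _ = 18 * 4 ^ k * H ^ (k + 1) * X / p := by
          rw [mul_pow, pow_succ]
          ring
  · intro x hx
    have hx1 : x ∈ Set.Ioc X (2 * X) := hx.1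
    have hx2 : x ∉ Swap.Zs p X H := fun h => hx.2 ⟨hx1, h⟩
    rw [Swap.eq_off_Zs hH0 ⟨hx1.1.le, hx1.2⟩ hx2, sub_self]

/-- the discrete moments for small `N` -/
theorem Dk_swap {p : ℕ} (k N h : ℕ) (hh : h ≤ N) (hN : 3 * N < p) :
    Dk (tw p) k N h = Dk (fq p) k N h := by
  unfold Dk
  congr 1
  apply Finset.sum_congr rfl
  intro a ha
  rw [Finset.mem_Ioc] at ha
  have : Wd (tw p) h a = Wd (fq p) h a := by
    unfold Wd
    apply Finset.sum_congr rfl
    intro n hn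
    rw [Finset.mem_Ioc] at hn
    have hpn : ¬ p ∣ n := by
      intro h1
      have := Nat.le_of_dvd (by omega) h1
      omega
    unfold tw fq lg
    rw [if_neg hpn]
  rw [this]

end Pool.Agent.P4f18dfT
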