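import Pool.Agent.Lib.P4f18dfT.NetMid
import Pool.Agent.Lib.P4f18dfT.Small
import Pool.Agent.Lib.P4f18dfT.Quant2
import Pool.Agent.Lib.P4f18dfT.QMom
import Pool.Agent.Lib.P4f18dfT.Swap2

/-!
# Assembly
-/

set_option autoImplicit false

namespace Pool.Agent.P4f18dfT

open Finset Filter MeasureTheory ProbabilityTheory Pool.Agent.P4f18df Pool.Agent.P4f18dfQ

/-- law and moments together, at fixed accuracy -/
theorem quant_both (ε δ : ℝ) (hε : 0 < ε) (hε1 : ε < 1) (hδ : 0 < δ) (L : ℕ) : ∃ K : ℕ, 1 ≤ K ∧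
    ∀ f : ℕ → ℝ, SgnFun f → ∀ X H : ℝ, 0 < X → (K : ℝ) ≤ H → H ≤ X ^ (1 - ε) →
    (∀ k ∈ Icc 1 K, |Dk f k ⌊X⌋₊ ⌊H⌋₊| ≤ (1 / K : ℝ) * (Real.sqrt ⌊H⌋₊) ^ k) →
    (∀ k ∈ Icc 1 K,
      |Dk f k ((⌊X⌋₊ + 1) / 2) ⌊H⌋₊| ≤ (1 / K : ℝ) * (Real.sqrt ⌊H⌋₊) ^ k) →
      (∀ t, |Gd f X H t - cdf (gaussianReal 0 1) t| ≤ δ) ∧ (∀ k ≤ L, |Md f k X H - gm k| ≤ δ) := by
  obtain ⟨K₁, hK₁, h1⟩ := quant2 ε δ hε hε1 hδ
  obtain ⟨K₂, hK₂, h2⟩ := quant_mom ε δ hε hε1 hδ L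
  refine ⟨K₁ + K₂, by omega, ?_⟩
  intro f hf X H hX hKH hHX hD hD'
  have r1 : (K₁ : ℝ) ≥ 1 := by exact_mod_cast hK₁
  have r2 : (K₂ : ℝ) ≥ 1 := by exact_mod_cast hK₂
  push_cast at hKH
  have e1 : (1 / ((K₁ + K₂ : ℕ) : ℝ)) ≤ 1 / K₁ := by
    push_cast; exact one_div_le_one_div_of_le (by linarith) (by linarith)
  have e2 : (1 / ((K₁ + K₂ : ℕ) : ℝ)) ≤ 1 / K₂ := by
    push_cast; exact one_div_le_one_div_of_le (by linarith) (by linarith)
  constructor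
  · refine h1 f hf X H hX (by linarith) hHX (fun k hk => ?_)
    rw [mem_Icc] at hk
    exact (hD k (mem_Icc.2 ⟨hk.1, by omega⟩)).trans
      (mul_le_mul_of_nonneg_right e1 (by positivity))
  · refine h2 f hf X H hX (by linarith) hHX (fun k hk => ?_) (fun k hk => ?_)
    · rw [mem_Icc] at hk
      exact (hD k (mem_Icc.2 ⟨hk.1, by omega⟩)).trans
        (mul_le_mul_of_nonneg_right e2 (by positivity))
    · rw [mem_Icc] at hk
      exact (hD' k (mem_Icc.2 ⟨hk.1, by omega⟩)).trans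
        (mul_le_mul_of_nonneg_right e2 (by positivity))

theorem ev_rpow_le (c C : ℝ) (hc : 0 < c) : ∀ᶠ P : ℕ in atTop, C ≤ (P : ℝ) ^ c :=
  ((tendsto_rpow_atTop hc).comp tendsto_natCast_atTop_atTop).eventually_ge_atTop _

theorem ev_len (ε : ℝ) (q : ℕ) (hε : 0 < ε) (hq0 : 0 < q) (hqε : (1 / q : ℝ) ≤ ε / 2) :
    ∀ᶠ X : ℝ in atTop, X ^ (1 - ε) ≤ (X / 4) ^ (1 - 1 / q : ℝ) := by
  have d1 : ∀ᶠ X : ℝ in atTop, (4:ℝ) ≤ X ^ (ε / 2) :=
    (tendsto_rpow_atTop (by positivity)).eventually_ge_atTop 4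
  filter_upwards [d1, eventually_ge_atTop 2] with X hX1 hX2
  have hX0 : (0:ℝ) < X := by linarith
  have hexp : 0 ≤ (1 - 1 / q : ℝ) := by
    have : (1 / q : ℝ) ≤ 1 := by
      rw [div_le_one (by exact_mod_cast hq0)]; exact_mod_cast hq0
    linarith
  have hq1 : 0 ≤ (1 / q : ℝ) := by positivity
  calc X ^ (1 - ε) ≤ X ^ ((1 - 1 / q : ℝ) - ε / 2) := by
        apply Real.rpow_le_rpow_of_exponent_le (by linarith)
        linarith
    _ = X ^ (1 - 1 / q : ℝ) / X ^ (ε / 2) := by rw [Real.rpow_sub hX0]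
    _ ≤ X ^ (1 - 1 / q : ℝ) / 4 := by
        apply div_le_div_of_nonneg_left (by positivity) (by norm_num) hX1
    _ ≤ X ^ (1 - 1 / q : ℝ) / 4 ^ (1 - 1 / q : ℝ) := by
        apply div_le_div_of_nonneg_left (by positivity) (by positivity)
        calc (4:ℝ) ^ (1 - 1 / q : ℝ) ≤ 4 ^ (1:ℝ) := by
              apply Real.rpow_le_rpow_of_exponent_le (by norm_num); linarith
          _ = 4 := Real.rpow_one 4
    _ = (X / 4) ^ (1 - 1 / q : ℝ) := by rw [Real.div_rpow hX0.le (by norm_num)]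

/-- the final statement in terms of `Gd`, `Md` and `fm` -/
theorem main (κ ε δ B : ℝ) (L : ℕ) (hκ : 0 < κ) (hε : 0 < ε) (hδ : 0 < δ) (hB : 0 < B) :
    ∃ c H₀ : ℝ, ∃ P₀ : ℕ, 0 < c ∧ ∀ P : ℕ, P₀ ≤ P → ∀ Y : ℝ, (Real.log P) ^ κ ≤ Y →
      Y ≤ (P : ℝ) ^ c →
      ∃ E : Finset ℕ, (E.card : ℝ) ≤ P * Y ^ (-B) ∧
        ∀ p : ℕ, p.Prime → P < p → p ≤ 2 * P → p ∉ E →
          ∀ X H : ℝ, Y ≤ X → X ≤ Real.exp ((P : ℝ) ^ c) → H₀ ≤ H →
            (H ≤ (min X P) ^ c ∨ (X ≤ (P : ℝ) ^ c ∧ H ≤ X ^ (1 - ε))) →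
            (∀ t, |Gd (fm p) X H t - cdf (gaussianReal 0 1) t| ≤ δ) ∧
              (∀ k ≤ L, |Md (fm p) k X H - gm k| ≤ δ) := by
  classical
  set ε' : ℝ := min ε (1 / 2) with hε'
  have hε'0 : 0 < ε' := lt_min hε (by norm_num)
  have hε'1 : ε' ≤ 1 / 2 := min_le_right _ _
  have hε'2 : ε' ≤ ε := min_le_left _ _
  obtain ⟨K, hK1, hK⟩ := quant_both ε' (δ / 2) hε'0 (by linarith) (by positivity) L
  obtain ⟨q, hq⟩ := exists_nat_gt (2 / ε')
  have hq0 : 0 < q := by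
    have : (0:ℝ) < q := lt_trans (by positivity) hq
    exact_mod_cast this
  have hqε : (1 / q : ℝ) ≤ ε' / 2 := by
    rw [div_lt_iff₀ hε'0] at hq
    rw [div_le_iff₀ (by exact_mod_cast hq0)]
    linarith
  obtain ⟨cs, hcs, hcs2, Y₀, P₁, hS⟩ := bad_small K q hK1 hq0 B hB
  obtain ⟨c₀, hc₀, hN⟩ := bad_net K hK1 (cs / 2) (by positivity)
  set c : ℝ := min (min cs c₀) (min (min (c₀ / (2 * B)) (1 / 4)) (1 / (2 * (L + 2)))) with hc
  have hc0 : 0 < c := by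
    rw [hc]; positivity
  have hc1 : c ≤ cs := (min_le_left _ _).trans (min_le_left _ _)
  have hc2 : c ≤ c₀ := (min_le_left _ _).trans (min_le_right _ _)
  have hc3 : c ≤ c₀ / (2 * B) := (min_le_right _ _).trans ((min_le_left _ _).trans (min_le_left _ _))
  have hc4 : c ≤ 1 / 4 := (min_le_right _ _).trans ((min_le_left _ _).trans (min_le_right _ _))
  have hc5 : c ≤ 1 / (2 * (L + 2)) := (min_le_right _ _).trans (min_le_right _ _)
  have hcB : c * B ≤ c₀ / 2 := by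
    have := (le_div_iff₀ (by positivity)).1 hc3
    linarith
  have hcL : c * (L + 2) ≤ 1 / 2 := by
    have := (le_div_iff₀ (by positivity)).1 hc5
    linarith
  obtain ⟨P₂, hN2⟩ := hN c hc0 hc2
  obtain ⟨X₁, hX₁⟩ := eventually_atTop.1 (ev_len ε' q hε'0 hq0 hqε)
  have hlogt : Tendsto (fun P : ℕ => (Real.log P) ^ κ) atTop atTop :=
    (tendsto_rpow_atTop hκ).comp (Real.tendsto_log_atTop.comp tendsto_natCast_atTop_atTop)
  obtain ⟨P₃, hP₃⟩ := eventually_atTop.1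
    ((((hlogt.eventually_ge_atTop Y₀).and (hlogt.eventually_ge_atTop X₁)).and
      ((hlogt.eventually_ge_atTop 4).and (ev_rpow_le (c₀ / 2) 2 (by positivity)))).and
      (((ev_rpow_le (cs / 2) 4 (by positivity)).and (ev_rpow_le (1 / 2) 4 (by norm_num))).and
      ((ev_rpow_le (1 / 2) (18 * 4 ^ L / (δ / 2)) (by norm_num)).and
        (eventually_ge_atTop (max P₁ (max P₂ 4))))))
  refine ⟨c, max K 1, P₃, hc0, ?_⟩
  intro P hP Y hY1 hY2
  obtain ⟨⟨⟨g1, g2⟩, g3, g4⟩, ⟨g5, g6⟩, g7, g8⟩ := hP₃ P hP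
  have hP1' : P₁ ≤ P := (le_max_left _ _).trans g8
  have hP2' : P₂ ≤ P := ((le_max_left _ _).trans (le_max_right _ _)).trans g8
  have hP4 : 4 ≤ P := ((le_max_right _ _).trans (le_max_right _ _)).trans g8
  have hPr : (4:ℝ) ≤ P := by exact_mod_cast hP4
  have hP0 : (0:ℝ) < P := by linarith
  have hP1 : (1:ℝ) ≤ P := by linarith
  have hY4 : 4 ≤ Y := g3.trans hY1
  have hY0 : 0 < Y := by linarith
  obtain ⟨E₁, hE₁, hE₁'⟩ := hS P hP1' Y (g1.trans hY1)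
  obtain ⟨E₂, hE₂, hE₂'⟩ := hN2 P hP2'
  refine ⟨E₁ ∪ E₂, ?_, ?_⟩
  · have h1 : ((E₁ ∪ E₂).card : ℝ) ≤ (E₁.card : ℝ) + E₂.card := by
      exact_mod_cast Finset.card_union_le _ _
    have h2 : (P : ℝ) ^ (1 - c₀) ≤ P * Y ^ (-B) / 2 := by
      have e1 : Y ^ B ≤ (P : ℝ) ^ (c₀ / 2) := by
        calc Y ^ B ≤ ((P : ℝ) ^ c) ^ B := Real.rpow_le_rpow hY0.le hY2 hB.le
          _ = (P : ℝ) ^ (c * B) := by rw [← Real.rpow_mul hP0.le]
          _ ≤ (P : ℝ) ^ (c₀ / 2) := Real.rpow_le_rpow_of_exponent_le hP1 hcB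
      have e2 : (P : ℝ) ^ (1 - c₀) * ((P : ℝ) ^ (c₀ / 2) * (P : ℝ) ^ (c₀ / 2)) = P := by
        rw [← Real.rpow_add hP0, ← Real.rpow_add hP0]
        ring_nf
        exact Real.rpow_one _
      have e3 : 0 < (P : ℝ) ^ (1 - c₀) := Real.rpow_pos_of_pos hP0 _
      have e4 : 0 < Y ^ B := Real.rpow_pos_of_pos hY0 _
      rw [Real.rpow_neg hY0.le, ← div_eq_mul_inv, div_div, le_div_iff₀ (by positivity)]
      calc (P : ℝ) ^ (1 - c₀) * (Y ^ B * 2)
          ≤ (P : ℝ) ^ (1 - c₀) * ((P : ℝ) ^ (c₀ / 2) * (P : ℝ) ^ (c₀ / 2)) := by gcongr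
        _ = P := e2
    linarith
  intro p hp hPp hp2 hpE X H hYX hXe hH0 halt
  rw [Finset.notMem_union] at hpE
  have hpPP : p ∈ PP P := mem_PP.2 ⟨⟨hPp, hp2⟩, hp⟩
  have hX4 : 4 ≤ X := hY4.trans hYX
  have hX0 : 0 < X := by linarith
  have hX1 : 1 ≤ X := by linarith
  have hHK : (K : ℝ) ≤ H := (le_max_left _ _).trans hH0
  have hH1 : 1 ≤ H := (le_max_right _ _).trans hH0
  have hPp' : (P : ℝ) ≤ p := by exact_mod_cast hPp.le
  have hp0 : (0:ℝ) < p := by linarith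
  -- bounds for `H`
  have hHP : H ≤ (P : ℝ) ^ c := by
    rcases halt with h | ⟨h1, h2⟩
    · exact h.trans (Real.rpow_le_rpow (by positivity) (min_le_right _ _) hc0.le)
    · refine h2.trans (le_trans ?_ h1)
      calc X ^ (1 - ε) ≤ X ^ (1:ℝ) := Real.rpow_le_rpow_of_exponent_le hX1 (by linarith)
        _ = X := Real.rpow_one _
  have hHX : H ≤ X ^ (1 - ε') := by
    rcases halt with h | ⟨h1, h2⟩
    · refine h.trans ?_
      calc (min X P) ^ c ≤ X ^ c := Real.rpow_le_rpow (by positivity) (min_le_left _ _) hc0.le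
        _ ≤ X ^ (1 - ε') := Real.rpow_le_rpow_of_exponent_le hX1 (by linarith)
    · exact h2.trans (Real.rpow_le_rpow_of_exponent_le hX1 (by linarith))
  have hHX' : H ≤ X := by
    refine hHX.trans ?_
    calc X ^ (1 - ε') ≤ X ^ (1:ℝ) := Real.rpow_le_rpow_of_exponent_le hX1 (by linarith)
      _ = X := Real.rpow_one _
  -- the discrete lengths
  set N := ⌊X⌋₊ with hNdef
  set N' := (N + 1) / 2 with hN'def
  set h := ⌊H⌋₊ with hhdef
  have n1 : (N : ℝ) ≤ X := Nat.floor_le hX0.le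
  have n2 : X < N + 1 := Nat.lt_floor_add_one _
  have hN'2 : (N : ℝ) ≤ 2 * N' := by
    have : N ≤ 2 * N' := by omega
    exact_mod_cast this
  have hN'X : X / 4 ≤ (N' : ℝ) := by linarith
  have hNX : X / 4 ≤ (N : ℝ) := by linarith
  have hN'N : N' ≤ N := by
    have : 1 ≤ N := Nat.le_floor (by exact_mod_cast hX1)
    omega
  have hN'r : (N' : ℝ) ≤ N := by exact_mod_cast hN'N
  have hh1 : 1 ≤ h := Nat.le_floor (by exact_mod_cast hH1)
  have hhH : (h : ℝ) ≤ H := Nat.floor_le (by linarith)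
  have hexp : 0 ≤ (1 - 1 / q : ℝ) := by
    have : (1 / q : ℝ) ≤ 1 := by
      rw [div_le_one (by exact_mod_cast hq0)]; exact_mod_cast hq0
    linarith
  have hX14 := hX₁ X ((g2.trans hY1).trans hYX)
  have hhN' : (h : ℝ) ≤ (N' : ℝ) ^ (1 - 1 / q : ℝ) :=
    hhH.trans (hHX.trans (hX14.trans (Real.rpow_le_rpow (by positivity) hN'X hexp)))
  have hhN : (h : ℝ) ≤ (N : ℝ) ^ (1 - 1 / q : ℝ) :=
    hhH.trans (hHX.trans (hX14.trans (Real.rpow_le_rpow (by positivity) hNX hexp)))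
  have hN'1 : (1:ℝ) ≤ N' := by linarith
  have hhN'2 : h ≤ N' := by
    have : (h : ℝ) ≤ N' := by
      refine hhN'.trans ?_
      calc (N' : ℝ) ^ (1 - 1 / q : ℝ) ≤ (N' : ℝ) ^ (1:ℝ) :=
            Real.rpow_le_rpow_of_exponent_le hN'1 (by
              have : (0:ℝ) ≤ 1 / q := by positivity
              linarith)
        _ = N' := Real.rpow_one _
    exact_mod_cast this
  -- the discrete moments
  have hD : (∀ k ∈ Icc 1 K, |Dk (fq p) k N h| ≤ (1 / K : ℝ) * (Real.sqrt h) ^ k) ∧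
      (∀ k ∈ Icc 1 K, |Dk (fq p) k N' h| ≤ (1 / K : ℝ) * (Real.sqrt h) ^ k) := by
    rcases le_total X ((P : ℝ) ^ cs) with hcase | hcase
    · have hlt : 3 * X ≤ P - 1 := by
        have e1 : X ≤ (P : ℝ) ^ (1 / 2 : ℝ) :=
          hcase.trans (Real.rpow_le_rpow_of_exponent_le hP1 hcs2)
        have e2 : (P : ℝ) = (P : ℝ) ^ (1 / 2 : ℝ) * (P : ℝ) ^ (1 / 2 : ℝ) := by
          rw [← Real.rpow_add hP0]; norm_num
        nlinarith
      have h3N : 3 * N < p := by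
        have : (3 * N : ℝ) < p := by linarith
        exact_mod_cast this
      have h3N' : 3 * N' < p := by omega
      constructor
      · intro k hk
        rw [← Dk_swap (p := p) k N h (hhN'2.trans hN'N) h3N]
        exact hE₁' p hpPP hpE.1 k hk N (by linarith) (n1.trans hcase) h hh1 hhN
      · intro k hk
        rw [← Dk_swap (p := p) k N' h hhN'2 h3N']
        exact hE₁' p hpPP hpE.1 k hk N' (by linarith) ((hN'r.trans n1).trans hcase) h hh1 hhN'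
    · have hlow : (P : ℝ) ^ (cs / 2) ≤ X / 4 := by
        have e2 : (P : ℝ) ^ cs = (P : ℝ) ^ (cs / 2) * (P : ℝ) ^ (cs / 2) := by
          rw [← Real.rpow_add hP0]; ring_nf
        nlinarith
      constructor
      · intro k hk
        exact hE₂' p hpPP hpE.2 k hk h hh1 (hhH.trans hHP) N (by linarith) (n1.trans hXe)
      · intro k hk
        exact hE₂' p hpPP hpE.2 k hk h hh1 (hhH.trans hHP) N' (by linarith)
          ((hN'r.trans n1).trans hXe)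
  obtain ⟨r1, r2⟩ := hK (fq p) (sgn_fq hp) X H hX0 hHK hHX hD.1 hD.2
  -- the size of the error
  have hPh : (P : ℝ) ^ (1 / 2 : ℝ) * (P : ℝ) ^ (1 / 2 : ℝ) = P := by
    rw [← Real.rpow_add hP0]; norm_num
  have hph0 : 0 < (P : ℝ) ^ (1 / 2 : ℝ) := Real.rpow_pos_of_pos hP0 _
  have herr : ∀ k ≤ L, 18 * 4 ^ k * H ^ (k + 1) / p ≤ δ / 2 := by
    intro k hk
    have e1 : H ^ (k + 1) ≤ (P : ℝ) ^ (1 / 2 : ℝ) := by
      calc H ^ (k + 1) ≤ H ^ (L + 2) := pow_le_pow_right₀ hH1 (by omega)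
        _ ≤ ((P : ℝ) ^ c) ^ (L + 2) := pow_le_pow_left₀ (by linarith) hHP _
        _ = (P : ℝ) ^ (c * (L + 2)) := by
            rw [← Real.rpow_natCast, ← Real.rpow_mul hP0.le]; push_cast; rfl
        _ ≤ (P : ℝ) ^ (1 / 2 : ℝ) := Real.rpow_le_rpow_of_exponent_le hP1 hcL
    have e2 : (4:ℝ) ^ k ≤ 4 ^ L := pow_le_pow_right₀ (by norm_num) hk
    have e3 : 18 * 4 ^ L ≤ δ / 2 * (P : ℝ) ^ (1 / 2 : ℝ) := by
      rw [div_le_iff₀ (by positivity)] at g7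
      linarith
    rw [div_le_iff₀ hp0]
    calc 18 * 4 ^ k * H ^ (k + 1) ≤ 18 * 4 ^ L * (P : ℝ) ^ (1 / 2 : ℝ) := by gcongr
      _ ≤ (δ / 2 * (P : ℝ) ^ (1 / 2 : ℝ)) * (P : ℝ) ^ (1 / 2 : ℝ) := by gcongr
      _ = δ / 2 * P := by rw [mul_assoc, hPh]
      _ ≤ δ / 2 * p := by gcongr
  constructor
  · intro t
    have s1 := law_swap hp hH1 hHX' t
    have s2 := herr 0 (Nat.zero_le _)
    have s3 : 9 * H / p ≤ δ / 2 := by
      refine le_trans ?_ s2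
      have : 9 * H ≤ 18 * 4 ^ 0 * H ^ (0 + 1) := by
        simp only [pow_zero, zero_add, pow_one]
        linarith
      exact div_le_div_of_nonneg_right this hp0.le
    have s4 := r1 t
    calc |Gd (fm p) X H t - cdf (gaussianReal 0 1) t|
        = |(Gd (fm p) X H t - Gd (fq p) X H t) + (Gd (fq p) X H t - cdf (gaussianReal 0 1) t)| := by
          congr 1; ring
      _ ≤ _ := abs_add_le _ _
      _ ≤ δ := by linarith
  · intro k hk
    have s1 := mom_swap hp hH1 hHX' k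
    have s2 := herr k hk
    have s4 := r2 k hk
    calc |Md (fm p) k X H - gm k|
        = |(Md (fm p) k X H - Md (fq p) k X H) + (Md (fq p) k X H - gm k)| := by
          congr 1; ring
      _ ≤ _ := abs_add_le _ _
      _ ≤ δ := by linarith

end Pool.Agent.P4f18dfT
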