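import Pool.Agent.Lib.P4f18dfT.Defs

/-!
# A dyadic block with many primes

Module TW.Cheb.  One of the three blocks `(Q, 2Q]`, `(2Q, 4Q]`, `(4Q, 8Q]` contains at least
`√Q` (much less than the truth) primes: the number of primes in `(Q, 8Q]` is at least
`(θ(8Q) - θ(Q)) / log (8Q)`, and `θ(8Q) - θ(Q) ≥ c Q` by Chebyshev: e.g. Mathlib's
`Chebyshev.theta_le_log4_mul_x` (`θ x ≤ log 4 * x`) and a lower bound `θ(8Q) ≥ 4 Q` for large `Q`
(`log 2 * 8 = 5.54 > 1.39`), from Mathlib (`Mathlib/NumberTheory/Chebyshev.lean`), or from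
`centralBinom`, or from `eventually_cntP` of `Lib/P4f18df/TwExc.lean` (`P / (2 log P) ≤ π(P)`)
applied at `8 Q` together with any upper bound `π(Q) ≤ 3 Q / log Q` (Mathlib: `theta`), or use
Bertrand type arguments.  Any exponent `> 0` in place of `1 / 2` would do: the statement below is
what is used.
-/

set_option autoImplicit false

namespace Pool.Agent.P4f18dfT

open Finset Filter Pool.Agent.P4f18dfQ

namespace Cheb

/-- `θ(2Q) ≤ θ(Q) + #(primes in (Q, 2Q]) log (2Q)` -/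
lemma theta_two_le (Q : ℕ) :
    Chebyshev.theta ((2 * Q : ℕ) : ℝ) ≤
      Chebyshev.theta (Q : ℝ) + ((PP Q).card : ℝ) * Real.log (2 * Q : ℕ) := by
  unfold Chebyshev.theta
  rw [Nat.floor_natCast, Nat.floor_natCast]
  have hU : (Ioc 0 (2 * Q)).filter Nat.Prime = (Ioc 0 Q).filter Nat.Prime ∪ PP Q := by
    ext p
    simp only [PP, mem_filter, mem_union, mem_Ioc]
    constructor
    · rintro ⟨⟨h1, h2⟩, h3⟩
      by_cases h : p ≤ Q
      · exact Or.inl ⟨⟨h1, h⟩, h3⟩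
      · exact Or.inr ⟨⟨by omega, h2⟩, h3⟩
    · rintro (⟨⟨h1, h2⟩, h3⟩ | ⟨⟨h1, h2⟩, h3⟩)
      · exact ⟨⟨h1, by omega⟩, h3⟩
      · exact ⟨⟨by omega, h2⟩, h3⟩
  have hD : Disjoint ((Ioc 0 Q).filter Nat.Prime) (PP Q) := by
    rw [Finset.disjoint_left]
    intro p hp hq
    simp only [PP, mem_filter, mem_Ioc] at hp hq
    omega
  rw [hU, Finset.sum_union hD]
  have hle : ∑ p ∈ PP Q, Real.log (p : ℝ) ≤ ((PP Q).card : ℝ) * Real.log (2 * Q : ℕ) := by
    rw [← nsmul_eq_mul]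
    refine Finset.sum_le_card_nsmul _ _ _ fun p hp => ?_
    simp only [PP, mem_filter, mem_Ioc] at hp
    refine Real.log_le_log ?_ ?_
    · exact_mod_cast hp.2.pos
    · exact_mod_cast hp.1.2
  linarith

end Cheb

open Cheb in
theorem exists_block : ∃ Q₀ : ℕ, ∀ Q : ℕ, Q₀ ≤ Q →
    ∃ Q' : ℕ, Q ≤ Q' ∧ Q' ≤ 4 * Q ∧ (Q : ℝ) ^ (3 / 4 : ℝ) ≤ ((PP Q').card : ℝ) := by
  have hlo := (isLittleO_log_rpow_atTop (show (0 : ℝ) < 1 / 4 by norm_num)).bound
    (show (0 : ℝ) < 1 / 21 by norm_num)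
  have hlo' := tendsto_natCast_atTop_atTop (R := ℝ) |>.eventually hlo
  obtain ⟨Q₁, hQ₁⟩ := eventually_atTop.1 hlo'
  refine ⟨max Q₁ 9, fun Q hQ => ?_⟩
  have hQ1 : Q₁ ≤ Q := le_trans (le_max_left _ _) hQ
  have hQ9 : 9 ≤ Q := le_trans (le_max_right _ _) hQ
  by_contra hcon
  push Not at hcon
  have c1 := hcon Q le_rfl (by omega)
  have c2 := hcon (2 * Q) (by omega) (by omega)
  have c3 := hcon (4 * Q) (by omega) (by omega)
  have t1 := theta_two_le Q
  have t2 := theta_two_le (2 * Q)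
  have t3 := theta_two_le (2 * (2 * Q))
  have e4 : 2 * (2 * Q) = 4 * Q := by ring
  have e8 : 2 * (4 * Q) = 8 * Q := by ring
  rw [e4] at t2 t3
  rw [e8] at t3
  have hx : (9 : ℝ) ≤ (Q : ℝ) := by exact_mod_cast hQ9
  have hx0 : (0 : ℝ) < (Q : ℝ) := by linarith
  set x : ℝ := (Q : ℝ) with hxd
  have hbd := hQ₁ Q hQ1
  have hlogx : 0 ≤ Real.log x := Real.log_nonneg (by linarith)
  rw [← hxd, Real.norm_of_nonneg hlogx, Real.norm_of_nonneg (Real.rpow_nonneg hx0.le _)] at hbd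
  -- logs
  have hl9 : Real.log 9 ≤ Real.log x := Real.log_le_log (by norm_num) hx
  have hl8 : Real.log 8 ≤ Real.log x := Real.log_le_log (by norm_num) (by linarith)
  have hl8Q : Real.log ((8 * Q : ℕ) : ℝ) ≤ 2 * Real.log x := by
    push_cast
    rw [Real.log_mul (by norm_num) (by positivity)]
    linarith
  have hl4Q : Real.log ((4 * Q : ℕ) : ℝ) ≤ 2 * Real.log x := by
    refine le_trans (Real.log_le_log ?_ ?_) hl8Q
    · push_cast; linarith
    · push_cast; linarith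
  have hl2Q : Real.log ((2 * Q : ℕ) : ℝ) ≤ 2 * Real.log x := by
    refine le_trans (Real.log_le_log ?_ ?_) hl8Q
    · push_cast; linarith
    · push_cast; linarith
  have hl9Q : Real.log (((8 * Q : ℕ) : ℝ) + 1) ≤ 3 * Real.log x := by
    have : Real.log (((8 * Q : ℕ) : ℝ) + 1) ≤ Real.log (9 * x) := by
      refine Real.log_le_log (by positivity) ?_
      push_cast
      linarith
    rw [Real.log_mul (by norm_num) (by positivity)] at this
    linarith
  set y : ℝ := x ^ (3 / 4 : ℝ) with hy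
  have hy1 : 1 ≤ y := Real.one_le_rpow (by linarith) (by norm_num)
  have hsx : Real.sqrt x ≤ y := by
    rw [Real.sqrt_eq_rpow]
    exact Real.rpow_le_rpow_of_exponent_le (by linarith) (by norm_num)
  have hs8 : Real.sqrt ((8 * Q : ℕ) : ℝ) ≤ 3 * y := by
    have h1 : Real.sqrt ((8 * Q : ℕ) : ℝ) ≤ 3 * Real.sqrt x := by
      have h3 : (3 : ℝ) = Real.sqrt 9 := by
        rw [show (9 : ℝ) = 3 ^ 2 by norm_num, Real.sqrt_sq (by norm_num)]
      rw [h3, ← Real.sqrt_mul (by norm_num)]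
      refine Real.sqrt_le_sqrt ?_
      push_cast
      linarith
    linarith
  have hxy : y * x ^ (1 / 4 : ℝ) = x := by
    rw [hy, ← Real.rpow_add hx0]
    norm_num
  have hylog : y * Real.log x ≤ x / 21 := by
    have := mul_le_mul_of_nonneg_left hbd (by linarith : (0 : ℝ) ≤ y)
    calc y * Real.log x ≤ y * (1 / 21 * x ^ (1 / 4 : ℝ)) := this
      _ = (y * x ^ (1 / 4 : ℝ)) / 21 := by ring
      _ = x / 21 := by rw [hxy]
  -- the three blocks
  have b1 : ((PP Q).card : ℝ) * Real.log ((2 * Q : ℕ) : ℝ) ≤ y * (2 * Real.log x) := by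
    refine mul_le_mul c1.le hl2Q ?_ (by linarith)
    exact Real.log_natCast_nonneg _
  have b2 : ((PP (2 * Q)).card : ℝ) * Real.log ((4 * Q : ℕ) : ℝ) ≤ y * (2 * Real.log x) := by
    refine mul_le_mul c2.le hl4Q ?_ (by linarith)
    exact Real.log_natCast_nonneg _
  have b3 : ((PP (4 * Q)).card : ℝ) * Real.log ((8 * Q : ℕ) : ℝ) ≤ y * (2 * Real.log x) := by
    refine mul_le_mul c3.le hl8Q ?_ (by linarith)
    exact Real.log_natCast_nonneg _
  have hlow := Chebyshev.theta_ge (8 * Q)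
  have hup := Chebyshev.theta_le_log4_mul_x hx0.le
  have hl4 : Real.log 4 = 2 * Real.log 2 := by
    rw [show (4 : ℝ) = 2 ^ 2 by norm_num, Real.log_pow]
    norm_num
  have hl2 := Real.log_two_gt_d9
  have hsq : 2 * Real.sqrt ((8 * Q : ℕ) : ℝ) * Real.log ((8 * Q : ℕ) : ℝ) ≤
      12 * (y * Real.log x) := by
    have h0 : 0 ≤ Real.log ((8 * Q : ℕ) : ℝ) := Real.log_natCast_nonneg _
    calc 2 * Real.sqrt ((8 * Q : ℕ) : ℝ) * Real.log ((8 * Q : ℕ) : ℝ)
        ≤ 2 * (3 * y) * (2 * Real.log x) := by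
          refine mul_le_mul ?_ hl8Q h0 (by linarith)
          linarith
      _ = 12 * (y * Real.log x) := by ring
  have hly : Real.log x ≤ y * Real.log x := by nlinarith
  have hcast : ((8 * Q : ℕ) : ℝ) = 8 * x := by push_cast; rfl
  rw [hcast] at hlow hl9Q hsq t3 b3
  rw [hl4] at hup
  nlinarith

end Pool.Agent.P4f18dfT
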