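import Pool.Agent.Lib.P4f18dfQ.Tail
import Pool.Agent.Lib.P4f18dfQ.NetM
import Pool.Agent.Lib.P4f18df.TwExc

/-!
# Quadratic twists of the Möbius function at every scale: definitions

`SqP S N` counts the pairs `x, y ∈ [1, N]` for which `F_S(x) F_S(y)` is a square, `F_S(n) = ∏_{s ∈ S} (n + s)`.
-/

set_option autoImplicit false

namespace Pool.Agent.P4f18dfT

open Finset Pool.Agent.P4f18df Pool.Agent.P4f18dfQ

/-- number of pairs with square product -/
noncomputable def SqP (S : Finset ℕ) (N : ℕ) : ℕ := by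
  classical
  exact (((Ioc 0 N) ×ˢ (Ioc 0 N)).filter (fun x => IsSquare (Fs S x.1 * Fs S x.2))).card

/-- number of pairs with `F_S(x) F_S(y) κ` a square -/
noncomputable def SqK (S : Finset ℕ) (N κ : ℕ) : ℕ := by
  classical
  exact (((Ioc 0 N) ×ˢ (Ioc 0 N)).filter (fun x => IsSquare (Fs S x.1 * Fs S x.2 * κ))).card

/-- the sum of the symbols over the primes of `(P, 2P]` -/
noncomputable def Sg (P n : ℕ) : ℝ := ∑ p ∈ PP P, lg p n

/-- the moments of the standard Gaussian law -/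
noncomputable def gm (k : ℕ) : ℝ := ∫ y, y ^ k ∂(ProbabilityTheory.gaussianReal 0 1)

/-- the distribution function of the normalised sum over `[X, 2X]` -/
noncomputable def Gd (f : ℕ → ℝ) (X H t : ℝ) : ℝ :=
  (MeasureTheory.volume {x : ℝ | x ∈ Set.Icc X (2 * X) ∧
    Ms f x H / Real.sqrt (H / (Real.pi ^ 2 / 6)) ≤ t}).toReal / X

/-- the moments of the normalised sum over `[X, 2X]` -/
noncomputable def Md (f : ℕ → ℝ) (k : ℕ) (X H : ℝ) : ℝ :=
  (∫ x in X..(2 * X), (Ms f x H / Real.sqrt (H / (Real.pi ^ 2 / 6))) ^ k) / X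

end Pool.Agent.P4f18dfT
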