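import Pool.Agent.Lib.P4f18dfT.MidSieve

/-!
# Few bad primes in the middle range, for one `N`, one `h`

Module TW.MidBad.  Same as `sum_Gk_sq`, `card_bad` of `Lib/P4f18dfQ/Tail.lean` with `mid_sieve` instead
of `large_sieve`: `∑_p (Gk k N h p)^2 ≤ h^k ∑_{t ∈ Tk k h} ∑_p (∑_a ct t a * lg p (Fs (od t) a))^2
≤ h^(2k) N^2 P^(1-c₁)` (`Tail.od_card`, `Tail.abs_ct_le`, `Tail.card_Tk_le`; `s ≤ h ≤ P^c ≤ P^(c₁)`); by
`Ek_sub_Gk` (`h ≤ N`) and `8 h^(k+1) ≤ lam (√h)^k P`, `lam = 1 / (12 K)`, a bad prime has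
`|Gk| ≥ lam (√h)^k N / 2`, so their number is at most `4 * 144 K^2 h^k P^(1-c₁) ≤ P^(1-c)` for
`h ≤ P^c`, `c (K + 2) ≤ c₁ / 2` etc. and large `P`.
-/

set_option autoImplicit false

namespace Pool.Agent.P4f18dfT

open Finset Filter Pool.Agent.P4f18dfQ Pool.Agent.P4f18df

namespace MidBad

open Tail

lemma sum_Gk_sq_mid {k K : ℕ} (hkK : k ≤ K) {P N h : ℕ} {c B : ℝ} (hB : 0 ≤ B)
    (hhc : (h : ℝ) ≤ (P : ℝ) ^ c)
    (hsv : ∀ S : Finset ℕ, S.Nonempty → S.card ≤ K → (∀ s ∈ S, (s : ℝ) ≤ (P : ℝ) ^ c) →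
      ∀ b : ℕ → ℝ, (∀ n, |b n| ≤ 1) →
        ∑ p ∈ PP P, (∑ n ∈ Ioc 0 N, b n * lg p (Fs S n)) ^ 2 ≤ B) :
    ∑ p ∈ PP P, (Gk k N h p) ^ 2 ≤ (h : ℝ) ^ (2 * k) * B := by
  have h1 : ∀ p, (Gk k N h p) ^ 2 ≤ (h : ℝ) ^ k *
      ∑ t ∈ Tk k h, (∑ a ∈ Ioc 0 N, ct t a * lg p (Fs (od t) a)) ^ 2 := by
    intro p
    unfold Gk
    have h2 := sq_sum_le_card_mul_sum_sq (s := Tk k h)
      (f := fun t => ∑ a ∈ Ioc 0 N, ct t a * lg p (Fs (od t) a))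
    refine le_trans (le_of_eq ?_) (h2.trans ?_)
    · rfl
    · exact mul_le_mul_of_nonneg_right (card_Tk_le k h) (Finset.sum_nonneg fun _ _ => sq_nonneg _)
  calc ∑ p ∈ PP P, (Gk k N h p) ^ 2
      ≤ ∑ p ∈ PP P, (h : ℝ) ^ k * ∑ t ∈ Tk k h, (∑ a ∈ Ioc 0 N, ct t a * lg p (Fs (od t) a)) ^ 2 :=
        Finset.sum_le_sum fun p _ => h1 p
    _ = (h : ℝ) ^ k * ∑ t ∈ Tk k h, ∑ p ∈ PP P, (∑ a ∈ Ioc 0 N, ct t a * lg p (Fs (od t) a)) ^ 2 := by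
        rw [← Finset.mul_sum, Finset.sum_comm]
    _ ≤ (h : ℝ) ^ k * ∑ _t ∈ Tk k h, B := by
        refine mul_le_mul_of_nonneg_left (Finset.sum_le_sum fun t ht => ?_) (by positivity)
        obtain ⟨h2, h3, h4⟩ := od_card ht
        refine hsv (od t) (Finset.card_pos.1 h2) (h3.trans hkK) (fun s hs => ?_) (ct t) (abs_ct_le t)
        have h5 : (s : ℝ) ≤ h := by exact_mod_cast h4 s hs
        exact h5.trans hhc
    _ = (h : ℝ) ^ k * ((Tk k h).card * B) := by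
        rw [Finset.sum_const, nsmul_eq_mul]
    _ ≤ (h : ℝ) ^ k * ((h : ℝ) ^ k * B) := by
        refine mul_le_mul_of_nonneg_left ?_ (by positivity)
        exact mul_le_mul_of_nonneg_right (card_Tk_le k h) hB
    _ = _ := by ring

lemma card_bad_aux {k : ℕ} {P N h : ℕ} (hP1 : 1 ≤ P) (h1 : 1 ≤ h) (hhN : h ≤ N) {lam S : ℝ}
    (hlam : 0 < lam) (hcond : 8 * (h : ℝ) ^ (k + 1) ≤ lam * (Real.sqrt h) ^ k * P)
    (hG : ∑ p ∈ PP P, (Gk k N h p) ^ 2 ≤ (h : ℝ) ^ (2 * k) * ((N : ℝ) ^ 2 * S)) :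
      (((PP P).filter (fun p => lam * (Real.sqrt h) ^ k * N < |Ek (fq p) k N h|)).card : ℝ) ≤
        4 * (h : ℝ) ^ k * S / lam ^ 2 := by
  set B := (PP P).filter (fun p => lam * (Real.sqrt h) ^ k * N < |Ek (fq p) k N h|) with hB
  have hh0 : (0 : ℝ) < h := by exact_mod_cast h1
  have hP0 : (0 : ℝ) < P := by
    have : 0 < P := by omega
    exact_mod_cast this
  have hN1 : 0 < N := by omega
  have hN0 : (0 : ℝ) < N := by exact_mod_cast hN1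
  have hsk : (Real.sqrt h) ^ k * (Real.sqrt h) ^ k = (h : ℝ) ^ k := by
    rw [← mul_pow, Real.mul_self_sqrt hh0.le]
  have hsq0 : 0 < (Real.sqrt h) ^ k := pow_pos (Real.sqrt_pos.2 hh0) k
  have hkey : ∀ p ∈ B, (lam ^ 2 * (h : ℝ) ^ k * (N : ℝ) ^ 2) / 4 ≤ (Gk k N h p) ^ 2 := by
    intro p hp
    rw [hB, Finset.mem_filter, mem_PP] at hp
    obtain ⟨⟨⟨hPp, _⟩, hpp⟩, hE⟩ := hp
    have hd := Ek_sub_Gk hpp k N h hhN
    have hpP : (P : ℝ) ≤ p := by exact_mod_cast hPp.le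
    have h2 : 4 * (h : ℝ) ^ (k + 1) * N / p ≤ lam * (Real.sqrt h) ^ k * N / 2 := by
      rw [div_le_div_iff₀ (by linarith) (by norm_num)]
      have h3 : 8 * (h : ℝ) ^ (k + 1) ≤ lam * (Real.sqrt h) ^ k * p :=
        hcond.trans (mul_le_mul_of_nonneg_left hpP (by positivity))
      nlinarith
    have h4 : lam * (Real.sqrt h) ^ k * N / 2 ≤ |Gk k N h p| := by
      have h5 : |Ek (fq p) k N h| ≤ |Ek (fq p) k N h - Gk k N h p| + |Gk k N h p| := by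
        have := abs_add_le (Ek (fq p) k N h - Gk k N h p) (Gk k N h p)
        rwa [sub_add_cancel] at this
      linarith
    rw [← sq_abs (Gk k N h p)]
    have h6 : (lam * (Real.sqrt h) ^ k * N / 2) ^ 2 ≤ |Gk k N h p| ^ 2 :=
      pow_le_pow_left₀ (by positivity) h4 2
    refine le_trans (le_of_eq ?_) h6
    rw [← hsk]
    ring
  have hsum : (B.card : ℝ) * ((lam ^ 2 * (h : ℝ) ^ k * (N : ℝ) ^ 2) / 4) ≤
      (h : ℝ) ^ (2 * k) * ((N : ℝ) ^ 2 * S) := by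
    calc (B.card : ℝ) * ((lam ^ 2 * (h : ℝ) ^ k * (N : ℝ) ^ 2) / 4)
        = ∑ _p ∈ B, (lam ^ 2 * (h : ℝ) ^ k * (N : ℝ) ^ 2) / 4 := by
          rw [Finset.sum_const, nsmul_eq_mul]
      _ ≤ ∑ p ∈ B, (Gk k N h p) ^ 2 := Finset.sum_le_sum hkey
      _ ≤ ∑ p ∈ PP P, (Gk k N h p) ^ 2 :=
          Finset.sum_le_sum_of_subset_of_nonneg (Finset.filter_subset _ _) fun _ _ _ => sq_nonneg _
      _ ≤ _ := hG
  have hhk : 0 < (h : ℝ) ^ k := by positivity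
  rw [le_div_iff₀ (by positivity)]
  have e : (h : ℝ) ^ (2 * k) * ((N : ℝ) ^ 2 * S) = ((h : ℝ) ^ k * S) * ((h : ℝ) ^ k * (N : ℝ) ^ 2) := by
    ring
  have e2 : (B.card : ℝ) * ((lam ^ 2 * (h : ℝ) ^ k * (N : ℝ) ^ 2) / 4) =
      ((B.card : ℝ) * lam ^ 2 / 4) * ((h : ℝ) ^ k * (N : ℝ) ^ 2) := by ring
  rw [e, e2] at hsum
  have h7 := le_of_mul_le_mul_right hsum (by positivity)
  linarith

end MidBad

open MidBad in
theorem card_bad_mid (K : ℕ) (hK : 1 ≤ K) (a : ℝ) (ha : 0 < a) : ∃ c : ℝ, 0 < c ∧ ∃ P₀ : ℕ,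
    ∀ P : ℕ, P₀ ≤ P → ∀ k ∈ Icc 1 K, ∀ N h : ℕ, (P : ℝ) ^ a ≤ N → N ≤ 2 * P ^ 3 → 1 ≤ h →
      (h : ℝ) ≤ (P : ℝ) ^ c →
      (((PP P).filter
        (fun p => 1 / (12 * K) * (Real.sqrt h) ^ k * N < |Ek (fq p) k N h|)).card : ℝ) ≤
        (P : ℝ) ^ (1 - c) := by
  obtain ⟨c₁, hc₁, P₁, hP₁⟩ := mid_sieve K a ha
  have hKr : (1 : ℝ) ≤ K := by exact_mod_cast hK
  set d : ℝ := min (c₁ / 2) (min (1 / 2) a) with hd
  have hd0 : 0 < d := by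
    rw [hd]
    exact lt_min (by linarith) (lt_min (by norm_num) ha)
  have hd1 : d ≤ c₁ / 2 := min_le_left _ _
  have hd2 : d ≤ 1 / 2 := (min_le_right _ _).trans (min_le_left _ _)
  have hd3 : d ≤ a := (min_le_right _ _).trans (min_le_right _ _)
  set c : ℝ := d / (K + 1) with hc
  have hc0 : 0 < c := by positivity
  have hcd : c * (K + 1) = d := by
    rw [hc]
    field_simp
  have hcd' : c ≤ d := by nlinarith
  have ev1 := eventually_const_le (96 * K) (1 / 2) (by norm_num)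
  have ev2 := eventually_const_le (576 * K ^ 2) (c₁ / 2) (by linarith)
  obtain ⟨P₂, hP₂⟩ := Filter.eventually_atTop.1 (ev1.and ev2)
  refine ⟨c, hc0, max (max P₁ P₂) 1, fun P hP k hk N h hPN hNP h1 hhc => ?_⟩
  have hPa : P₁ ≤ P := ((le_max_left _ _).trans (le_max_left _ _)).trans hP
  have hPb : P₂ ≤ P := ((le_max_right _ _).trans (le_max_left _ _)).trans hP
  have hPc : 1 ≤ P := (le_max_right _ _).trans hP
  obtain ⟨hv1, hv2⟩ := hP₂ P hPb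
  have hk' := Finset.mem_Icc.1 hk
  have hPr : (1 : ℝ) ≤ P := by exact_mod_cast hPc
  have hP0 : (0 : ℝ) < P := by linarith
  have hh1 : (1 : ℝ) ≤ h := by exact_mod_cast h1
  have hkr : (k : ℝ) ≤ K := by exact_mod_cast hk'.2
  have hhN : h ≤ N := by
    have : (h : ℝ) ≤ N := hhc.trans ((Real.rpow_le_rpow_of_exponent_le hPr
      (hcd'.trans hd3)).trans hPN)
    exact_mod_cast this
  have hhc₁ : (h : ℝ) ≤ (P : ℝ) ^ c₁ :=
    hhc.trans (Real.rpow_le_rpow_of_exponent_le hPr (by linarith))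
  have hpow : ∀ j : ℕ, (h : ℝ) ^ j ≤ (P : ℝ) ^ (c * j) := by
    intro j
    calc (h : ℝ) ^ j ≤ ((P : ℝ) ^ c) ^ j := pow_le_pow_left₀ (by positivity) hhc j
      _ = (P : ℝ) ^ (c * j) := by rw [Real.rpow_mul_natCast hP0.le]
  have hG := sum_Gk_sq_mid (P := P) (N := N) (h := h) hk'.2 (c := c₁)
    (B := (N : ℝ) ^ 2 * (P : ℝ) ^ (1 - c₁)) (by positivity) hhc₁
    (fun S hS hSK hsP b hb => hP₁ P hPa N hPN hNP S hS hSK hsP b hb)
  have hsq1 : (1 : ℝ) ≤ (Real.sqrt h) ^ k := one_le_pow₀ (Real.one_le_sqrt.2 hh1)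
  have hcond : 8 * (h : ℝ) ^ (k + 1) ≤ 1 / (12 * K) * (Real.sqrt h) ^ k * P := by
    have e1 : (h : ℝ) ^ (k + 1) ≤ (P : ℝ) ^ ((1 : ℝ) / 2) := by
      refine (hpow (k + 1)).trans (Real.rpow_le_rpow_of_exponent_le hPr ?_)
      push_cast
      nlinarith
    have e2 : (P : ℝ) ^ ((1 : ℝ) / 2) * (P : ℝ) ^ ((1 : ℝ) / 2) = P := by
      rw [← Real.rpow_add hP0]
      norm_num
    have e3 : 96 * K * (h : ℝ) ^ (k + 1) ≤ P := by
      calc 96 * K * (h : ℝ) ^ (k + 1) ≤ (P : ℝ) ^ ((1 : ℝ) / 2) * (P : ℝ) ^ ((1 : ℝ) / 2) :=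
            mul_le_mul hv1 e1 (by positivity) (by positivity)
        _ = P := e2
    have e4 : 8 * (h : ℝ) ^ (k + 1) ≤ 1 / (12 * K) * P := by
      rw [div_mul_eq_mul_div, le_div_iff₀ (by positivity)]
      linarith
    refine e4.trans ?_
    have e5 : (0 : ℝ) ≤ 1 / (12 * K) * P := by positivity
    nlinarith
  have hfin := card_bad_aux hPc h1 hhN (by positivity : (0 : ℝ) < 1 / (12 * K)) hcond hG
  refine hfin.trans ?_
  have e6 : 4 * (h : ℝ) ^ k * (P : ℝ) ^ (1 - c₁) / (1 / (12 * K)) ^ 2 =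
      576 * (K : ℝ) ^ 2 * ((h : ℝ) ^ k * (P : ℝ) ^ (1 - c₁)) := by
    field_simp
    ring
  rw [e6]
  calc 576 * (K : ℝ) ^ 2 * ((h : ℝ) ^ k * (P : ℝ) ^ (1 - c₁))
      ≤ (P : ℝ) ^ (c₁ / 2) * ((P : ℝ) ^ (c * k) * (P : ℝ) ^ (1 - c₁)) :=
        mul_le_mul hv2 (mul_le_mul_of_nonneg_right (hpow k) (by positivity)) (by positivity)
          (by positivity)
    _ = (P : ℝ) ^ (c₁ / 2 + (c * k + (1 - c₁))) := by
        rw [← Real.rpow_add hP0, ← Real.rpow_add hP0]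
    _ ≤ (P : ℝ) ^ (1 - c) := by
        refine Real.rpow_le_rpow_of_exponent_le hPr ?_
        nlinarith

end Pool.Agent.P4f18dfT
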