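import Pool.Agent.Lib.P4f18dfT.Defs

/-!
# Classes of pairs

Module TW.Pairs.  `sqK_le`: Cauchy–Schwarz for the classes modulo squares.  Let `g x` be a squarefree
number with `F x = g x * (square)` (`Nat.sq_mul_squarefree`; `F x = Fs S x ≥ 1` for `x ≥ 1`; the
squarefree part is unique: if `u v` is a square and `u, v` are squarefree then `u = v`).  For `κ ≥ 1` let
`τ v` be the squarefree part of `κ v`; it is injective on squarefree numbers, and
`F x F y κ` is a square iff `g y = τ (g x)`.  So `SqK = ∑_v r v * r (τ v) ≤ ∑_v r v ^ 2 = SqP` with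
`r v = #{x : g x = v}` (`a b ≤ (a² + b²) / 2`, `τ` injective).  Another way: if the set
`Y_x = {y : F x F y κ = □}` is nonempty it is a class of the equivalence relation `F y F y' = □`, and
different classes of `x` give different classes `Y_x`.
`Sg_class`: `n = κ w²`: `lg p n = lg p κ` unless `p ∣ w`, and then `p ∣ n`.
`card_dvd`: at most `log n / log P` primes `p > P` divide `n`: `P^r ≤ n` (`Finset.prod_primes_dvd` or
`Finset.prod_le_prod`).
-/

set_option autoImplicit false

namespace Pool.Agent.P4f18dfT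

open Finset Filter Pool.Agent.P4f18dfQ Pool.Agent.P4f18df

namespace Pairs

theorem eq_of_sq {u v : ℕ} (hu : Squarefree u) (hv : Squarefree v) (h : IsSquare (u * v)) :
    u = v := by
  obtain ⟨w, hw⟩ := h
  have h1 : u ∣ w := by
    have : u ∣ w ^ 2 := by rw [pow_two, ← hw]; exact dvd_mul_right u v
    exact (hu.dvd_pow_iff_dvd (by norm_num)).1 this
  obtain ⟨c, rfl⟩ := h1
  have hu0 : 0 < u := Nat.pos_of_ne_zero hu.ne_zero
  have h2 : v = u * (c * c) := by
    have : u * v = u * (u * (c * c)) := by rw [hw]; ring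
    exact Nat.eq_of_mul_eq_mul_left hu0 this
  have h3 : IsUnit c := by
    apply hv c
    rw [h2]
    exact Dvd.intro_left u rfl
  rw [Nat.isUnit_iff] at h3
  rw [h2, h3]
  simp

/-- a squarefree part -/
noncomputable def sf (n : ℕ) : ℕ := (Nat.sq_mul_squarefree n).choose

theorem sf_spec (n : ℕ) : Squarefree (sf n) ∧ ∃ b, b ^ 2 * sf n = n := by
  obtain ⟨b, h1, h2⟩ := (Nat.sq_mul_squarefree n).choose_spec
  exact ⟨h2, b, h1⟩

theorem isSquare_iff {m n : ℕ} (hm : 1 ≤ m) (hn : 1 ≤ n) : IsSquare (m * n) ↔ sf m = sf n := by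
  obtain ⟨hs, b, hb⟩ := sf_spec m
  obtain ⟨ht, c, hc⟩ := sf_spec n
  constructor
  · rintro ⟨w, hw⟩
    apply eq_of_sq hs ht
    have hb0 : b ≠ 0 := by rintro rfl; rw [← hb] at hm; simp at hm
    have hc0 : c ≠ 0 := by rintro rfl; rw [← hc] at hn; simp at hn
    have h1 : (b * c) ^ 2 * (sf m * sf n) = w ^ 2 := by
      rw [pow_two w, ← hw]
      conv_rhs => rw [← hb, ← hc]
      ring
    have h2 : b * c ∣ w := by
      rw [← Nat.pow_dvd_pow_iff (n := 2) (by norm_num), ← h1]
      exact dvd_mul_right _ _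
    obtain ⟨e, rfl⟩ := h2
    refine ⟨e, ?_⟩
    have h3 : 0 < (b * c) ^ 2 := by positivity
    apply Nat.eq_of_mul_eq_mul_left h3
    rw [h1]; ring
  · intro h
    refine ⟨b * c * sf m, ?_⟩
    conv_lhs => rw [← hb, ← hc]
    rw [← h]
    ring

theorem fs_pos {S : Finset ℕ} {x : ℕ} (hx : 1 ≤ x) : 1 ≤ Fs S x := by
  unfold Fs
  apply Nat.one_le_iff_ne_zero.2
  apply prod_ne_zero_iff.2
  intro s _
  omega

theorem card_eq {I : Finset ℕ} (f g : ℕ → ℕ) :
    ((I ×ˢ I).filter (fun x => f x.1 = g x.2)).card =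
      ∑ v ∈ I.image f ∪ I.image g, (I.filter (fun x => f x = v)).card *
        (I.filter (fun y => g y = v)).card := by
  rw [card_eq_sum_card_fiberwise (f := fun x : ℕ × ℕ => f x.1) (t := I.image f ∪ I.image g)]
  · refine sum_congr rfl fun v _ => ?_
    rw [← card_product]
    congr 1
    ext ⟨x, y⟩
    simp only [mem_filter, mem_product]
    constructor
    · rintro ⟨⟨⟨h1, h2⟩, h3⟩, h4⟩
      exact ⟨⟨h1, h4⟩, h2, by rw [← h3, h4]⟩
    · rintro ⟨⟨h1, h2⟩, h3, h4⟩
      exact ⟨⟨⟨h1, h3⟩, by rw [h2, h4]⟩, h2⟩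
  · intro x hx
    simp only [coe_filter, Set.mem_ofPred_eq, mem_product] at hx
    simp only [coe_union, coe_image, Set.mem_union, Set.mem_image]
    left
    exact ⟨x.1, hx.1.1, rfl⟩

theorem card_le {I : Finset ℕ} (f g : ℕ → ℕ) :
    2 * ((I ×ˢ I).filter (fun x => f x.1 = g x.2)).card ≤
      ((I ×ˢ I).filter (fun x => f x.1 = f x.2)).card +
        ((I ×ˢ I).filter (fun x => g x.1 = g x.2)).card := by
  have h1 := card_eq (I := I) f g
  have h2 : ∑ v ∈ I.image f ∪ I.image g, (I.filter (fun x => f x = v)).card *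
        (I.filter (fun y => f y = v)).card = ((I ×ˢ I).filter (fun x => f x.1 = f x.2)).card := by
    rw [card_eq (I := I) f f]
    symm
    apply sum_subset
    · intro v hv
      rw [mem_union] at hv ⊢
      rcases hv with h | h <;> exact Or.inl h
    · intro v _ hv
      rw [union_self] at hv
      have : I.filter (fun x => f x = v) = ∅ := by
        rw [filter_eq_empty_iff]
        intro x hx hxv
        exact hv (mem_image.2 ⟨x, hx, hxv⟩)
      rw [this]; simp
  have h3 : ∑ v ∈ I.image f ∪ I.image g, (I.filter (fun x => g x = v)).card *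
        (I.filter (fun y => g y = v)).card = ((I ×ˢ I).filter (fun x => g x.1 = g x.2)).card := by
    rw [card_eq (I := I) g g]
    symm
    apply sum_subset
    · intro v hv
      rw [mem_union] at hv ⊢
      rcases hv with h | h <;> exact Or.inr h
    · intro v _ hv
      rw [union_self] at hv
      have : I.filter (fun x => g x = v) = ∅ := by
        rw [filter_eq_empty_iff]
        intro x hx hxv
        exact hv (mem_image.2 ⟨x, hx, hxv⟩)
      rw [this]; simp
  rw [h1, ← h2, ← h3, ← sum_add_distrib, mul_sum]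
  apply sum_le_sum
  intro v _
  set a := (I.filter (fun x => f x = v)).card
  set b := (I.filter (fun x => g x = v)).card
  have : (2 * (a * b) : ℤ) ≤ a * a + b * b := by nlinarith [sq_nonneg ((a : ℤ) - b)]
  exact_mod_cast this

end Pairs

theorem sqK_le (S : Finset ℕ) (N κ : ℕ) (hκ : 1 ≤ κ) : SqK S N κ ≤ SqP S N := by
  classical
  have h := Pairs.card_le (I := Ioc 0 N) (fun x => Pairs.sf (Fs S x * κ))
    (fun y => Pairs.sf (Fs S y))
  have e1 : ((Ioc 0 N ×ˢ Ioc 0 N).filter (fun x =>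
      Pairs.sf (Fs S x.1 * κ) = Pairs.sf (Fs S x.2))).card = SqK S N κ := by
    unfold SqK
    congr 1
    apply filter_congr
    rintro ⟨x, y⟩ hx
    simp only [mem_product, mem_Ioc] at hx
    rw [← Pairs.isSquare_iff (Nat.mul_pos (Pairs.fs_pos (by omega)) hκ) (Pairs.fs_pos (by omega))]
    rw [show Fs S x * κ * Fs S y = Fs S x * Fs S y * κ by ring]
  have e2 : ((Ioc 0 N ×ˢ Ioc 0 N).filter (fun x =>
      Pairs.sf (Fs S x.1 * κ) = Pairs.sf (Fs S x.2 * κ))).card = SqP S N := by
    unfold SqP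
    congr 1
    apply filter_congr
    rintro ⟨x, y⟩ hx
    simp only [mem_product, mem_Ioc] at hx
    rw [← Pairs.isSquare_iff (Nat.mul_pos (Pairs.fs_pos (by omega)) hκ)
      (Nat.mul_pos (Pairs.fs_pos (by omega)) hκ)]
    rw [Pairs.isSquare_iff (Nat.mul_pos (Pairs.fs_pos (by omega)) hκ)
      (Nat.mul_pos (Pairs.fs_pos (by omega)) hκ)]
    have hz : ∀ z : ℕ, IsSquare (z * (κ * κ)) ↔ IsSquare z := by
      intro z
      constructor
      · rintro ⟨w, hw⟩
        have h2 : κ ∣ w := by
          rw [← Nat.pow_dvd_pow_iff (n := 2) (by norm_num), pow_two w, ← hw, pow_two]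
          exact dvd_mul_left _ _
        obtain ⟨e, rfl⟩ := h2
        refine ⟨e, ?_⟩
        have h3 : 0 < κ * κ := by positivity
        apply Nat.eq_of_mul_eq_mul_right h3
        rw [hw]; ring
      · rintro ⟨w, rfl⟩
        exact ⟨w * κ, by ring⟩
    rw [← Pairs.isSquare_iff (Nat.mul_pos (Pairs.fs_pos (by omega)) hκ)
      (Nat.mul_pos (Pairs.fs_pos (by omega)) hκ),
      show Fs S x * κ * (Fs S y * κ) = Fs S x * Fs S y * (κ * κ) by ring, hz]
  have e3 : ((Ioc 0 N ×ˢ Ioc 0 N).filter (fun x =>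
      Pairs.sf (Fs S x.1) = Pairs.sf (Fs S x.2))).card = SqP S N := by
    unfold SqP
    congr 1
    apply filter_congr
    rintro ⟨x, y⟩ hx
    simp only [mem_product, mem_Ioc] at hx
    rw [← Pairs.isSquare_iff (Pairs.fs_pos (by omega)) (Pairs.fs_pos (by omega))]
  rw [e1, e2, e3] at h
  omega

theorem card_dvd (P n r : ℕ) (hP : 1 ≤ P) (hn : 1 ≤ n) (h : n < P ^ (r + 1)) :
    ((PP P).filter (fun p => p ∣ n)).card ≤ r := by
  by_contra hlt
  push Not at hlt
  set s := (PP P).filter (fun p => p ∣ n) with hs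
  have h1 : ∏ p ∈ s, p ∣ n := by
    apply Finset.prod_primes_dvd
    · intro p hp
      rw [hs, mem_filter, PP, mem_filter] at hp
      exact hp.1.2.prime
    · intro p hp
      rw [hs, mem_filter] at hp
      exact hp.2
  have h2 : P ^ s.card ≤ ∏ p ∈ s, p := by
    rw [← prod_const]
    apply prod_le_prod'
    intro p hp
    rw [hs, mem_filter, PP, mem_filter, mem_Ioc] at hp
    exact hp.1.1.1.le
  have h3 : P ^ (r + 1) ≤ P ^ s.card := Nat.pow_le_pow_right hP hlt
  have h4 := Nat.le_of_dvd (by omega) h1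
  omega

theorem Sg_class (P κ w : ℕ) (hw : 1 ≤ w) :
    |Sg P (κ * w ^ 2) - Sg P κ| ≤ (((PP P).filter (fun p => p ∣ κ * w ^ 2)).card : ℝ) := by
  unfold Sg
  rw [← sum_sub_distrib, card_filter]
  push_cast
  refine (abs_sum_le_sum_abs _ _).trans (sum_le_sum fun p hp => ?_)
  have hpp : p.Prime := by
    rw [PP, mem_filter] at hp
    exact hp.2
  rw [pow_two, lg_mul, lg_mul]
  by_cases hd : p ∣ w
  · rw [lg_of_dvd hpp hd, if_pos (Dvd.dvd.mul_left (Dvd.dvd.mul_left hd w) κ)]
    rcases lg_cases p κ with h | h | h <;> rw [h] <;> norm_num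
  · have h1 : lg p w * lg p w = 1 := by
      rcases lg_sq_of_not_dvd hpp hd with h | h <;> rw [h] <;> norm_num
    rw [h1, mul_one, sub_self, abs_zero]
    split_ifs <;> norm_num

end Pool.Agent.P4f18dfT
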