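import Pool.Agent.Lib.P4f18dfT.Defs
import Pool.Agent.Lib.P4f18dfQ.Dual
import Pool.Agent.Lib.P4f18df.TwJac

/-!
# Few classes modulo squares have a large sum over primes

Module TW.Rare.  Let `L = (2P)^m` and `b l` the number of `v : Fin m → ℕ` with values in `PP P` and
`∏ v = l` (`l ≤ L`, `l` odd since `P ≥ 2`).  Then `(Sg P n)^m = ∑_{l ∈ Ioc 0 L} b l * jo n l`
(`jo n l = J(n | l)` for odd `l`, `jacobiSym.prod_right`-type multiplicativity in the lower argument: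
`jacobiSym.mul_right`), `0 ≤ b l ≤ m!` (unique factorisation: the `m`-tuples of primes with given
product are permutations of each other; e.g. `Nat.primeFactorsList` is a permutation of the list,
number of lists that are permutations of a given list of length `m` is at most `m!`,
`List.permutations`/`List.length_permutations`, or induct on `m`), `∑ b l = |PP P|^m ≤ P^m`
(`card_PP_le`).  `duality_of_near_orth` (`Lib/P4f18dfQ/Dual.lean`) with `s = A`, `t = Ioc 0 L`,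
`A n l = jo n l`, `N₁ = L`, `E = 4 R^2`: for `n ≠ n'` in `A`, `jo n l * jo n' l = jo (n n') l` and
`|∑_{l < L+1} jo (n n') l| ≤ 4 n n' ≤ 4 R^2` (`abs_sum_jo_le`; `jo _ 0 = 0`).  `A ⊆ [1, R]`, so
`E |A| ≤ 4 R^3 ≤ P^m ≤ L`.  Hence `∑_{n ∈ A} (Sg P n)^(2m) ≤ 2 L ∑ b l ^ 2 ≤ 2 (2P)^m m! P^m`, while the left
side is at least `|A| P^(2m(1-η))`.
-/

set_option autoImplicit false

namespace Pool.Agent.P4f18dfT

open Finset Filter Pool.Agent.P4f18dfQ Pool.Agent.P4f18df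

namespace Rare

open NumberTheorySymbols

lemma card_tuples {m l : ℕ} (T : Finset (Fin m → ℕ))
    (hT : ∀ v ∈ T, (∀ i, (v i).Prime) ∧ ∏ i, v i = l) : T.card ≤ m.factorial := by
  classical
  have hperm : ∀ v ∈ T, List.Perm (List.ofFn v) (Nat.primeFactorsList l) := by
    intro v hv
    obtain ⟨h1, h2⟩ := hT v hv
    apply Nat.primeFactorsList_unique
    · rw [List.prod_ofFn, h2]
    · intro p hp
      obtain ⟨i, hi⟩ := (List.mem_ofFn' v p).1 hp
      rw [← hi]; exact h1 i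
  rcases T.eq_empty_or_nonempty with h | ⟨v₀, hv₀⟩
  · rw [h]; simp
  · have hlen : (Nat.primeFactorsList l).length = m := by
      rw [← (hperm v₀ hv₀).length_eq, List.length_ofFn]
    calc T.card = (T.image List.ofFn).card :=
          (Finset.card_image_of_injective _ List.ofFn_injective).symm
      _ ≤ ((Nat.primeFactorsList l).permutations.toFinset).card := by
          apply Finset.card_le_card
          intro x hx
          obtain ⟨v, hv, rfl⟩ := Finset.mem_image.1 hx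
          rw [List.mem_toFinset, List.mem_permutations]
          exact hperm v hv
      _ ≤ (Nat.primeFactorsList l).permutations.length := List.toFinset_card_le _
      _ = m.factorial := by rw [List.length_permutations, hlen]

lemma jac_prod (n : ℕ) {m : ℕ} (v : Fin m → ℕ) (hv : ∀ i, (v i).Prime ∧ v i % 2 = 1) :
    ((jo n (∏ i, v i) : ℤ) : ℝ) = ∏ i, lg (v i) n := by
  have key : ∀ s : Finset (Fin m), (∏ i ∈ s, v i) % 2 = 1 ∧
      ((J((n : ℤ) | ∏ i ∈ s, v i) : ℤ) : ℝ) = ∏ i ∈ s, lg (v i) n := by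
    classical
    intro s
    induction s using Finset.induction_on with
    | empty => simp
    | insert a s ha ih =>
      rw [Finset.prod_insert ha, Finset.prod_insert ha]
      refine ⟨?_, ?_⟩
      · rw [Nat.mul_mod, (hv a).2, ih.1]
      · rw [jacobiSym.mul_right' _ (hv a).1.ne_zero (by
          intro h0
          have := ih.1
          rw [h0] at this
          simp at this)]
        push_cast
        rw [ih.2]
        rfl
  obtain ⟨h1, h2⟩ := key univ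
  unfold jo
  rw [if_pos h1, h2]

lemma jo_mul_left (n n' l : ℕ) : jo (n * n') l = jo n l * jo n' l := by
  unfold jo
  split_ifs
  · push_cast
    rw [jacobiSym.mul_left]
  · simp

/-- number of tuples with product `l` -/
noncomputable def bb (m P l : ℕ) : ℝ :=
  (((Fintype.piFinset (fun _ : Fin m => PP P)).filter (fun v => ∏ i, v i = l)).card : ℝ)

lemma mem_prime {m P : ℕ} (hP : 2 ≤ P) {v : Fin m → ℕ}
    (hv : v ∈ Fintype.piFinset (fun _ : Fin m => PP P)) (i : Fin m) :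
    (v i).Prime ∧ v i % 2 = 1 := by
  have h1 := mem_PP.1 (Fintype.mem_piFinset.1 hv i)
  refine ⟨h1.2, ?_⟩
  rcases h1.2.eq_two_or_odd with h | h
  · omega
  · exact h

lemma mem_prod {m P : ℕ} {v : Fin m → ℕ}
    (hv : v ∈ Fintype.piFinset (fun _ : Fin m => PP P)) : ∏ i, v i ∈ Ioc 0 ((2 * P) ^ m) := by
  have h1 := fun i => mem_PP.1 (Fintype.mem_piFinset.1 hv i)
  rw [Finset.mem_Ioc]
  refine ⟨Finset.prod_pos fun i _ => (h1 i).2.pos, ?_⟩
  calc ∏ i, v i ≤ (2 * P) ^ (univ : Finset (Fin m)).card :=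
        Finset.prod_le_pow_card _ _ _ fun i _ => (h1 i).1.2
    _ = (2 * P) ^ m := by rw [Finset.card_univ, Fintype.card_fin]

lemma Sg_pow {m P : ℕ} (hP : 2 ≤ P) (n : ℕ) :
    (Sg P n) ^ m = ∑ l ∈ Ioc 0 ((2 * P) ^ m), bb m P l * ((jo n l : ℤ) : ℝ) := by
  classical
  have h1 : (Sg P n) ^ m = ∏ _i : Fin m, ∑ p ∈ PP P, lg p n := by
    rw [Finset.prod_const, Finset.card_univ, Fintype.card_fin]; rfl
  rw [h1, Finset.prod_univ_sum]
  rw [← Finset.sum_fiberwise_of_maps_to (g := fun v : Fin m → ℕ => ∏ i, v i)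
    (t := Ioc 0 ((2 * P) ^ m)) (fun v hv => mem_prod hv)]
  refine Finset.sum_congr rfl fun l _ => ?_
  unfold bb
  rw [← nsmul_eq_mul, ← Finset.sum_const]
  refine Finset.sum_congr rfl fun v hv => ?_
  obtain ⟨hv1, hv2⟩ := Finset.mem_filter.1 hv
  rw [← hv2]
  exact (jac_prod n v (fun i => mem_prime hP hv1 i)).symm

lemma bb_nonneg (m P l : ℕ) : 0 ≤ bb m P l := Nat.cast_nonneg _

lemma bb_le {m P : ℕ} (hP : 2 ≤ P) (l : ℕ) : bb m P l ≤ m.factorial := by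
  unfold bb
  have : ((Fintype.piFinset (fun _ : Fin m => PP P)).filter (fun v => ∏ i, v i = l)).card ≤
      m.factorial := by
    apply card_tuples (l := l)
    intro v hv
    obtain ⟨hv1, hv2⟩ := Finset.mem_filter.1 hv
    exact ⟨fun i => (mem_prime hP hv1 i).1, hv2⟩
  exact_mod_cast this

lemma sum_bb (m P : ℕ) : ∑ l ∈ Ioc 0 ((2 * P) ^ m), bb m P l ≤ (P : ℝ) ^ m := by
  classical
  have h1 : ∑ l ∈ Ioc 0 ((2 * P) ^ m),
      ((Fintype.piFinset (fun _ : Fin m => PP P)).filter (fun v => ∏ i, v i = l)).card =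
      (Fintype.piFinset (fun _ : Fin m => PP P)).card :=
    (Finset.card_eq_sum_card_fiberwise (fun v hv => mem_prod hv)).symm
  have h2 : (Fintype.piFinset (fun _ : Fin m => PP P)).card = (PP P).card ^ m := by
    rw [Fintype.card_piFinset, Finset.prod_const, Finset.card_univ, Fintype.card_fin]
  unfold bb
  rw [← Nat.cast_sum, h1, h2, Nat.cast_pow]
  exact pow_le_pow_left₀ (Nat.cast_nonneg _) (by exact_mod_cast card_PP_le P) m

lemma sum_bb_sq {m P : ℕ} (hP : 2 ≤ P) :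
    ∑ l ∈ Ioc 0 ((2 * P) ^ m), bb m P l ^ 2 ≤ m.factorial * (P : ℝ) ^ m := by
  calc ∑ l ∈ Ioc 0 ((2 * P) ^ m), bb m P l ^ 2 ≤
        ∑ l ∈ Ioc 0 ((2 * P) ^ m), (m.factorial : ℝ) * bb m P l := by
        refine Finset.sum_le_sum fun l _ => ?_
        rw [sq]
        exact mul_le_mul_of_nonneg_right (bb_le hP l) (bb_nonneg _ _ _)
    _ = m.factorial * ∑ l ∈ Ioc 0 ((2 * P) ^ m), bb m P l := by rw [Finset.mul_sum]
    _ ≤ m.factorial * (P : ℝ) ^ m :=
        mul_le_mul_of_nonneg_left (sum_bb m P) (Nat.cast_nonneg _)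

lemma near {n n' R : ℕ} (hn : 1 ≤ n ∧ n ≤ R) (hn' : 1 ≤ n' ∧ n' ≤ R) (h : ¬ IsSquare (n * n'))
    (L : ℕ) : |∑ l ∈ Ioc 0 L, ((jo n l : ℤ) : ℝ) * ((jo n' l : ℤ) : ℝ)| ≤ 4 * (R : ℝ) ^ 2 := by
  have h0 : 0 < n * n' := Nat.mul_pos (by omega) (by omega)
  have h1 := abs_sum_jo_le h0 h (L + 1)
  have h2 : ∑ d ∈ range (L + 1), jo (n * n') d = ∑ d ∈ Ioc 0 L, jo n d * jo n' d := by
    rw [Finset.sum_range_succ']
    have e0 : jo (n * n') 0 = 0 := by unfold jo; rw [if_neg (by norm_num)]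
    rw [e0, add_zero]
    have e1 : Ioc 0 L = (range L).image (fun i => i + 1) := by
      ext a
      simp only [Finset.mem_Ioc, Finset.mem_image, Finset.mem_range]
      constructor
      · intro ha; exact ⟨a - 1, by omega, by omega⟩
      · rintro ⟨i, hi, rfl⟩; omega
    rw [e1, Finset.sum_image (fun a _ b _ hab => by simpa using hab)]
    exact Finset.sum_congr rfl fun d _ => jo_mul_left _ _ _
  rw [h2] at h1
  have h3 : ((|∑ d ∈ Ioc 0 L, jo n d * jo n' d| : ℤ) : ℝ) ≤ ((4 * ((n * n' : ℕ) : ℤ) : ℤ) : ℝ) := by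
    exact_mod_cast h1
  rw [Int.cast_abs, Int.cast_sum] at h3
  have h4 : n * n' ≤ R * R := Nat.mul_le_mul hn.2 hn'.2
  have h5 : ((n * n' : ℕ) : ℝ) ≤ (R : ℝ) * R := by exact_mod_cast h4
  calc |∑ l ∈ Ioc 0 L, ((jo n l : ℤ) : ℝ) * ((jo n' l : ℤ) : ℝ)|
      = |∑ i ∈ Ioc 0 L, ((jo n i * jo n' i : ℤ) : ℝ)| := by
        congr 1
        exact Finset.sum_congr rfl fun l _ => (Int.cast_mul _ _).symm
    _ ≤ ((4 * ((n * n' : ℕ) : ℤ) : ℤ) : ℝ) := h3
    _ = 4 * ((n * n' : ℕ) : ℝ) := by push_cast; ring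
    _ ≤ 4 * (R : ℝ) ^ 2 := by rw [sq]; linarith

lemma jo_sq_le (n l : ℕ) : ((jo n l : ℤ) : ℝ) ^ 2 ≤ 1 := by
  have h : |((jo n l : ℤ) : ℝ)| ≤ 1 := by
    rw [← Int.cast_abs]
    exact_mod_cast abs_jo_le n l
  rw [← sq_abs]
  exact pow_le_one₀ (abs_nonneg _) h

lemma fin {A P X Y F S T : ℝ} {m : ℕ} (hP : 0 < P) (η : ℝ) (hX : X = P ^ (1 - η))
    (hY : Y = P ^ (2 * m * η)) (hF : 0 ≤ F)
    (h1 : A * (X ^ m) ^ 2 ≤ S) (h2 : S ≤ T * (F * P ^ m)) (hT : T ≤ 2 * (2 * P) ^ m) :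
    A ≤ 2 ^ (m + 1) * F * Y := by
  have hX0 : 0 < X := by rw [hX]; exact Real.rpow_pos_of_pos hP _
  have hXY : (X ^ m) ^ 2 * Y = (P ^ m) ^ 2 := by
    rw [hX, hY, ← pow_mul, ← pow_mul, ← Real.rpow_natCast, ← Real.rpow_natCast,
      ← Real.rpow_mul hP.le, ← Real.rpow_add hP]
    congr 1
    push_cast
    ring
  have h3 : A * (X ^ m) ^ 2 ≤ 2 * (2 * P) ^ m * (F * P ^ m) :=
    (h1.trans h2).trans (mul_le_mul_of_nonneg_right hT (by positivity))
  have h4 : 2 * (2 * P) ^ m * (F * P ^ m) = (2 ^ (m + 1) * F * Y) * (X ^ m) ^ 2 := by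
    calc 2 * (2 * P) ^ m * (F * P ^ m) = 2 ^ (m + 1) * F * (P ^ m) ^ 2 := by
          rw [mul_pow]; ring
      _ = 2 ^ (m + 1) * F * ((X ^ m) ^ 2 * Y) := by rw [hXY]
      _ = _ := by ring
  rw [h4] at h3
  exact le_of_mul_le_mul_right h3 (by positivity)

end Rare

open Rare in
theorem rare (m P R : ℕ) (hm : 1 ≤ m) (hP : 2 ≤ P) (hR : 4 * R ^ 3 ≤ P ^ m) (η : ℝ)
    (A : Finset ℕ) (hA1 : ∀ n ∈ A, 1 ≤ n ∧ n ≤ R)
    (hA2 : ∀ n ∈ A, ∀ n' ∈ A, n ≠ n' → ¬ IsSquare (n * n'))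
    (hA3 : ∀ n ∈ A, (P : ℝ) ^ (1 - η) ≤ |Sg P n|) :
    (A.card : ℝ) ≤ 2 ^ (m + 1) * m.factorial * (P : ℝ) ^ (2 * m * η) := by
  classical
  have hPr : (0 : ℝ) < P := by exact_mod_cast (by omega : 0 < P)
  have hd := duality_of_near_orth A (Ioc 0 ((2 * P) ^ m)) (fun n l => ((jo n l : ℤ) : ℝ))
    (((2 * P) ^ m : ℕ) : ℝ) (4 * (R : ℝ) ^ 2) (Nat.cast_nonneg _) (by positivity)
    (by
      intro i _
      calc ∑ l ∈ Ioc 0 ((2 * P) ^ m), ((jo i l : ℤ) : ℝ) ^ 2 ≤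
            ∑ _l ∈ Ioc 0 ((2 * P) ^ m), (1 : ℝ) := Finset.sum_le_sum fun l _ => jo_sq_le i l
        _ = (((2 * P) ^ m : ℕ) : ℝ) := by
            rw [Finset.sum_const, Nat.card_Ioc, nsmul_eq_mul, mul_one, Nat.sub_zero])
    (by
      intro i hi j hj hij
      exact near (hA1 i hi) (hA1 j hj) (hA2 i hi j hj hij) _)
    (fun l => bb m P l)
  have h1 : (A.card : ℝ) * (((P : ℝ) ^ (1 - η)) ^ m) ^ 2 ≤
      ∑ n ∈ A, (∑ l ∈ Ioc 0 ((2 * P) ^ m), bb m P l * ((jo n l : ℤ) : ℝ)) ^ 2 := by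
    rw [← nsmul_eq_mul, ← Finset.sum_const]
    refine Finset.sum_le_sum fun n hn => ?_
    rw [← Sg_pow hP n, ← sq_abs ((Sg P n) ^ m), abs_pow]
    apply pow_le_pow_left₀ (by positivity)
    exact pow_le_pow_left₀ (by positivity) (hA3 n hn) m
  have hcard : A.card ≤ R := by
    calc A.card ≤ (Ioc 0 R).card := by
          apply Finset.card_le_card
          intro n hn
          rw [Finset.mem_Ioc]
          have := hA1 n hn
          omega
      _ = R := by rw [Nat.card_Ioc, Nat.sub_zero]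
  have hT : (((2 * P) ^ m : ℕ) : ℝ) + 4 * (R : ℝ) ^ 2 * A.card ≤ 2 * (2 * (P : ℝ)) ^ m := by
    have e1 : (A.card : ℝ) ≤ R := by exact_mod_cast hcard
    have e2 : 4 * (R : ℝ) ^ 2 * A.card ≤ 4 * (R : ℝ) ^ 3 := by
      calc 4 * (R : ℝ) ^ 2 * A.card ≤ 4 * (R : ℝ) ^ 2 * R :=
            mul_le_mul_of_nonneg_left e1 (by positivity)
        _ = 4 * (R : ℝ) ^ 3 := by ring
    have e3 : 4 * (R : ℝ) ^ 3 ≤ (P : ℝ) ^ m := by exact_mod_cast hR
    have e4 : (P : ℝ) ^ m ≤ (2 * (P : ℝ)) ^ m := pow_le_pow_left₀ hPr.le (by linarith) m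
    push_cast
    linarith
  have hL0 : (0 : ℝ) ≤ (((2 * P) ^ m : ℕ) : ℝ) + 4 * (R : ℝ) ^ 2 * A.card := by positivity
  exact fin hPr η rfl rfl (Nat.cast_nonneg _) h1
    (hd.trans (mul_le_mul_of_nonneg_left (sum_bb_sq hP) hL0)) hT

end Pool.Agent.P4f18dfT
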