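import Pool.Agent.Lib.P4f18dfT.SqSieve
import Pool.Agent.Lib.P4f18dfT.Rare
import Pool.Agent.Lib.P4f18dfT.Pairs

/-!
# The mean square over primes in the middle range

Module TW.MidSieve.  Expand: the left side is `∑_{x, y} b x b y Sg P (F x F y)`, at most
`∑_{x, y} |Sg P (F x F y)|`.  Let `R = (2 N)^(2 k)`, so `1 ≤ F x F y ≤ R` (`x + s ≤ 2 N`), and
`R ≤ (4 P^3)^(2k) ≤ P^(7k)` for large `P`; let `m = 22 k`, so `4 R^3 ≤ P^m` for large `P`.  Let
`η = a / (64 m)` and `A` = the squarefree `κ ≤ R` with `|Sg P κ| ≥ P^(1-η)`; by `rare`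
(two different squarefree numbers never have a square product)
`|A| ≤ C P^(2 m η) = C P^(a/32)`.  Write `F x F y = κ w²`, `κ` squarefree (`Nat.sq_mul_squarefree`).
If `κ ∉ A`, `|Sg P (F x F y)| ≤ P^(1-η) + 7 k` (`Sg_class`, `card_dvd` with `r = 7 k`, `F x F y < P^(7k+1)`).
If `κ ∈ A`: `|Sg| ≤ P` and there are at most `SqK S N κ ≤ SqP S N ≤ N^(15/8)` such pairs
(`sqK_le`, `square_sieve` for each `m' = S.card ∈ [1, k]`, take the maximum of the `N₀`;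
`s ≤ P^c ≤ P^(a/8) ≤ N^(1/8)`).  Total
`≤ N² (P^(1-η) + 7k) + P |A| N^(15/8) ≤ N² (P^(1-η) + 7 k + C P^(1 + a/32 - a/8))` as `N ≥ P^a`;
`c = min (η/2) (a/16)` works for large `P`.
-/

set_option autoImplicit false

namespace Pool.Agent.P4f18dfT

open Finset Filter Pool.Agent.P4f18dfQ Pool.Agent.P4f18df

namespace MidSieve

theorem expand (S : Finset ℕ) (N P : ℕ) (b : ℕ → ℝ) (hb : ∀ n, |b n| ≤ 1) :
    ∑ p ∈ PP P, (∑ n ∈ Ioc 0 N, b n * lg p (Fs S n)) ^ 2 ≤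
      ∑ z ∈ (Ioc 0 N) ×ˢ (Ioc 0 N), |Sg P (Fs S z.1 * Fs S z.2)| := by
  have h1 : ∀ p, (∑ n ∈ Ioc 0 N, b n * lg p (Fs S n)) ^ 2 =
      ∑ z ∈ (Ioc 0 N) ×ˢ (Ioc 0 N), (b z.1 * b z.2) * lg p (Fs S z.1 * Fs S z.2) := by
    intro p
    rw [sq, Finset.sum_mul_sum, Finset.sum_product]
    refine Finset.sum_congr rfl fun x _ => Finset.sum_congr rfl fun y _ => ?_
    rw [lg_mul]
    ring
  rw [Finset.sum_congr rfl fun p _ => h1 p, Finset.sum_comm]
  refine Finset.sum_le_sum fun z _ => ?_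
  rw [← Finset.mul_sum]
  change (b z.1 * b z.2) * Sg P (Fs S z.1 * Fs S z.2) ≤ _
  calc (b z.1 * b z.2) * Sg P (Fs S z.1 * Fs S z.2)
      ≤ |(b z.1 * b z.2) * Sg P (Fs S z.1 * Fs S z.2)| := le_abs_self _
    _ = |b z.1| * |b z.2| * |Sg P (Fs S z.1 * Fs S z.2)| := by rw [abs_mul, abs_mul]
    _ ≤ 1 * 1 * |Sg P (Fs S z.1 * Fs S z.2)| := by
        gcongr
        · exact hb _
        · exact hb _
    _ = _ := by ring

theorem Sg_le (P n : ℕ) : |Sg P n| ≤ P := by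
  unfold Sg
  calc |∑ p ∈ PP P, lg p n| ≤ ∑ p ∈ PP P, |lg p n| := Finset.abs_sum_le_sum_abs _ _
    _ ≤ ∑ p ∈ PP P, (1:ℝ) := Finset.sum_le_sum fun p _ => abs_lg_le p n
    _ = ((PP P).card : ℝ) := by simp
    _ ≤ P := by exact_mod_cast card_PP_le P

theorem sqf_unique {n n' : ℕ} (h1 : Squarefree n) (h2 : Squarefree n') (h : IsSquare (n * n')) :
    n = n' := by
  obtain ⟨w, hw⟩ := h
  have hn0 : 0 < n := Nat.pos_of_ne_zero h1.ne_zero
  have hd : n ∣ w ^ 2 := ⟨n', by rw [sq, hw]⟩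
  have hd' : n ∣ w := (h1.dvd_pow_iff_dvd (by norm_num)).1 hd
  obtain ⟨t, rfl⟩ := hd'
  have h3 : n' = t * t * n := by
    have : n * n' = n * (t * t * n) := by
      rw [hw]
      ring
    exact Nat.eq_of_mul_eq_mul_left hn0 this
  have h4 : IsUnit t := h2 t ⟨n, h3⟩
  rw [Nat.isUnit_iff] at h4
  rw [h3, h4]
  ring

theorem count_le (S A : Finset ℕ) (N : ℕ) (kap wap : ℕ → ℕ)
    (hk : ∀ n, wap n ^ 2 * kap n = n) (hA : ∀ κ ∈ A, 1 ≤ κ) :
    (((Ioc 0 N) ×ˢ (Ioc 0 N)).filter (fun z => kap (Fs S z.1 * Fs S z.2) ∈ A)).card ≤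
      A.card * SqP S N := by
  classical
  rw [Finset.card_eq_sum_card_fiberwise (f := fun z : ℕ × ℕ => kap (Fs S z.1 * Fs S z.2)) (t := A)
    (s := ((Ioc 0 N) ×ˢ (Ioc 0 N)).filter (fun z => kap (Fs S z.1 * Fs S z.2) ∈ A))
    (fun z hz => (Finset.mem_filter.1 (Finset.mem_coe.1 hz)).2)]
  calc _ ≤ ∑ κ ∈ A, SqP S N := by
        refine Finset.sum_le_sum fun κ hκ => ?_
        refine le_trans ?_ (sqK_le S N κ (hA κ hκ))
        unfold SqK
        refine Finset.card_le_card ?_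
        intro z hz
        rw [Finset.mem_filter, Finset.mem_filter] at hz
        rw [Finset.mem_filter]
        refine ⟨hz.1.1, ⟨wap (Fs S z.1 * Fs S z.2) * κ, ?_⟩⟩
        have h1 := hk (Fs S z.1 * Fs S z.2)
        rw [hz.2] at h1
        calc Fs S z.1 * Fs S z.2 * κ = (wap (Fs S z.1 * Fs S z.2) ^ 2 * κ) * κ := by rw [h1]
          _ = _ := by ring
    _ = A.card * SqP S N := by
        rw [Finset.sum_const, smul_eq_mul]

theorem Fs_le {S : Finset ℕ} {N k x : ℕ} (hN : 1 ≤ N) (hk : S.card ≤ k) (hx : x ∈ Ioc 0 N)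
    (hs : ∀ s ∈ S, s ≤ N) : 1 ≤ Fs S x ∧ Fs S x ≤ (2 * N) ^ k := by
  rw [Finset.mem_Ioc] at hx
  unfold Fs
  constructor
  · exact Nat.one_le_iff_ne_zero.2 (Finset.prod_ne_zero_iff.2 fun s _ => by omega)
  · calc ∏ s ∈ S, (x + s) ≤ ∏ s ∈ S, (2 * N) := by
          refine Finset.prod_le_prod' fun s h => ?_
          have := hs s h
          omega
      _ = (2 * N) ^ S.card := by rw [Finset.prod_const]
      _ ≤ (2 * N) ^ k := Nat.pow_le_pow_right (by omega) hk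

theorem ev_pow (K e e' : ℝ) (h : e < e') :
    ∀ᶠ P : ℕ in atTop, K * (P : ℝ) ^ e ≤ (P : ℝ) ^ e' := by
  have h1 : Tendsto (fun P : ℕ => (P : ℝ) ^ (e' - e)) atTop atTop :=
    (tendsto_rpow_atTop (by linarith)).comp tendsto_natCast_atTop_atTop
  filter_upwards [h1.eventually_ge_atTop K, eventually_ge_atTop 1] with P hP h1P
  have hP0 : (0:ℝ) < P := by exact_mod_cast h1P
  calc K * (P : ℝ) ^ e ≤ (P : ℝ) ^ (e' - e) * (P : ℝ) ^ e := by gcongr
    _ = (P : ℝ) ^ e' := by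
        rw [← Real.rpow_add hP0]
        congr 1
        ring

end MidSieve

open MidSieve

theorem mid_sieve (k : ℕ) (a : ℝ) (ha : 0 < a) : ∃ c : ℝ, 0 < c ∧ ∃ P₀ : ℕ, ∀ P : ℕ, P₀ ≤ P →
    ∀ N : ℕ, (P : ℝ) ^ a ≤ N → N ≤ 2 * P ^ 3 → ∀ S : Finset ℕ, S.Nonempty → S.card ≤ k →
      (∀ s ∈ S, (s : ℝ) ≤ (P : ℝ) ^ c) → ∀ b : ℕ → ℝ, (∀ n, |b n| ≤ 1) →
        ∑ p ∈ PP P, (∑ n ∈ Ioc 0 N, b n * lg p (Fs S n)) ^ 2 ≤
          (N : ℝ) ^ 2 * (P : ℝ) ^ (1 - c) := by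
  classical
  rcases Nat.eq_zero_or_pos k with rfl | hk
  · exact ⟨1, one_pos, 0, fun P _ N _ _ S hS hc => absurd (Finset.card_pos.2 hS) (by omega)⟩
  set m : ℕ := 22 * k with hm
  have hm0 : (0:ℝ) < m := by
    have : 0 < m := by omega
    exact_mod_cast this
  set η : ℝ := a / (64 * m) with hη
  have hη0 : 0 < η := by positivity
  set C : ℝ := 2 ^ (m + 1) * m.factorial with hC
  have hC0 : 0 < C := by positivity
  set c : ℝ := min (min (η / 2) (a / 16)) (1 / 2) with hc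
  have hc0 : 0 < c := lt_min (lt_min (by positivity) (by positivity)) (by norm_num)
  have hc1 : c ≤ η / 2 := (min_le_left _ _).trans (min_le_left _ _)
  have hc2 : c ≤ a / 16 := (min_le_left _ _).trans (min_le_right _ _)
  have hc3 : c ≤ 1 / 2 := min_le_right _ _
  have hs : ∀ m' : ℕ, ∃ N₀ : ℕ, 1 ≤ m' → ∀ N : ℕ, N₀ ≤ N → ∀ S : Finset ℕ,
      S.card = m' → (∀ s ∈ S, (s : ℝ) ≤ (N : ℝ) ^ (1 / 8 : ℝ)) →
      (SqP S N : ℝ) ≤ (N : ℝ) ^ (15 / 8 : ℝ) := by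
    intro m'
    rcases Nat.eq_zero_or_pos m' with h0 | h0
    · exact ⟨0, fun h => absurd h (by omega)⟩
    · obtain ⟨N₀, h⟩ := square_sieve m' h0
      exact ⟨N₀, fun _ => h⟩
  choose N0 hN0 using hs
  set M : ℕ := (range (k + 1)).sup N0 with hM
  have e1 := (eventually_ge_atTop 16 : ∀ᶠ P : ℕ in atTop, 16 ≤ P)
  have e2 := ev_pow (M : ℝ) 0 a ha
  have e3 := ev_pow 3 (1 - η) (1 - c) (by linarith)
  have e4 := ev_pow (21 * k) 0 (1 - c) (by linarith)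
  have e5 := ev_pow (3 * C) (1 - 3 * a / 32) (1 - c) (by linarith)
  obtain ⟨P₀, hP₀⟩ := Filter.eventually_atTop.1 (e1.and (e2.and (e3.and (e4.and e5))))
  refine ⟨c, hc0, P₀, fun P hP N hN1 hN2 S hS hSk hSc b hb => ?_⟩
  obtain ⟨f1, f2, f3, f4, f5⟩ := hP₀ P hP
  rw [Real.rpow_zero, mul_one] at f2 f4
  have hP0 : (0:ℝ) < P := by
    have : 0 < P := by omega
    exact_mod_cast this
  have hP1 : (1:ℝ) ≤ P := by
    have : 1 ≤ P := by omega
    exact_mod_cast this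
  have hPa : (1:ℝ) ≤ (P : ℝ) ^ a := Real.one_le_rpow hP1 ha.le
  have hN1' : (1:ℝ) ≤ N := hPa.trans hN1
  have hN : 1 ≤ N := by exact_mod_cast hN1'
  have hNpos : (0:ℝ) < N := by linarith
  -- the shifts
  have hsN : ∀ s ∈ S, s ≤ N := by
    intro s h
    have h1 := hSc s h
    have h2 : (P : ℝ) ^ c ≤ (P : ℝ) ^ a := Real.rpow_le_rpow_of_exponent_le hP1 (by linarith)
    exact_mod_cast h1.trans (h2.trans hN1)
  have hs8 : ∀ s ∈ S, (s : ℝ) ≤ (N : ℝ) ^ (1 / 8 : ℝ) := by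
    intro s h
    have h1 := hSc s h
    have h2 : (P : ℝ) ^ c ≤ (P : ℝ) ^ (a * (1 / 8)) :=
      Real.rpow_le_rpow_of_exponent_le hP1 (by linarith)
    have h3 : (P : ℝ) ^ (a * (1 / 8)) ≤ (N : ℝ) ^ (1 / 8 : ℝ) := by
      rw [Real.rpow_mul hP0.le]
      exact Real.rpow_le_rpow (by positivity) hN1 (by norm_num)
    exact h1.trans (h2.trans h3)
  -- the square sieve
  have hsq : (SqP S N : ℝ) ≤ (N : ℝ) ^ (15 / 8 : ℝ) := by
    refine hN0 S.card (Finset.card_pos.2 hS) N ?_ S rfl hs8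
    have h1 : N0 S.card ≤ M := Finset.le_sup (f := N0) (Finset.mem_range.2 (by omega))
    have h2 : (M : ℝ) ≤ N := f2.trans hN1
    have h3 : M ≤ N := by exact_mod_cast h2
    exact h1.trans h3
  -- sizes
  set R : ℕ := (2 * N) ^ (2 * k) with hR
  have hRP : R ≤ P ^ (7 * k) := by
    calc (2 * N) ^ (2 * k) ≤ (4 * P ^ 3) ^ (2 * k) := Nat.pow_le_pow_left (by omega) _
      _ = 16 ^ k * P ^ (6 * k) := by
          rw [mul_pow, ← pow_mul, pow_mul 4 2 k]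
          norm_num
          ring
      _ ≤ P ^ k * P ^ (6 * k) := by
          gcongr
      _ = P ^ (7 * k) := by
          rw [← pow_add]
          congr 1
          ring
  have hR3 : 4 * R ^ 3 ≤ P ^ m := by
    calc 4 * R ^ 3 ≤ P ^ k * (P ^ (7 * k)) ^ 3 := by
          gcongr
          calc 4 ≤ P := by omega
            _ = P ^ 1 := (pow_one P).symm
            _ ≤ P ^ k := Nat.pow_le_pow_right (by omega) hk
      _ = P ^ m := by
          rw [← pow_mul, ← pow_add, hm]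
          congr 1
          ring
  set A : Finset ℕ := (Icc 1 R).filter (fun κ => Squarefree κ ∧ (P : ℝ) ^ (1 - η) ≤ |Sg P κ|)
    with hA
  have hcardA : (A.card : ℝ) ≤ C * (P : ℝ) ^ (a / 32) := by
    have h1 := rare m P R (by omega) (by omega) hR3 η A
      (fun n hn => by
        rw [hA, Finset.mem_filter, Finset.mem_Icc] at hn
        exact hn.1)
      (fun n hn n' hn' hne hsq' => by
        rw [hA, Finset.mem_filter] at hn hn'
        exact hne (sqf_unique hn.2.1 hn'.2.1 hsq'))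
      (fun n hn => by
        rw [hA, Finset.mem_filter] at hn
        exact hn.2.2)
    have h2 : 2 * (m : ℝ) * η = a / 32 := by
      rw [hη]
      field_simp
      ring
    rwa [h2] at h1
  choose kap wap hkw using Nat.sq_mul_squarefree
  have hk1 : ∀ n, wap n ^ 2 * kap n = n := fun n => (hkw n).1
  -- pointwise bound
  have hpt : ∀ z ∈ (Ioc 0 N) ×ˢ (Ioc 0 N), |Sg P (Fs S z.1 * Fs S z.2)| ≤
      ((P : ℝ) ^ (1 - η) + 7 * k) +
        (if kap (Fs S z.1 * Fs S z.2) ∈ A then (P : ℝ) else 0) := by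
    intro z hz
    rw [Finset.mem_product] at hz
    obtain ⟨x1, x2⟩ := Fs_le hN hSk hz.1 hsN
    obtain ⟨y1, y2⟩ := Fs_le hN hSk hz.2 hsN
    set n : ℕ := Fs S z.1 * Fs S z.2 with hn
    have hn1 : 1 ≤ n := Nat.mul_pos x1 y1
    have hnR : n ≤ R := by
      calc n ≤ (2 * N) ^ k * (2 * N) ^ k := Nat.mul_le_mul x2 y2
        _ = R := by
            rw [hR, ← pow_add]
            congr 1
            ring
    have hpos : 0 ≤ (P : ℝ) ^ (1 - η) + 7 * k := by positivity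
    by_cases hmem : kap n ∈ A
    · rw [if_pos hmem]
      linarith [Sg_le P n]
    · rw [if_neg hmem, add_zero]
      have hkn := hk1 n
      have hw1 : 1 ≤ wap n := by
        rcases Nat.eq_zero_or_pos (wap n) with h0 | h0
        · rw [h0] at hkn
          simp at hkn
          omega
        · exact h0
      have hk1' : 1 ≤ kap n := Nat.pos_of_ne_zero (hkw n).2.ne_zero
      have hkR : kap n ≤ R := by
        refine le_trans ?_ hnR
        calc kap n ≤ wap n ^ 2 * kap n := Nat.le_mul_of_pos_left _ (by positivity)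
          _ = n := hkn
      have hSk' : |Sg P (kap n)| < (P : ℝ) ^ (1 - η) := by
        by_contra hcon
        push Not at hcon
        exact hmem (Finset.mem_filter.2 ⟨Finset.mem_Icc.2 ⟨hk1', hkR⟩, (hkw n).2, hcon⟩)
      have h1 := Sg_class P (kap n) (wap n) hw1
      have h2 : kap n * wap n ^ 2 = n := by
        rw [mul_comm]
        exact hkn
      rw [h2] at h1
      have h3 : ((PP P).filter (fun p => p ∣ n)).card ≤ 7 * k := by
        apply card_dvd P n (7 * k) (by omega) hn1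
        calc n ≤ P ^ (7 * k) := hnR.trans hRP
          _ < P ^ (7 * k + 1) := Nat.pow_lt_pow_right (by omega) (by omega)
      have h4 : (((PP P).filter (fun p => p ∣ n)).card : ℝ) ≤ 7 * k := by exact_mod_cast h3
      have h5 : |Sg P n| ≤ |Sg P n - Sg P (kap n)| + |Sg P (kap n)| := by
        have := abs_add_le (Sg P n - Sg P (kap n)) (Sg P (kap n))
        rwa [sub_add_cancel] at this
      linarith
  refine (expand S N P b hb).trans ?_
  have hsum : ∑ z ∈ (Ioc 0 N) ×ˢ (Ioc 0 N), |Sg P (Fs S z.1 * Fs S z.2)| ≤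
      (N : ℝ) ^ 2 * ((P : ℝ) ^ (1 - η) + 7 * k) + C * (P : ℝ) ^ (a / 32) * (N : ℝ) ^ (15 / 8 : ℝ) * P := by
    refine (Finset.sum_le_sum hpt).trans ?_
    rw [Finset.sum_add_distrib, Finset.sum_const, ← Finset.sum_filter, Finset.sum_const,
      Finset.card_product, Nat.card_Ioc, nsmul_eq_mul, nsmul_eq_mul]
    have h1 : ((((Ioc 0 N) ×ˢ (Ioc 0 N)).filter
        (fun z : ℕ × ℕ => kap (Fs S z.1 * Fs S z.2) ∈ A)).card : ℝ) ≤
        (A.card : ℝ) * (SqP S N : ℝ) := by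
      exact_mod_cast count_le S A N kap wap hk1 (fun κ hκ => by
        rw [hA, Finset.mem_filter, Finset.mem_Icc] at hκ
        exact hκ.1.1)
    have h2 : (A.card : ℝ) * (SqP S N : ℝ) ≤ C * (P : ℝ) ^ (a / 32) * (N : ℝ) ^ (15 / 8 : ℝ) := by
      gcongr
    have h3 : (((N - 0) * (N - 0) : ℕ) : ℝ) = (N : ℝ) ^ 2 := by
      push_cast
      simp
      ring
    rw [h3]
    have h4 := mul_le_mul_of_nonneg_right (h1.trans h2) hP0.le
    linarith
  refine hsum.trans ?_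
  have hN8 : (N : ℝ) ^ (15 / 8 : ℝ) ≤ (N : ℝ) ^ 2 * (P : ℝ) ^ (-(a / 8)) := by
    have h1 : (N : ℝ) ^ (15 / 8 : ℝ) = (N : ℝ) ^ 2 * (N : ℝ) ^ (-(1 / 8) : ℝ) := by
      rw [← Real.rpow_natCast, ← Real.rpow_add hNpos]
      norm_num
    have h2 : (N : ℝ) ^ (-(1 / 8) : ℝ) ≤ ((P : ℝ) ^ a) ^ (-(1 / 8) : ℝ) :=
      Real.rpow_le_rpow_of_nonpos (by positivity) hN1 (by norm_num)
    have h3 : ((P : ℝ) ^ a) ^ (-(1 / 8) : ℝ) = (P : ℝ) ^ (-(a / 8)) := by
      rw [← Real.rpow_mul hP0.le]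
      congr 1
      ring
    rw [h1]
    rw [h3] at h2
    gcongr
  have hlast : C * (P : ℝ) ^ (a / 32) * (N : ℝ) ^ (15 / 8 : ℝ) * P ≤
      (N : ℝ) ^ 2 * (C * (P : ℝ) ^ (1 - 3 * a / 32)) := by
    calc C * (P : ℝ) ^ (a / 32) * (N : ℝ) ^ (15 / 8 : ℝ) * P
        ≤ C * (P : ℝ) ^ (a / 32) * ((N : ℝ) ^ 2 * (P : ℝ) ^ (-(a / 8))) * P := by gcongr
      _ = (N : ℝ) ^ 2 * (C * ((P : ℝ) ^ (a / 32) * (P : ℝ) ^ (-(a / 8)) * (P : ℝ) ^ (1:ℝ))) := by
          rw [Real.rpow_one]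
          ring
      _ = (N : ℝ) ^ 2 * (C * (P : ℝ) ^ (1 - 3 * a / 32)) := by
          rw [← Real.rpow_add hP0, ← Real.rpow_add hP0]
          congr 3
          ring
  have hN2pos : 0 ≤ (N : ℝ) ^ 2 := by positivity
  calc (N : ℝ) ^ 2 * ((P : ℝ) ^ (1 - η) + 7 * k) +
        C * (P : ℝ) ^ (a / 32) * (N : ℝ) ^ (15 / 8 : ℝ) * P
      ≤ (N : ℝ) ^ 2 * ((P : ℝ) ^ (1 - η) + 7 * k) +
        (N : ℝ) ^ 2 * (C * (P : ℝ) ^ (1 - 3 * a / 32)) := by linarith
    _ = (N : ℝ) ^ 2 * ((P : ℝ) ^ (1 - η) + 7 * k + C * (P : ℝ) ^ (1 - 3 * a / 32)) := by ring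
    _ ≤ (N : ℝ) ^ 2 * (P : ℝ) ^ (1 - c) := by
        gcongr
        linarith

end Pool.Agent.P4f18dfT
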