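import Pool.Agent.Lib.P4f18dfT.MidBad
import Pool.Agent.Lib.P4f18dfQ.BadL

/-!
# The exceptional primes of the middle and large ranges

Module TW.NetMid.  For `N ≥ P^3` this is `bad_law` of `Lib/P4f18dfQ/BadL.lean` (with `η = 1/2`, say:
`P^(1/2) / 2 ≤ P^(1-c) / 2` for `c ≤ 1/4`).  For `P^a ≤ N ≤ P^3` the same proof with `card_bad_mid` (applied
with `a / 2`): net `Net s E` with `12 K P^(cK) ≤ 2^s ≤ 24 K P^(cK)` and `8 P^3 < 2^E`, `E ≤ 3 log₂ P + 10`
(`E ≤ P^c` for large `P`); `B` = union over `k ∈ Icc 1 K`, `h ∈ Icc 1 ⌊P^c⌋₊`, `n ∈ Net s E` with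
`P^(a/2) ≤ n ≤ 2 P^3 ...` of the sets of `card_bad_mid`; its cardinality is at most
`K P^c (2^(s+1) (E+1)) P^(1-c₁) ≤ P^(1-c) / 2` for `c` small in terms of `c₁`, `K`.  The lemma
`BadL.bound_all` has the lower limit `P^3` for the net points; here one needs the same lemma with an
arbitrary lower limit `N₀` (`hnet : ∀ n ∈ Net s E, N₀ ≤ n → ...`, `N₀ ≤ N`; the net point used is
`n ≥ N`, `n ≤ 2 N ≤ 4 P^3` — to stay inside the range `n ≤ 2 P^3` of `card_bad_mid` use it for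
`P^a ≤ N ≤ P^3` and for `2 N ≤ 2 P^3` choose the LOWER net point `n ≤ 2N` instead, or prove
`card_bad_mid` up to `2 P^3` and use `bad_law`'s own bound for the net points `≥ P^3`; simplest: treat
`N ≤ P^3 / 4` by the middle range and `P^3 / 8 ≤ N` by a second copy of the argument with
`card_bad_all`, whose hypothesis is only `P^3 ≤ 8 N`).
-/

set_option autoImplicit false

namespace Pool.Agent.P4f18dfT

open Finset Filter Pool.Agent.P4f18dfQ Pool.Agent.P4f18df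

namespace NetMid

open Pool.Agent.P4f18dfQ.BadL

/-- the bound for all `N` from the bound on the net -/
theorem bound_allX {K : ℕ} (hK : 1 ≤ K) {T X : ℝ} (hT : 1 ≤ T) {s E p : ℕ} (hp : p.Prime)
    (hs : 12 * K * T ^ K ≤ 2 ^ s) (hE : 8 * Real.exp T < 2 ^ E)
    {k h : ℕ} (hk : k ∈ Icc 1 K) (hh1 : 1 ≤ h) (hhT : (h : ℝ) ≤ T)
    (hnet : ∀ n ∈ Net s E, X ≤ (n : ℝ) →
      |Ek (fq p) k n h| ≤ 1 / (12 * K) * (Real.sqrt h) ^ k * n)
    {N : ℕ} (hN1 : X ≤ (N : ℝ)) (hN2 : (N : ℝ) ≤ 2 * Real.exp T) :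
    |Ek (fq p) k N h| ≤ 1 / (4 * K) * (Real.sqrt h) ^ k * N := by
  have hK0 : (1 : ℝ) ≤ K := by exact_mod_cast hK
  rw [mem_Icc] at hk
  have hN3 : N < 2 ^ (s + E) := by
    have h1 : (N : ℝ) < 2 ^ E := by
      have := Real.exp_pos T
      linarith
    have h2 : (2 : ℝ) ^ E ≤ 2 ^ (s + E) := pow_le_pow_right₀ (by norm_num) (by omega)
    exact_mod_cast h1.trans_le h2
  obtain ⟨n₁, _, n, hn, h1, h2, h3⟩ := exists_net hN3
  have h4 : (n - N) * 2 ^ s ≤ N :=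
    (Nat.mul_le_mul_right _ (Nat.sub_le_sub_left h1 n)).trans h3
  have h5 : ((n : ℝ) - N) * 2 ^ s ≤ N := by
    have : (((n - N : ℕ) : ℝ)) * 2 ^ s ≤ N := by exact_mod_cast h4
    rwa [Nat.cast_sub h2] at this
  have hnN : (0 : ℝ) ≤ (n : ℝ) - N := by
    have : (N : ℝ) ≤ n := by exact_mod_cast h2
    linarith
  have hTK : (1 : ℝ) ≤ T ^ K := one_le_pow₀ hT
  have hN0 : (0 : ℝ) ≤ N := Nat.cast_nonneg _
  have h6 : ((n : ℝ) - N) * (12 * K * T ^ K) ≤ N :=
    (mul_le_mul_of_nonneg_left hs hnN).trans h5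
  have hq : (0 : ℝ) ≤ (Real.sqrt h) ^ k := by positivity
  have hq1 : (Real.sqrt h) ^ k ≤ T ^ K := by
    have e1 : Real.sqrt h ≤ T := by
      rw [Real.sqrt_le_left (by linarith)]
      nlinarith
    have e2 : (Real.sqrt h) ^ k ≤ T ^ k := pow_le_pow_left₀ (Real.sqrt_nonneg _) e1 k
    exact e2.trans (pow_le_pow_right₀ hT hk.2)
  have hq2 : (h : ℝ) ^ k = (Real.sqrt h) ^ k * (Real.sqrt h) ^ k := by
    rw [← mul_pow, Real.mul_self_sqrt (Nat.cast_nonneg _)]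
  have h7 : ((n : ℝ) - N) * (h : ℝ) ^ k ≤ 1 / (12 * K) * (Real.sqrt h) ^ k * N := by
    rw [hq2]
    have e1 : ((n : ℝ) - N) * ((Real.sqrt h) ^ k * (Real.sqrt h) ^ k) ≤
        ((n : ℝ) - N) * (T ^ K * (Real.sqrt h) ^ k) :=
      mul_le_mul_of_nonneg_left (mul_le_mul_of_nonneg_right hq1 hq) hnN
    refine e1.trans ?_
    rw [div_mul_eq_mul_div, div_mul_eq_mul_div, le_div_iff₀ (by positivity), one_mul]
    nlinarith
  have h8 : (n : ℝ) ≤ 2 * N := by
    have e1 : ((n : ℝ) - N) * 1 ≤ ((n : ℝ) - N) * (12 * K * T ^ K) := by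
      refine mul_le_mul_of_nonneg_left ?_ hnN
      nlinarith
    linarith
  have h9 := hnet n hn (hN1.trans (by exact_mod_cast h2))
  have h10 := Ek_diff hp k h h2
  have h11 : 1 / (12 * K) * (Real.sqrt h) ^ k * (n : ℝ) ≤
      1 / (12 * K) * (Real.sqrt h) ^ k * (2 * N) := mul_le_mul_of_nonneg_left h8 (by positivity)
  calc |Ek (fq p) k N h| ≤ _ := h10
    _ ≤ 1 / (12 * K) * (Real.sqrt h) ^ k * (2 * N) + 1 / (12 * K) * (Real.sqrt h) ^ k * N :=
        add_le_add (h9.trans h11) h7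
    _ = 1 / (4 * K) * (Real.sqrt h) ^ k * N := by
        field_simp
        ring


end NetMid

open NetMid Pool.Agent.P4f18dfQ.BadL

theorem bad_net (K : ℕ) (hK : 1 ≤ K) (a : ℝ) (ha : 0 < a) :
    ∃ c₀ : ℝ, 0 < c₀ ∧ ∀ c : ℝ, 0 < c → c ≤ c₀ → ∃ P₀ : ℕ, ∀ P : ℕ, P₀ ≤ P →
      ∃ B : Finset ℕ, (B.card : ℝ) ≤ (P : ℝ) ^ (1 - c₀) ∧ ∀ p ∈ PP P, p ∉ B →
        ∀ k ∈ Icc 1 K, ∀ h : ℕ, 1 ≤ h → (h : ℝ) ≤ (P : ℝ) ^ c → ∀ N : ℕ, (P : ℝ) ^ a ≤ N →
          (N : ℝ) ≤ Real.exp ((P : ℝ) ^ c) →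
            |Dk (fq p) k N h| ≤ (1 / K : ℝ) * (Real.sqrt h) ^ k := by
  obtain ⟨C, hC0, hC⟩ := card_bad_all K
  obtain ⟨c₁, hc₁, P₁, hmid⟩ := card_bad_mid K hK a ha
  have hK0 : (1 : ℝ) ≤ K := by exact_mod_cast hK
  set c₂ : ℝ := min c₁ (1 / 2) with hc₂
  have hc₂0 : 0 < c₂ := lt_min hc₁ (by norm_num)
  have hc₂1 : c₂ ≤ c₁ := min_le_left _ _
  have hc₂2 : c₂ ≤ 1 / 2 := min_le_right _ _
  set c₀ : ℝ := c₂ / (K + 4) with hc₀
  have hc₀0 : 0 < c₀ := by positivity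
  have hc₀K : c₀ * (K + 4) = c₂ := by
    rw [hc₀]
    field_simp
  refine ⟨c₀, hc₀0, ?_⟩
  intro c hc hcc
  have hcK4 : c * (K + 4) ≤ c₂ := by
    rw [← hc₀K]
    exact mul_le_mul_of_nonneg_right hcc (by positivity)
  have hcK : c * (K + 2) ≤ 1 := by nlinarith
  have hcle : c ≤ c₁ := by nlinarith
  set D : ℝ := 624 * K ^ 2 with hD
  have hD0 : 0 < D := by positivity
  have hlim : ∀ᶠ P : ℕ in atTop, 96 * K + D + C * (144 * K ^ 2) ≤ (P : ℝ) ^ c :=
    ((tendsto_rpow_atTop hc).comp tendsto_natCast_atTop_atTop).eventually_ge_atTop _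
  obtain ⟨P₀, hP₀⟩ := eventually_atTop.1 hlim
  refine ⟨max (max P₀ 3) P₁, fun P hP => ?_⟩
  have hP1 : P₀ ≤ P := (le_max_left _ _).trans ((le_max_left _ _).trans hP)
  have hP3 : 3 ≤ P := (le_max_right _ _).trans ((le_max_left _ _).trans hP)
  have hPP1 : P₁ ≤ P := (le_max_right _ _).trans hP
  have hPr : (1 : ℝ) ≤ P := by
    have : 1 ≤ P := by omega
    exact_mod_cast this
  have hTM := hP₀ P hP1
  set T : ℝ := (P : ℝ) ^ c with hT
  have hCK : 0 < C * (144 * (K : ℝ) ^ 2) := by positivity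
  have hT96 : 96 * (K : ℝ) ≤ T := by linarith
  have hTD : D ≤ T := by linarith
  have hTC : C * (144 * (K : ℝ) ^ 2) ≤ T := by linarith
  have hT1 : (1 : ℝ) ≤ T := by linarith
  have hT0 : (0 : ℝ) < T := by linarith
  have hpow : ∀ j : ℕ, T ^ j = (P : ℝ) ^ (c * j) := by
    intro j
    rw [hT, Real.rpow_mul (by linarith), Real.rpow_natCast]
  have hTP : T ^ (K + 2) ≤ P := by
    rw [hpow]
    calc (P : ℝ) ^ (c * ((K + 2 : ℕ) : ℝ)) ≤ (P : ℝ) ^ (1 : ℝ) :=
          Real.rpow_le_rpow_of_exponent_le hPr (by push_cast; exact hcK)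
      _ = P := Real.rpow_one _
  have hTK1 : T ^ (K + 1) ≤ (P : ℝ) ^ (1 - c₂) := by
    rw [hpow]
    refine Real.rpow_le_rpow_of_exponent_le hPr ?_
    push_cast
    nlinarith
  have hTleP : T ≤ P := by
    refine le_trans ?_ hTP
    calc T = T ^ 1 := (pow_one T).symm
      _ ≤ T ^ (K + 2) := pow_le_pow_right₀ hT1 (by omega)
  have hTK : (1 : ℝ) ≤ T ^ K := one_le_pow₀ hT1
  have hx1 : (1 : ℝ) ≤ 12 * K * T ^ K := by nlinarith
  obtain ⟨s, hs1, hs2⟩ := exists_pow_two hx1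
  obtain ⟨E, hE1, hE2⟩ := exists_E hT0.le
  set X : ℝ := (P : ℝ) ^ a with hX
  have hX0 : 0 < X := Real.rpow_pos_of_pos (by linarith) _
  classical
  set B : Finset ℕ := (Icc 1 K).biUnion fun k => (Icc 1 ⌊T⌋₊).biUnion fun h =>
    ((Net s E).filter (fun N : ℕ => X ≤ (N : ℝ))).biUnion fun N =>
      (PP P).filter (fun p => 1 / (12 * K) * (Real.sqrt h) ^ k * N < |Ek (fq p) k N h|) with hB
  have hY0 : 0 < (P : ℝ) ^ (1 - c₂) := Real.rpow_pos_of_pos (by linarith) _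
  refine ⟨B, ?_, ?_⟩
  · have c1 : ∀ k ∈ Icc 1 K, ∀ h ∈ Icc 1 ⌊T⌋₊, ∀ N ∈ (Net s E).filter (fun N : ℕ => X ≤ (N : ℝ)),
        (((PP P).filter (fun p => 1 / (12 * (K : ℝ)) * (Real.sqrt h) ^ k * N <
          |Ek (fq p) k N h|)).card : ℝ) ≤ (P : ℝ) ^ (1 - c₂) := by
      intro k hk h hh N hN
      rw [mem_Icc] at hh
      rw [mem_filter] at hN
      have hhT : (h : ℝ) ≤ T := (Nat.le_floor_iff hT0.le).1 hh.2
      have hhP : h ≤ P := by exact_mod_cast hhT.trans hTleP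
      by_cases hbig : P ^ 3 ≤ 8 * N
      · have hPN : P ≤ N := by
          have h2 : 8 * P ≤ P ^ 3 := cube_ge hP3
          omega
        have hh1 : (1 : ℝ) ≤ h := by exact_mod_cast hh.1
        have hk' := mem_Icc.1 hk
        have hcond : 8 * (h : ℝ) ^ (k + 1) ≤ 1 / (12 * (K : ℝ)) * (Real.sqrt h) ^ k * P := by
          have e1 : (h : ℝ) ^ (k + 1) ≤ T ^ (K + 1) :=
            (pow_le_pow_left₀ (by linarith) hhT _).trans (pow_le_pow_right₀ hT1 (by omega))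
          have e2 : (1 : ℝ) ≤ (Real.sqrt h) ^ k := one_le_pow₀ (Real.one_le_sqrt.2 hh1)
          have e3 : 96 * K * T ^ (K + 1) ≤ P := by
            refine le_trans ?_ hTP
            calc 96 * (K : ℝ) * T ^ (K + 1) ≤ T * T ^ (K + 1) :=
                  mul_le_mul_of_nonneg_right hT96 (by positivity)
              _ = T ^ (K + 2) := by ring
          have e4 : (P : ℝ) ≤ (Real.sqrt h) ^ k * P := le_mul_of_one_le_left (by linarith) e2
          rw [div_mul_eq_mul_div, div_mul_eq_mul_div, le_div_iff₀ (by positivity), one_mul]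
          calc 8 * (h : ℝ) ^ (k + 1) * (12 * (K : ℝ)) = 96 * K * (h : ℝ) ^ (k + 1) := by ring
            _ ≤ 96 * K * T ^ (K + 1) := mul_le_mul_of_nonneg_left e1 (by positivity)
            _ ≤ P := e3
            _ ≤ _ := e4
        have h1 := hC k hk P N h (by omega) hbig hh.1 hhP (hhP.trans hPN) (1 / (12 * K))
          (by positivity) hcond
        refine h1.trans ?_
        have e1 : (h : ℝ) ^ k ≤ T ^ K :=
          (pow_le_pow_left₀ (by linarith) hhT _).trans (pow_le_pow_right₀ hT1 hk'.2)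
        have e2 : C * (h : ℝ) ^ k / (1 / (12 * (K : ℝ))) ^ 2 = C * (144 * K ^ 2) * (h : ℝ) ^ k := by
          field_simp
          ring
        rw [e2]
        refine le_trans ?_ hTK1
        calc C * (144 * (K : ℝ) ^ 2) * (h : ℝ) ^ k ≤ T * T ^ K :=
              mul_le_mul hTC e1 (by positivity) hT0.le
          _ = T ^ (K + 1) := by ring
      · have hN2 : N ≤ 2 * P ^ 3 := by omega
        have hhc : (h : ℝ) ≤ (P : ℝ) ^ c₁ :=
          hhT.trans (Real.rpow_le_rpow_of_exponent_le hPr hcle)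
        refine (hmid P hPP1 k hk N h hN.2 hN2 hh.1 hhc).trans ?_
        exact Real.rpow_le_rpow_of_exponent_le hPr (by linarith)
    have c2 : ∀ k ∈ Icc 1 K, ∀ h ∈ Icc 1 ⌊T⌋₊,
        ((((Net s E).filter (fun N : ℕ => X ≤ (N : ℝ))).biUnion fun N =>
          (PP P).filter (fun p => 1 / (12 * (K : ℝ)) * (Real.sqrt h) ^ k * N <
            |Ek (fq p) k N h|)).card : ℝ) ≤
          (48 * K * T ^ K * (13 * T)) * (P : ℝ) ^ (1 - c₂) := by
      intro k hk h hh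
      refine (card_bU (c1 k hk h hh)).trans ?_
      refine mul_le_mul_of_nonneg_right ?_ (by positivity)
      have e1 : (((Net s E).filter (fun N : ℕ => X ≤ (N : ℝ))).card : ℝ) ≤
          2 ^ (s + 1) * ((E : ℝ) + 1) := by
        have := (Finset.card_filter_le (Net s E) (fun N : ℕ => X ≤ (N : ℝ))).trans
          (card_Net_le s E)
        exact_mod_cast this
      refine e1.trans ?_
      have e2 : (2 : ℝ) ^ (s + 1) ≤ 48 * K * T ^ K := by
        rw [pow_succ]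
        linarith
      have e3 : (E : ℝ) + 1 ≤ 13 * T := by linarith
      exact mul_le_mul e2 e3 (by positivity) (by positivity)
    have c3 : ∀ k ∈ Icc 1 K, (((Icc 1 ⌊T⌋₊).biUnion fun h =>
        ((Net s E).filter (fun N : ℕ => X ≤ (N : ℝ))).biUnion fun N =>
          (PP P).filter (fun p => 1 / (12 * (K : ℝ)) * (Real.sqrt h) ^ k * N <
            |Ek (fq p) k N h|)).card : ℝ) ≤
          T * ((48 * K * T ^ K * (13 * T)) * (P : ℝ) ^ (1 - c₂)) := by
      intro k hk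
      refine (card_bU (c2 k hk)).trans ?_
      refine mul_le_mul_of_nonneg_right ?_ (by positivity)
      rw [Nat.card_Icc]
      have := Nat.floor_le hT0.le
      simpa using this
    have c4 : (B.card : ℝ) ≤
        K * (T * ((48 * K * T ^ K * (13 * T)) * (P : ℝ) ^ (1 - c₂))) := by
      have := card_bU c3
      rw [Nat.card_Icc, Nat.add_sub_cancel] at this
      exact this
    refine c4.trans ?_
    have c5 : K * (T * ((48 * K * T ^ K * (13 * T)) * (P : ℝ) ^ (1 - c₂))) =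
        D * T ^ (K + 2) * (P : ℝ) ^ (1 - c₂) := by
      rw [hD]
      ring
    rw [c5]
    calc D * T ^ (K + 2) * (P : ℝ) ^ (1 - c₂) ≤ T * T ^ (K + 2) * (P : ℝ) ^ (1 - c₂) := by
          gcongr
      _ = T ^ (K + 3) * (P : ℝ) ^ (1 - c₂) := by ring
      _ = (P : ℝ) ^ (c * ((K + 3 : ℕ) : ℝ) + (1 - c₂)) := by
          rw [hpow, Real.rpow_add (by linarith)]
      _ ≤ (P : ℝ) ^ (1 - c₀) := by
          refine Real.rpow_le_rpow_of_exponent_le hPr ?_
          push_cast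
          nlinarith
  · intro p hp hpB k hk h hh1 hhT N hN1 hN2
    have hpp : p.Prime := (mem_PP.1 hp).2
    have hnet : ∀ n ∈ Net s E, X ≤ (n : ℝ) →
        |Ek (fq p) k n h| ≤ 1 / (12 * K) * (Real.sqrt h) ^ k * n := by
      intro n hn h8
      by_contra hlt
      push Not at hlt
      apply hpB
      rw [hB]
      simp only [mem_biUnion]
      refine ⟨k, hk, h, mem_Icc.2 ⟨hh1, (Nat.le_floor_iff hT0.le).2 hhT⟩, n,
        mem_filter.2 ⟨hn, h8⟩, mem_filter.2 ⟨hp, hlt⟩⟩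
    have hexp := Real.exp_pos T
    have hN0 : (0 : ℝ) < N := lt_of_lt_of_le hX0 hN1
    have b1 := bound_allX hK hT1 hpp hs1 hE1 hk hh1 hhT hnet hN1 (by linarith)
    have b2 := bound_allX hK hT1 hpp hs1 hE1 hk hh1 hhT hnet (N := 2 * N) (by push_cast; linarith)
      (by push_cast; linarith)
    rw [Dk_eq_Ek, abs_div, abs_of_pos hN0, div_le_iff₀ hN0]
    refine (abs_sub _ _).trans ?_
    push_cast at b2
    have hq : (0 : ℝ) ≤ (Real.sqrt h) ^ k * N := by positivity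
    have e1 : 1 / (4 * (K : ℝ)) * (Real.sqrt h) ^ k * (2 * N) +
        1 / (4 * K) * (Real.sqrt h) ^ k * N = 3 / (4 * K) * ((Real.sqrt h) ^ k * N) := by
      field_simp
      ring
    have e2 : 3 / (4 * (K : ℝ)) * ((Real.sqrt h) ^ k * N) ≤
        1 / K * ((Real.sqrt h) ^ k * N) := by
      refine mul_le_mul_of_nonneg_right ?_ hq
      rw [div_le_div_iff₀ (by positivity) (by positivity)]
      linarith
    calc |Ek (fq p) k (2 * N) h| + |Ek (fq p) k N h| ≤ _ := add_le_add b2 b1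
      _ = _ := e1
      _ ≤ _ := e2
      _ = 1 / (K : ℝ) * (Real.sqrt h) ^ k * N := by ring

end Pool.Agent.P4f18dfT
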