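import Pool.Agent.Lib.P4f18dfT.Cheb
import Pool.Agent.Lib.P4f18dfQ.Sieve
import Pool.Agent.Lib.P4f18dfQ.Bridge

/-!
# The square sieve

Module TW.SqSieve.  Let `Q = ⌊N^(1/4)⌋`, `Q'` as in `exists_block`, `m = S.card`, `T` the set of pairs
counted by `SqP S N`.  For `(x, y) ∈ T`, `F x * F y = w * w` with `1 ≤ w ≤ (2N)^m`
(`F x = Fs S x ≥ 1` since `x ≥ 1`; `x + s ≤ 2N`), so `lg q (F x) * lg q (F y) = lg q (w * w) = (lg q w)^2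
= 1` unless `q ∣ w` (`lg_mul`, `lg_sq_of_not_dvd`); at most `C'` primes `q > Q' ≥ Q` divide `w`
(`Q^(number) ≤ w ≤ (2N)^m`, number `≤ 8 m + 1` for large `N`; e.g. `Finset.prod_primes_dvd`).  So for large
`N`, `∑_{q ∈ PP Q'} lg q (F x) lg q (F y) ≥ |PP Q'| - C' ≥ |PP Q'| / 2`, and
`|T| (|PP| / 2)^2 ≤ ∑_{x, y ≤ N} (∑_q lg q (F x) lg q (F y))^2 = ∑_{q, q'} (∑_{x ≤ N} lg q (F x) lg q' (F x))^2
≤ |PP| N^2 + |PP|^2 (C₀^2 N / Q' + 4 Q'^2)^2` (`Sieve.cross` of `Lib/P4f18dfQ/Sieve.lean`, with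
`complete_sum m hm`; its hypothesis `s ≤ Q'` holds as `s ≤ N^(1/8)`).  With `|PP| ≥ Q^(3/4)`,
`N^(1/4) / 2 ≤ Q ≤ Q' ≤ 4 N^(1/4)`:
`|T| ≤ 4 N^2 / Q^(3/4) + 4 (2 C₀^2 N^(3/4) + 64 N^(1/2))^2 ≤ N^(15/8)` for large `N`
(`N^2 / Q^(3/4) ≤ 2 N^(2 - 3/16)`, `2 - 3/16 = 29/16 < 30/16`).
-/

set_option autoImplicit false

namespace Pool.Agent.P4f18dfT

open Finset Filter Pool.Agent.P4f18dfQ

namespace SqSieve

lemma Fs_pos {S : Finset ℕ} {n : ℕ} (hn : 1 ≤ n) : 1 ≤ Fs S n := by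
  unfold Fs
  exact Finset.one_le_prod' (fun s _ => by omega)

lemma Fs_le {S : Finset ℕ} {n M : ℕ} (h : ∀ s ∈ S, n + s ≤ M) : Fs S n ≤ M ^ S.card := by
  unfold Fs
  exact Finset.prod_le_pow_card S _ M h

lemma card_dvd {w Q Q' k : ℕ} (hw : 1 ≤ w) (hQ : 2 ≤ Q) (hQQ : Q ≤ Q') (hw2 : w ≤ Q ^ k) :
    ((PP Q').filter (fun q => q ∣ w)).card ≤ k := by
  have h1 : ∏ q ∈ (PP Q').filter (fun q => q ∣ w), q ∣ w := by
    apply Finset.prod_primes_dvd w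
    · intro a ha
      exact (mem_PP.1 (Finset.mem_filter.1 ha).1).2.prime
    · intro a ha
      exact (Finset.mem_filter.1 ha).2
  have h2 : Q ^ ((PP Q').filter (fun q => q ∣ w)).card ≤ ∏ q ∈ (PP Q').filter (fun q => q ∣ w), q := by
    apply Finset.pow_card_le_prod
    intro q hq
    have := (mem_PP.1 (Finset.mem_filter.1 hq).1).1.1
    omega
  have h3 := (h2.trans (Nat.le_of_dvd (by omega) h1)).trans hw2
  exact (Nat.pow_le_pow_iff_right (by omega : 1 < Q)).1 h3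

lemma sum_ge {w Q' : ℕ} {k : ℕ} (hk : ((PP Q').filter (fun q => q ∣ w)).card ≤ k) :
    ((PP Q').card : ℝ) - k ≤ ∑ q ∈ PP Q', lg q (w * w) := by
  have h1 : ∀ q ∈ PP Q', (1 : ℝ) - (if q ∣ w then 1 else 0) ≤ lg q (w * w) := by
    intro q hq
    rw [lg_mul]
    have hp := (mem_PP.1 hq).2
    split_ifs with hd
    · rw [lg_of_dvd hp hd]; norm_num
    · rcases lg_sq_of_not_dvd hp hd with h | h <;> rw [h] <;> norm_num
  have h2 := Finset.sum_le_sum h1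
  rw [Finset.sum_sub_distrib, Finset.sum_const, nsmul_eq_mul, mul_one, Finset.sum_boole] at h2
  have h3 : (((PP Q').filter (fun q => q ∣ w)).card : ℝ) ≤ k := by exact_mod_cast hk
  linarith

lemma swap (A B : Finset ℕ) (f : ℕ → ℕ → ℝ) :
    ∑ x ∈ A, ∑ y ∈ A, (∑ q ∈ B, f q x * f q y) ^ 2 =
      ∑ q ∈ B, ∑ q' ∈ B, (∑ x ∈ A, f q x * f q' x) ^ 2 := by
  have h1 : ∀ x ∈ A, ∀ y ∈ A, (∑ q ∈ B, f q x * f q y) ^ 2 =
      ∑ q ∈ B, ∑ q' ∈ B, (f q x * f q' x) * (f q y * f q' y) := by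
    intro x _ y _
    rw [sq, Finset.sum_mul_sum]
    refine Finset.sum_congr rfl fun q _ => Finset.sum_congr rfl fun q' _ => ?_
    ring
  have h2 : ∀ q ∈ B, ∀ q' ∈ B, (∑ x ∈ A, f q x * f q' x) ^ 2 =
      ∑ x ∈ A, ∑ y ∈ A, (f q x * f q' x) * (f q y * f q' y) := by
    intro q _ q' _
    rw [sq, Finset.sum_mul_sum]
  calc _ = ∑ x ∈ A, ∑ y ∈ A, ∑ q ∈ B, ∑ q' ∈ B, (f q x * f q' x) * (f q y * f q' y) :=
        Finset.sum_congr rfl fun x hx => Finset.sum_congr rfl fun y hy => h1 x hx y hy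
    _ = ∑ x ∈ A, ∑ q ∈ B, ∑ y ∈ A, ∑ q' ∈ B, (f q x * f q' x) * (f q y * f q' y) :=
        Finset.sum_congr rfl fun x _ => Finset.sum_comm
    _ = ∑ q ∈ B, ∑ x ∈ A, ∑ y ∈ A, ∑ q' ∈ B, (f q x * f q' x) * (f q y * f q' y) :=
        Finset.sum_comm
    _ = ∑ q ∈ B, ∑ x ∈ A, ∑ q' ∈ B, ∑ y ∈ A, (f q x * f q' x) * (f q y * f q' y) :=
        Finset.sum_congr rfl fun q _ => Finset.sum_congr rfl fun x _ => Finset.sum_comm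
    _ = ∑ q ∈ B, ∑ q' ∈ B, ∑ x ∈ A, ∑ y ∈ A, (f q x * f q' x) * (f q y * f q' y) :=
        Finset.sum_congr rfl fun q _ => Finset.sum_comm
    _ = _ := Finset.sum_congr rfl fun q hq => Finset.sum_congr rfl fun q' hq' =>
        (h2 q hq q' hq').symm

lemma count {S : Finset ℕ} {N Q Q' k : ℕ} (hQ : 2 ≤ Q) (hQQ : Q ≤ Q')
    (hw : ∀ x ∈ Ioc 0 N, Fs S x ≤ Q ^ k) (hk : 2 * (k : ℝ) ≤ (PP Q').card) :
    (SqP S N : ℝ) * (((PP Q').card : ℝ) / 2) ^ 2 ≤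
      ∑ x ∈ Ioc 0 N, ∑ y ∈ Ioc 0 N, (∑ q ∈ PP Q', lg q (Fs S x) * lg q (Fs S y)) ^ 2 := by
  classical
  rw [← Finset.sum_product']
  have h1 : ∀ x ∈ ((Ioc 0 N) ×ˢ (Ioc 0 N)).filter (fun x => IsSquare (Fs S x.1 * Fs S x.2)),
      (((PP Q').card : ℝ) / 2) ^ 2 ≤ (∑ q ∈ PP Q', lg q (Fs S x.1) * lg q (Fs S x.2)) ^ 2 := by
    intro x hx
    obtain ⟨hx1, w, hwx⟩ := Finset.mem_filter.1 hx
    obtain ⟨hxa, hxb⟩ := Finset.mem_product.1 hx1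
    have ha := Fs_pos (S := S) (n := x.1) (by have := Finset.mem_Ioc.1 hxa; omega)
    have hb := Fs_pos (S := S) (n := x.2) (by have := Finset.mem_Ioc.1 hxb; omega)
    have hw0 : 1 ≤ w := by
      rcases Nat.eq_zero_or_pos w with h | h
      · subst h
        have := Nat.mul_pos ha hb
        omega
      · exact h
    have hwk : w ≤ Q ^ k := by
      have h2 : w * w ≤ Q ^ k * Q ^ k := by
        rw [← hwx]; exact Nat.mul_le_mul (hw _ hxa) (hw _ hxb)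
      exact Nat.mul_self_le_mul_self_iff.1 h2
    have h3 := sum_ge (card_dvd hw0 hQ hQQ hwk)
    have h4 : ∑ q ∈ PP Q', lg q (Fs S x.1) * lg q (Fs S x.2) = ∑ q ∈ PP Q', lg q (w * w) := by
      refine Finset.sum_congr rfl fun q _ => ?_
      rw [← lg_mul, hwx]
    rw [h4]
    apply pow_le_pow_left₀ (by positivity)
    linarith
  have h2 := Finset.sum_le_sum h1
  rw [Finset.sum_const, nsmul_eq_mul] at h2
  refine le_trans (le_trans (le_of_eq ?_) h2) ?_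
  · unfold SqP
    congr!
  · exact Finset.sum_le_sum_of_subset_of_nonneg (Finset.filter_subset _ _)
      (fun _ _ _ => sq_nonneg _)

lemma fin {N B C Qr Q'r T u : ℝ} (hu : 1 ≤ u) (hN : N = u ^ 16) (hB : u ^ 3 / 2 ≤ B)
    (hC : 0 ≤ C) (hQ1 : u ^ 4 / 2 ≤ Qr) (hQ2 : Qr ≤ Q'r) (hQ3 : Q'r ≤ 4 * u ^ 4)
    (hbig : 8 + 4 * (2 * C ^ 2 + 64) ^ 2 ≤ u)
    (hT : T * (B / 2) ^ 2 ≤ B * N ^ 2 + B ^ 2 * (C ^ 2 * N / Q'r + 4 * Q'r ^ 2) ^ 2) :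
    T ≤ u ^ 30 := by
  have hu0 : 0 < u := by linarith
  have hB0 : 0 < B := lt_of_lt_of_le (by positivity) hB
  have hQ'0 : 0 < Q'r := lt_of_lt_of_le (by positivity) (hQ1.trans hQ2)
  have h1 : C ^ 2 * N / Q'r ≤ 2 * C ^ 2 * u ^ 12 := by
    rw [div_le_iff₀ hQ'0, hN]
    calc C ^ 2 * u ^ 16 = (2 * C ^ 2 * u ^ 12) * (u ^ 4 / 2) := by ring
      _ ≤ (2 * C ^ 2 * u ^ 12) * Q'r := mul_le_mul_of_nonneg_left (hQ1.trans hQ2) (by positivity)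
  have h2 : 4 * Q'r ^ 2 ≤ 64 * u ^ 12 := by
    have : Q'r ^ 2 ≤ (4 * u ^ 4) ^ 2 := pow_le_pow_left₀ hQ'0.le hQ3 2
    have h8 : u ^ 8 ≤ u ^ 12 := pow_le_pow_right₀ hu (by norm_num)
    nlinarith
  have h3 : (C ^ 2 * N / Q'r + 4 * Q'r ^ 2) ^ 2 ≤ ((2 * C ^ 2 + 64) * u ^ 12) ^ 2 := by
    apply pow_le_pow_left₀
    · have : 0 ≤ C ^ 2 * N / Q'r := by rw [hN]; positivity
      positivity
    · linarith
  have h4 : T * (B / 2) ^ 2 ≤ B * (u ^ 16) ^ 2 + B ^ 2 * ((2 * C ^ 2 + 64) * u ^ 12) ^ 2 := by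
    rw [← hN]
    have := mul_le_mul_of_nonneg_left h3 (sq_nonneg B)
    linarith
  have h5 : T ≤ 4 * u ^ 32 / B + 4 * (2 * C ^ 2 + 64) ^ 2 * u ^ 24 := by
    have h6 : T * (B / 2) ^ 2 ≤ (4 * u ^ 32 / B + 4 * (2 * C ^ 2 + 64) ^ 2 * u ^ 24) * (B / 2) ^ 2 := by
      refine h4.trans (le_of_eq ?_)
      field_simp
      ring
    exact le_of_mul_le_mul_right h6 (by positivity)
  have h6 : 4 * u ^ 32 / B ≤ 8 * u ^ 29 := by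
    rw [div_le_iff₀ hB0]
    calc 4 * u ^ 32 = 8 * u ^ 29 * (u ^ 3 / 2) := by ring
      _ ≤ 8 * u ^ 29 * B := mul_le_mul_of_nonneg_left hB (by positivity)
  have h7 : 4 * (2 * C ^ 2 + 64) ^ 2 * u ^ 24 ≤ 4 * (2 * C ^ 2 + 64) ^ 2 * u ^ 29 :=
    mul_le_mul_of_nonneg_left (pow_le_pow_right₀ hu (by norm_num)) (by positivity)
  have h8 : (8 + 4 * (2 * C ^ 2 + 64) ^ 2) * u ^ 29 ≤ u * u ^ 29 :=
    mul_le_mul_of_nonneg_right hbig (by positivity)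
  have h9 : u * u ^ 29 = u ^ 30 := by ring
  linarith

lemma rpA {K : ℝ} (h : 0 ≤ K) : (K ^ 16) ^ (1 / 16 : ℝ) = K := by
  rw [← Real.rpow_natCast, ← Real.rpow_mul h]; norm_num

lemma rpB {N : ℝ} (h : 0 ≤ N) : (N ^ (1 / 16 : ℝ)) ^ 16 = N := by
  rw [← Real.rpow_natCast, ← Real.rpow_mul h]; norm_num

lemma rpC {u : ℝ} (h : 0 ≤ u) : (u ^ 16) ^ (1 / 8 : ℝ) = u ^ 2 := by
  rw [← Real.rpow_natCast, ← Real.rpow_mul h, ← Real.rpow_natCast]; norm_num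

lemma rpD {u : ℝ} (h : 0 ≤ u) : (u ^ 16) ^ (15 / 8 : ℝ) = u ^ 30 := by
  rw [← Real.rpow_natCast, ← Real.rpow_mul h, ← Real.rpow_natCast]; norm_num

lemma rpE {u : ℝ} (h : 0 ≤ u) : (u ^ 4) ^ (3 / 4 : ℝ) = u ^ 3 := by
  rw [← Real.rpow_natCast, ← Real.rpow_mul h, ← Real.rpow_natCast]; norm_num

lemma rpF {u : ℝ} (h : 0 ≤ u) : u ^ 3 / 2 ≤ (u ^ 4 / 2) ^ (3 / 4 : ℝ) := by
  rw [Real.div_rpow (by positivity) (by norm_num), rpE h]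
  apply div_le_div_of_nonneg_left (by positivity) (by positivity)
  calc (2 : ℝ) ^ (3 / 4 : ℝ) ≤ (2 : ℝ) ^ (1 : ℝ) :=
        Real.rpow_le_rpow_of_exponent_le (by norm_num) (by norm_num)
    _ = 2 := by norm_num

lemma hQr {u Q : ℝ} (h0 : 0 ≤ u) (h : u ^ 4 / 2 ≤ Q) (h32 : 32 ≤ Q) : u ^ 16 * 2 ≤ Q ^ 5 := by
  have e1 : u ^ 4 ≤ 2 * Q := by linarith
  have e2 : (u ^ 4) ^ 4 ≤ (2 * Q) ^ 4 := pow_le_pow_left₀ (by positivity) e1 4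
  calc u ^ 16 * 2 = (u ^ 4) ^ 4 * 2 := by ring
    _ ≤ (2 * Q) ^ 4 * 2 := by linarith
    _ = 32 * Q ^ 4 := by ring
    _ ≤ Q * Q ^ 4 := mul_le_mul_of_nonneg_right h32 (by positivity)
    _ = Q ^ 5 := by ring

lemma offdiag {m : ℕ} {C₀ : ℝ} (hC₀ : 0 < C₀) (h : ∀ p : ℕ, p.Prime →
    ∀ S : Finset ℕ, S.card = m → (∀ s ∈ S, s < p) →
      |∑ n ∈ range p, lg p (Fs S n)| ≤ C₀ * Real.sqrt p) {P N : ℕ} (hP : 2 ≤ P)
    {S : Finset ℕ} (hS : S.card = m) (hSP : ∀ s ∈ S, s ≤ P) :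
    ∑ q ∈ PP P, ∑ q' ∈ PP P, (∑ x ∈ Ioc 0 N, lg q (Fs S x) * lg q' (Fs S x)) ^ 2 ≤
      (PP P).card * (N : ℝ) ^ 2 + ((PP P).card : ℝ) ^ 2 *
        (C₀ ^ 2 * N / P + 4 * (P : ℝ) ^ 2) ^ 2 := by
  have hE0 : 0 ≤ C₀ ^ 2 * N / P + 4 * (P : ℝ) ^ 2 := by positivity
  have h1 : ∀ q ∈ PP P, ∀ q' ∈ PP P, (∑ x ∈ Ioc 0 N, lg q (Fs S x) * lg q' (Fs S x)) ^ 2 ≤
      (if q = q' then (N : ℝ) ^ 2 else 0) + (C₀ ^ 2 * N / P + 4 * (P : ℝ) ^ 2) ^ 2 := by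
    intro q hq q' hq'
    by_cases hqq : q = q'
    · rw [if_pos hqq]
      have h2 : |∑ x ∈ Ioc 0 N, lg q (Fs S x) * lg q' (Fs S x)| ≤ N := by
        refine (Finset.abs_sum_le_sum_abs _ _).trans ?_
        calc ∑ x ∈ Ioc 0 N, |lg q (Fs S x) * lg q' (Fs S x)| ≤ ∑ _x ∈ Ioc 0 N, (1 : ℝ) := by
              refine Finset.sum_le_sum fun x _ => ?_
              rw [abs_mul]
              exact mul_le_one₀ (abs_lg_le _ _) (abs_nonneg _) (abs_lg_le _ _)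
          _ = N := by rw [Finset.sum_const, Nat.card_Ioc]; simp
      have h3 : (∑ x ∈ Ioc 0 N, lg q (Fs S x) * lg q' (Fs S x)) ^ 2 ≤ (N : ℝ) ^ 2 := by
        rw [← sq_abs]
        exact pow_le_pow_left₀ (abs_nonneg _) h2 2
      have := sq_nonneg (C₀ ^ 2 * N / P + 4 * (P : ℝ) ^ 2)
      linarith
    · rw [if_neg hqq, zero_add, ← sq_abs]
      exact pow_le_pow_left₀ (abs_nonneg _)
        (Pool.Agent.P4f18dfQ.Sieve.cross hC₀ h hP hS hSP hq hq' hqq) 2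
  refine (Finset.sum_le_sum fun q hq => Finset.sum_le_sum fun q' hq' => h1 q hq q' hq').trans
    (le_of_eq ?_)
  have h2 : ∀ q ∈ PP P, ∑ q' ∈ PP P, ((if q = q' then (N : ℝ) ^ 2 else 0) +
      (C₀ ^ 2 * N / P + 4 * (P : ℝ) ^ 2) ^ 2) = (N : ℝ) ^ 2 +
        (PP P).card * (C₀ ^ 2 * N / P + 4 * (P : ℝ) ^ 2) ^ 2 := by
    intro q hq
    rw [Finset.sum_add_distrib, Finset.sum_ite_eq, if_pos hq, Finset.sum_const, nsmul_eq_mul]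
  rw [Finset.sum_congr rfl h2, Finset.sum_const, nsmul_eq_mul]
  ring

end SqSieve

open SqSieve in
theorem square_sieve (m : ℕ) (hm : 1 ≤ m) : ∃ N₀ : ℕ, ∀ N : ℕ, N₀ ≤ N → ∀ S : Finset ℕ,
    S.card = m → (∀ s ∈ S, (s : ℝ) ≤ (N : ℝ) ^ (1 / 8 : ℝ)) →
      (SqP S N : ℝ) ≤ (N : ℝ) ^ (15 / 8 : ℝ) := by
  classical
  obtain ⟨C₀, hC₀, hcs⟩ := complete_sum m hm
  obtain ⟨Q₀, hQ₀⟩ := exists_block
  have hC4 : 0 ≤ 4 * (2 * C₀ ^ 2 + 64) ^ 2 := by positivity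
  have hQ₀0 : (0 : ℝ) ≤ Q₀ := Nat.cast_nonneg _
  have hm0 : (0 : ℝ) ≤ m := Nat.cast_nonneg _
  obtain ⟨K, hK⟩ : ∃ K : ℝ, K = 8 + 4 * (2 * C₀ ^ 2 + 64) ^ 2 + 2 * Q₀ + 128 + 20 * m := ⟨_, rfl⟩
  have hK1 : 128 ≤ K := by rw [hK]; linarith
  refine ⟨⌈K ^ 16⌉₊, ?_⟩
  intro N hN S hSm hS
  obtain ⟨u, hu⟩ : ∃ u : ℝ, u = (N : ℝ) ^ (1 / 16 : ℝ) := ⟨_, rfl⟩
  have hNr : K ^ 16 ≤ (N : ℝ) := (Nat.le_ceil _).trans (by exact_mod_cast hN)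
  have hN0 : (0 : ℝ) ≤ N := Nat.cast_nonneg _
  have hKu : K ≤ u := by
    rw [hu, ← rpA (by linarith : 0 ≤ K)]
    exact Real.rpow_le_rpow (by positivity) hNr (by norm_num)
  have hu128 : 128 ≤ u := hK1.trans hKu
  have hu1 : 1 ≤ u := by linarith
  have hu0 : 0 < u := by linarith
  have hNu : (N : ℝ) = u ^ 16 := by rw [hu, rpB hN0]
  have hN4 : (N : ℝ) ^ (1 / 8 : ℝ) = u ^ 2 := by rw [hNu, rpC hu0.le]
  have hN30 : (N : ℝ) ^ (15 / 8 : ℝ) = u ^ 30 := by rw [hNu, rpD hu0.le]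
  obtain ⟨Q, hQ⟩ : ∃ Q : ℕ, Q = ⌊u ^ 4⌋₊ := ⟨_, rfl⟩
  have hQle : (Q : ℝ) ≤ u ^ 4 := by rw [hQ]; exact Nat.floor_le (by positivity)
  have hQlt : u ^ 4 < Q + 1 := by rw [hQ]; exact Nat.lt_floor_add_one _
  clear hu hQ
  have hu4 : u ≤ u ^ 4 := le_self_pow₀ hu1 (by norm_num)
  have hu3 : u ≤ u ^ 3 := le_self_pow₀ hu1 (by norm_num)
  have hu2 : u ≤ u ^ 2 := le_self_pow₀ hu1 (by norm_num)
  have hu24 : u ^ 2 * 2 ≤ u ^ 4 := by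
    have e : (2 : ℝ) ≤ u ^ 2 := by linarith
    calc u ^ 2 * 2 ≤ u ^ 2 * u ^ 2 := mul_le_mul_of_nonneg_left e (by positivity)
      _ = u ^ 4 := by ring
  have hQge : u ^ 4 / 2 ≤ Q := by linarith
  have hKQ : K ≤ 2 * Q := by linarith
  have hQ0 : Q₀ ≤ Q := by
    have : (Q₀ : ℝ) ≤ Q := by linarith
    exact_mod_cast this
  have hQ32r : (32 : ℝ) ≤ Q := by linarith
  have hQ32 : 32 ≤ Q := by exact_mod_cast hQ32r
  obtain ⟨Q', h1, h2, h3⟩ := hQ₀ Q hQ0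
  have hB : u ^ 3 / 2 ≤ ((PP Q').card : ℝ) :=
    ((rpF hu0.le).trans (Real.rpow_le_rpow (by positivity) hQge (by norm_num))).trans h3
  have h5 : 2 * ((5 * m : ℕ) : ℝ) ≤ ((PP Q').card : ℝ) := by
    refine le_trans ?_ hB
    push_cast
    linarith
  have hSle : ∀ s ∈ S, (s : ℝ) ≤ u ^ 2 := by
    intro s hs; rw [← hN4]; exact hS s hs
  have hSQ : ∀ s ∈ S, s ≤ Q' := by
    intro s hs
    have : (s : ℝ) ≤ Q := by have := hSle s hs; linarith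
    have : s ≤ Q := by exact_mod_cast this
    omega
  have hw : ∀ x ∈ Ioc 0 N, Fs S x ≤ Q ^ (5 * m) := by
    intro x hx
    have hx2 := (Finset.mem_Ioc.1 hx).2
    have h6 : Fs S x ≤ (Q ^ 5) ^ S.card := by
      apply Fs_le
      intro s hs
      have hxr : (x : ℝ) ≤ u ^ 16 := by rw [← hNu]; exact_mod_cast hx2
      have hsr : (s : ℝ) ≤ u ^ 16 :=
        (hSle s hs).trans (pow_le_pow_right₀ hu1 (by norm_num))
      have e5 := hQr hu0.le hQge hQ32r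
      have : ((x + s : ℕ) : ℝ) ≤ ((Q ^ 5 : ℕ) : ℝ) := by
        rw [Nat.cast_add, Nat.cast_pow]; linarith
      exact_mod_cast this
    rw [hSm, ← pow_mul] at h6
    exact h6
  have hcount := count (S := S) (N := N) (by omega : 2 ≤ Q) h1 hw h5
  have hsw := swap (Ioc 0 N) (PP Q') (fun q x => lg q (Fs S x))
  rw [hsw] at hcount
  have hoff := offdiag hC₀ hcs (by omega : 2 ≤ Q') hSm hSQ (N := N)
  rw [hN30]
  refine fin (N := (N : ℝ)) (B := ((PP Q').card : ℝ)) (C := C₀) (Qr := (Q : ℝ)) (Q'r := (Q' : ℝ))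
    hu1 hNu hB hC₀.le hQge (by exact_mod_cast h1) ?_ ?_ (hcount.trans hoff)
  · have : (Q' : ℝ) ≤ 4 * Q := by exact_mod_cast h2
    linarith
  · linarith

end Pool.Agent.P4f18dfT
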